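import Pool.Agent.MP_6c3157_co.PD.Basic

/-! Project PD, row AC23: properties two and three at a complex place. -/

set_option autoImplicit false

noncomputable section

namespace Pool.Agent.MP_6c3157_co.PD

open Finset

theorem ac23_mem {X : Type} [Fintype X] (e : X → ℂ) (r : ℝ) (q : ℂ) (x : X) :
    x ∈ tr e r q ↔ ‖q - e x‖ ≤ r := by
  unfold tr; simp

theorem ac23_vol (c : ℂ) {r : ℝ} (hr : 0 ≤ r) :
    (MeasureTheory.volume (Metric.closedBall c r)).toReal = Real.pi * r ^ 2 := by
  rw [Complex.volume_closedBall, ENNReal.toReal_mul, ENNReal.toReal_pow, ENNReal.toReal_ofReal hr,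
    mul_comm]
  rfl

theorem ac23 (hL : LEV) (hW : AW) : AC23 := by
  classical
  intro X _ _ e R s J lo hi hA
  have hs := hA.s_pos
  have hhi : 0 < hi := hA.lo_pos.trans_le hA.lo_hi
  have hlog : 0 ≤ Real.log (hi / lo) := Real.log_nonneg ((one_le_div hA.lo_pos).2 hA.lo_hi)
  have h1 : hi ≤ s * R := le_trans (by nlinarith) hA.R_big
  have hR : 0 < R := (mul_pos_iff_of_pos_left hs).1 (hhi.trans_le h1)
  have hR' : hi ≤ R := h1.trans (by nlinarith [hA.s_le])
  have hl : ∀ j, 0 < lvl R s j := fun j => mul_pos hR (Real.exp_pos _)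
  obtain ⟨L1, L2, -⟩ := hL R s J hR hs
  refine ⟨fun x a b ha hab => ?_, fun x a b ha hab hb => ?_⟩
  · rw [(hW X e R s J lo hi _ fun j h => absurd h.1 (notMem_empty x)).2]
    refine le_trans ?_ ((L1 a b ha hab).trans (by linarith))
    rw [card_filter, Nat.cast_sum, mul_sum]
    refine sum_le_sum fun j _ => ?_
    split_ifs with h
    · have : {q : ℂ | x ∈ tr e (lvl R s j) q ∧ a ≤ lvl R s j ∧ lvl R s j < b} =
          Metric.closedBall (e x) (lvl R s j) := by
        ext q; simp [ac23_mem, h, dist_eq_norm]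
      simp only
      rw [this, ac23_vol _ (hl j).le, mul_div_assoc, div_self (by have := hl j; positivity)]
      simp
    · simp [h]
  · obtain ⟨W1, W2⟩ := hW X e R s J lo hi (fun i => x ∈ i.2 ∧ a ≤ lvl R s i.1 ∧ lvl R s i.1 < b ∧
      ∀ z, ‖e x - e z‖ ≤ lvl R s i.1 / 2 → z ∈ i.2) fun j h => absurd h.1 (notMem_empty x)
    rw [W2]
    have h2 := L2 a b (hA.J_big.trans ha) hab (hb.trans hR')
    refine le_trans (b := s * (((range (J + 1)).filter
      fun j => a ≤ lvl R s j ∧ lvl R s j < b).card : ℝ) / 4) (by linarith) ?_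
    rw [card_filter, Nat.cast_sum, mul_sum, sum_div]
    refine sum_le_sum fun j _ => ?_
    have hj := hl j
    split_ifs with h
    · have h3 := ENNReal.toReal_mono (W1 j) (MeasureTheory.measure_mono
        (s := Metric.closedBall (e x) (lvl R s j / 2)) fun q hq => by
          rw [Metric.mem_closedBall, dist_eq_norm] at hq
          refine ⟨(ac23_mem ..).2 (by linarith), h.1, h.2, fun z hz => (ac23_mem ..).2 ?_⟩
          have := norm_sub_le_norm_sub_add_norm_sub q (e x) (e z)
          simp only at hz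
          linarith)
      rw [ac23_vol _ (by positivity)] at h3
      rw [le_div_iff₀ (by positivity)]
      refine le_trans (le_of_eq ?_) (mul_le_mul_of_nonneg_left h3 hs.le)
      push_cast; ring
    · simp only [Nat.cast_zero, mul_zero, zero_div]
      positivity

end Pool.Agent.MP_6c3157_co.PD
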