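import Pool.Agent.MP_6c3157_co.PD.Basic

/-! Project PD: property four at a complex place. -/

set_option autoImplicit false

namespace Pool.Agent.MP_6c3157_co.PD

open Finset

theorem ac4 (hW : AW) (h2 : GG2) (hP : PSI) : AC4 := by
  intro X _ _ e R s J lo hi h x y hxy
  have d0 : 0 < ‖e x - e y‖ := h.lo_pos.trans_le (h.d_lo x y hxy)
  have ne : e x ≠ e y := sub_ne_zero.1 (norm_pos_iff.1 d0)
  have R0 : 0 < R := by
    have h1 : 0 < hi := h.lo_pos.trans_le h.lo_hi
    have h3 : 0 ≤ Real.log (hi / lo) := Real.log_nonneg ((one_le_div h.lo_pos).2 h.lo_hi)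
    exact (mul_pos_iff_of_pos_left h.s_pos).1 (lt_of_lt_of_le (by positivity) h.R_big)
  have e1 : (arch e R s J lo hi).W (fun i => x ∈ i.2 ∧ y ∈ i.2) =
      s * ∑ j ∈ range (J + 1), gg (‖e x - e y‖ / lvl R s j) := by
    rw [(hW X e R s J lo hi _ fun j => by simp).2, mul_sum]
    refine sum_congr rfl fun j _ => ?_
    have l0 : 0 < lvl R s j := mul_pos R0 (Real.exp_pos _)
    have : {q : ℂ | x ∈ tr e (lvl R s j) q ∧ y ∈ tr e (lvl R s j) q} =
        Metric.closedBall (e x) (lvl R s j) ∩ Metric.closedBall (e y) (lvl R s j) := by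
      ext q
      simp [tr, dist_eq_norm]
    rw [this, h2 _ _ _ ne l0]
    have := Real.pi_pos
    field_simp
  rw [e1]
  exact hP R s J lo hi _ h.s_pos h.s_le h.lo_pos (h.d_lo x y hxy) (h.d_hi x y) h.R_big h.J_big

end Pool.Agent.MP_6c3157_co.PD
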