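import Pool.Agent.MP_6c3157_co.PD.Basic

/-! Project PD: property five at a complex place. -/

set_option autoImplicit false
set_option linter.unusedSectionVars false

noncomputable section

namespace Pool.Agent.MP_6c3157_co.PD

open Finset

theorem ac5_ball (a : ℂ) {t : ℝ} (ht : 0 ≤ t) :
    (MeasureTheory.volume (Metric.closedBall a t)).toReal = Real.pi * t ^ 2 := by
  rw [Complex.volume_closedBall, ENNReal.toReal_mul, ENNReal.toReal_pow, ENNReal.toReal_ofReal ht]
  simp [mul_comm]

theorem ac5_ring (a : ℂ) {ρ r : ℝ} (hr : 0 < r) (h : r ≤ ρ) {S : Set ℂ}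
    (hS : S ⊆ Metric.closedBall a (ρ + r) \ Metric.closedBall a (ρ - r)) :
    (MeasureTheory.volume S).toReal ≤ 4 * Real.pi * ρ * r := by
  have hsub : Metric.closedBall a (ρ - r) ⊆ Metric.closedBall a (ρ + r) :=
    Metric.closedBall_subset_closedBall (by linarith)
  have f1 : MeasureTheory.volume (Metric.closedBall a (ρ + r)) ≠ ⊤ :=
    MeasureTheory.measure_closedBall_lt_top.ne
  have f2 : MeasureTheory.volume (Metric.closedBall a (ρ - r)) ≠ ⊤ :=
    MeasureTheory.measure_closedBall_lt_top.ne
  have h1 := MeasureTheory.measure_sdiff hsub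
    Metric.isClosed_closedBall.measurableSet.nullMeasurableSet f2
  have h2 : MeasureTheory.volume S ≤ _ := h1 ▸ MeasureTheory.measure_mono hS
  have h3 := ENNReal.toReal_mono (ENNReal.sub_ne_top f1) h2
  rw [ENNReal.toReal_sub_of_le (MeasureTheory.measure_mono hsub) f1, ac5_ball a (by linarith),
    ac5_ball a (by linarith)] at h3
  linarith

theorem ac5 (hL : LEV) (hW : AW) : AC5 := by
  intro X _ _ e R s J lo hi hA x r hr
  have hs := hA.s_pos
  have hhi : 0 < hi := hA.lo_pos.trans_le hA.lo_hi
  have hR : 0 < R := by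
    have h1 : 0 ≤ Real.log (hi / lo) := Real.log_nonneg ((one_le_div hA.lo_pos).2 hA.lo_hi)
    have h2 : 0 < s * R := lt_of_lt_of_le (by positivity) hA.R_big
    exact (mul_pos_iff_of_pos_left hs).1 h2
  rw [(hW X e R s J lo hi _ fun j hj => by simp at hj).2]
  have h4 := (hL R s J hR hs).2.2.2.1 r hr (hA.s_le.trans (by norm_num))
  refine le_trans (sum_le_sum (g := fun j =>
    4 * if r ≤ lvl R s j then s * (r / lvl R s j) else 0) fun j _ => ?_) ?_
  · have hρ : 0 < lvl R s j := by unfold lvl; positivity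
    split_ifs with h
    · have h5 := ac5_ring (e x) hr h (S := {q : ℂ | r ≤ lvl R s j ∧
        (∃ a ∈ tr e (lvl R s j) q, ‖e x - e a‖ ≤ r) ∧
        ∃ b, b ∉ tr e (lvl R s j) q ∧ ‖e x - e b‖ ≤ r}) (by
          rintro q ⟨-, ⟨a, ha, ha'⟩, b, hb, hb'⟩
          simp only [tr, mem_filter, mem_univ, true_and, not_le] at ha hb
          simp only [Set.mem_sdiff, Metric.mem_closedBall, dist_eq_norm, not_le]
          constructor
          · have := norm_sub_le_norm_sub_add_norm_sub q (e a) (e x)
            rw [norm_sub_rev (e a)] at this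
            linarith
          · have := norm_sub_le_norm_sub_add_norm_sub q (e x) (e b)
            linarith)
      rw [div_le_iff₀ (by positivity)]
      calc _ ≤ s * (4 * Real.pi * lvl R s j * r) := mul_le_mul_of_nonneg_left h5 hs.le
        _ = _ := by field_simp
    · have : {q : ℂ | r ≤ lvl R s j ∧ (∃ a ∈ tr e (lvl R s j) q, ‖e x - e a‖ ≤ r) ∧
        ∃ b, b ∉ tr e (lvl R s j) q ∧ ‖e x - e b‖ ≤ r} = ∅ :=
        Set.eq_empty_of_forall_notMem fun q hq => h hq.1
      simp only [this]
      simp
  · rw [← mul_sum]; linarith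

end Pool.Agent.MP_6c3157_co.PD
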