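import Pool.Agent.MP_6c3157_co.PD.Basic

/-! Project PD: property six at a complex place. -/

set_option autoImplicit false

noncomputable section

namespace Pool.Agent.MP_6c3157_co.PD

open Finset

theorem ac6_vol (a : ℂ) {r : ℝ} (hr : 0 ≤ r) :
    (MeasureTheory.volume (Metric.closedBall a r)).toReal = Real.pi * r ^ 2 := by
  rw [Complex.volume_closedBall, ENNReal.toReal_mul, ENNReal.toReal_pow, ENNReal.toReal_ofReal hr,
    ENNReal.coe_toReal, NNReal.coe_real_pi, mul_comm]

theorem ac6_mem {X : Type} [Fintype X] (e : X → ℂ) (r : ℝ) (q : ℂ) (y : X) :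
    y ∈ tr e r q ↔ ‖q - e y‖ ≤ r := by
  unfold tr; simp

theorem ac6 (hL : LEV) (_hP : PUSH) (hW : AW) : AC6 := by
  intro X _ _ e R s J lo hi h x r Y h1 h2 hY
  classical
  have hs := h.s_pos
  have hs' := h.s_le
  have hlo := h.lo_pos
  have hr : 0 < r := hlo.trans_le h1
  have hhi : 0 < hi := hr.trans_le h2
  have hlog : 0 ≤ Real.log (hi / lo) := Real.log_nonneg ((one_le_div hlo).2 h.lo_hi)
  have hsR : hi ≤ s * R := by nlinarith [h.R_big]
  have hR : 0 < R := (mul_pos_iff_of_pos_left hs).1 (hhi.trans_le hsR)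
  have hR' : r / 64 ≤ R := by nlinarith
  have hρ : ∀ j, 0 < lvl R s j := fun j => mul_pos hR (Real.exp_pos _)
  obtain ⟨φ, hφ⟩ : ∃ φ : ℕ → Prop, φ = fun j => r / 128 ≤ lvl R s j ∧ lvl R s j < r / 64 := ⟨_, rfl⟩
  obtain ⟨N, hN0⟩ : ∃ N : ℝ, N = ∑ j ∈ range (J + 1), if φ j then s else 0 := ⟨_, rfl⟩
  have hN : 59 / 100 ≤ N := by
    have h3 := (hL R s J hR hs).2.1 (r / 128) (r / 64) (by linarith [h.J_big]) (by linarith) hR'
    have h4 : r / 64 / (r / 128) = 2 := by field_simp; norm_num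
    rw [h4, card_filter, Nat.cast_sum, mul_sum] at h3
    have h5 := Real.log_two_gt_d9
    refine le_trans (by linarith) (h3.trans (le_of_eq ?_))
    rw [hN0]
    refine sum_congr rfl fun j _ => ?_
    by_cases hj : φ j
    · rw [if_pos hj, if_pos (by rw [hφ] at hj; exact hj)]; simp
    · rw [if_neg hj, if_neg (by rw [hφ] at hj; exact hj)]; simp
  have a1 : ∀ y, (arch e R s J lo hi).W (fun i => φ i.1 ∧ y ∈ i.2) = N := fun y => by
    rw [(hW X e R s J lo hi _ fun j hj => by simpa using hj.2).2, hN0]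
    refine sum_congr rfl fun j _ => ?_
    by_cases hj : φ j
    · have : {q : ℂ | φ j ∧ y ∈ tr e (lvl R s j) q} = Metric.closedBall (e y) (lvl R s j) := by
        ext q; simp [hj, ac6_mem, dist_eq_norm]
      rw [if_pos hj, this, ac6_vol _ (hρ j).le]
      have := hρ j
      have := Real.pi_pos
      field_simp
    · simp [hj]
  have a2 : (arch e R s J lo hi).W (fun i => φ i.1 ∧ ∃ y ∈ Y, y ∈ i.2) ≤ 129 ^ 2 * N := by
    rw [(hW X e R s J lo hi _ fun j hj => by simpa using hj.2).2, hN0, mul_sum]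
    refine sum_le_sum fun j _ => ?_
    by_cases hj : φ j
    · have hj' : r / 128 ≤ lvl R s j := by rw [hφ] at hj; exact hj.1
      have h3 : {q : ℂ | φ j ∧ ∃ y ∈ Y, y ∈ tr e (lvl R s j) q} ⊆
          Metric.closedBall (e x) (129 * lvl R s j) := by
        rintro q ⟨-, y, hy, hq⟩
        rw [ac6_mem] at hq
        have h4 := hY y hy
        rw [norm_sub_rev] at h4
        rw [mem_closedBall_iff_norm]
        have := norm_sub_le_norm_sub_add_norm_sub q (e y) (e x)
        linarith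
      have h4 := ENNReal.toReal_mono MeasureTheory.measure_closedBall_lt_top.ne
        (MeasureTheory.measure_mono (μ := MeasureTheory.volume) h3)
      have h5 := hρ j
      have h6 := Real.pi_pos
      rw [ac6_vol _ (by positivity)] at h4
      rw [if_pos hj, div_le_iff₀ (by positivity)]
      refine (mul_le_mul_of_nonneg_left h4 hs.le).trans (le_of_eq ?_)
      ring
    · simp [hj]
  obtain ⟨t, ht⟩ : ∃ t : ℝ, t = Y.card / 129 ^ 2 := ⟨_, rfl⟩
  have a3 : (arch e R s J lo hi).WS (fun i => φ i.1) (fun i => 2 * t * ((Y ∩ i.2).card : ℝ) +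
      -t ^ 2 * (if ∃ y ∈ Y, y ∈ i.2 then 1 else 0)) ≤
      (arch e R s J lo hi).WS (fun i => φ i.1) (fun i => ((Y ∩ i.2).card : ℝ) ^ 2) := by
    unfold Cells.WS
    refine sum_le_sum fun i _ => ?_
    by_cases hi : φ i.1
    · rw [if_pos hi, if_pos hi]
      refine mul_le_mul_of_nonneg_left ?_ (div_nonneg (mul_nonneg hs.le ENNReal.toReal_nonneg)
        (mul_nonneg Real.pi_pos.le (sq_nonneg _)))
      by_cases h3 : ∃ y ∈ Y, y ∈ i.2
      · simp only [if_pos h3]
        nlinarith [sq_nonneg (((Y ∩ i.2).card : ℝ) - t)]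
      · have : Y ∩ i.2 = ∅ := eq_empty_of_forall_notMem fun y hy =>
          h3 ⟨y, (mem_inter.1 hy).1, (mem_inter.1 hy).2⟩
        simp [h3, this]
    · rw [if_neg hi, if_neg hi]
  have a4 := Cells.WS_ite (c := arch e R s J lo hi) (φ := fun i => φ i.1)
    fun i => ∃ y ∈ Y, y ∈ i.2
  rw [Cells.WS_add, Cells.WS_mul, Cells.WS_mul, ← Cells.sum_W, sum_congr rfl fun y _ => a1 y,
    sum_const, nsmul_eq_mul] at a3
  have a5 : (arch e R s J lo hi).WS (fun i => φ i.1) (fun i => if ∃ y ∈ Y, y ∈ i.2 then 1 else 0) ≤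
      129 ^ 2 * N := by
    refine le_trans (le_of_eq ?_) a2
    rw [← a4]
    exact Cells.WS_congr (fun _ _ => Iff.rfl) fun i _ _ => by congr
  have a6 := mul_le_mul_of_nonneg_left a5 (sq_nonneg t)
  rw [hφ] at a3
  refine le_trans ?_ a3
  rw [hφ] at a6
  have a7 : (Y.card : ℝ) = 129 ^ 2 * t := by rw [ht]; field_simp
  rw [a7]
  nlinarith [mul_le_mul_of_nonneg_left hN (sq_nonneg t), sq_nonneg t]

end Pool.Agent.MP_6c3157_co.PD
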