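import Pool.Agent.MP_6c3157_co.PD.Basic

/-! Project PD: the lower bound at a complex place. -/

set_option autoImplicit false
set_option linter.unusedSectionVars false

noncomputable section

namespace Pool.Agent.MP_6c3157_co.PD

open Finset

theorem ar : AR := by
  intro X _ c hv Y γ σ hp
  have hc := hp.good
  have hg := hp.geo
  have hn : (0 : ℝ) ≤ Y.card := Nat.cast_nonneg _
  have hO : 0 ≤ ∑ x ∈ Y, ∑ y ∈ Y.erase x, c.osm hv Y σ x y :=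
    sum_nonneg fun x _ => sum_nonneg fun y _ => Cells.osm_nonneg hc x y
  have hU : 0 ≤ c.ulow hv Y σ γ := Cells.ulow_nonneg hc γ
  have hxi := hc.xi_nonneg
  rcases hc.g_lo.eq_or_lt with h0 | h0
  · rw [← h0]
    have : 0 ≤ 2 * c.xi * Y.card := by positivity
    linarith
  have hx1 := hc.g_xi h0
  have hr := hg.r_pos hc
  have h6 := hc.c6 γ.cen γ.r (c.ball Y γ.cen γ.r) hg.r_lo hg.r_hi
    fun y hy => (Cells.mem_ball.1 hy).2
  have hb := hg.r_in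
  have hb2 : (Y.card : ℝ) ^ 2 / 2 ≤ ((c.ball Y γ.cen γ.r).card : ℝ) ^ 2 := by
    have h1 : (0 : ℝ) ≤ (1 - tau) * Y.card := mul_nonneg (by unfold tau; norm_num) hn
    have h2 := pow_le_pow_left₀ h1 hb 2
    have h3 : (1 - tau) ^ 2 ≥ 1 / 2 := by unfold tau; norm_num
    rw [mul_pow] at h2
    nlinarith [sq_nonneg (Y.card : ℝ)]
  have hl6 : γ.r / 64 ≤ γ.r / c.lam ^ 6 := by
    have h1 : c.lam ^ 6 ≤ 2 ^ 6 := pow_le_pow_left₀ hc.lam_pos.le hc.lam_hi 6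
    have h2 : 0 < c.lam ^ 6 := pow_pos hc.lam_pos 6
    exact div_le_div_of_nonneg_left hr.le h2 (by linarith)
  have hA : c.WS (fun i => γ.r / 128 ≤ c.ρ i ∧ c.ρ i < γ.r / 64)
      (fun i => ((c.ball Y γ.cen γ.r ∩ i.2).card : ℝ) ^ 2) ≤
      c.WS (fun i => c.small hv Y σ i ∧ γ.r / 128 ≤ c.ρ i ∧ c.ρ i < γ.r / 64)
        (fun i => ((Y ∩ i.2).card : ℝ) ^ 2) + c.ulow hv Y σ γ := by
    refine Cells.WS_le_add hc (fun i _ hi => ?_) (fun _ _ _ => sq_nonneg _)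
      fun _ _ _ => sq_nonneg _
    have hk : ((c.ball Y γ.cen γ.r ∩ i.2).card : ℝ) ^ 2 ≤ ((Y ∩ i.2).card : ℝ) ^ 2 := by
      have : (c.ball Y γ.cen γ.r ∩ i.2).card ≤ (Y ∩ i.2).card :=
        card_le_card (inter_subset_inter_right Cells.ball_subset)
      exact pow_le_pow_left₀ (Nat.cast_nonneg _) (by exact_mod_cast this) 2
    by_cases hs : c.small hv Y σ i
    · exact Or.inl ⟨⟨hs, hi⟩, hk⟩
    · exact Or.inr ⟨⟨hs, hi.2.trans_le hl6⟩, hk⟩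
  have hB : c.WS (fun i => c.small hv Y σ i ∧ γ.r / 128 ≤ c.ρ i ∧ c.ρ i < γ.r / 64)
      (fun i => ((Y ∩ i.2).card : ℝ) ^ 2) =
      c.WS (fun i => c.small hv Y σ i ∧ γ.r / 128 ≤ c.ρ i ∧ c.ρ i < γ.r / 64)
        (fun i => ((Y ∩ i.2).card : ℝ) * (((Y ∩ i.2).card : ℝ) - 1)) +
      c.WS (fun i => c.small hv Y σ i ∧ γ.r / 128 ≤ c.ρ i ∧ c.ρ i < γ.r / 64)
        (fun i => ((Y ∩ i.2).card : ℝ)) := by
    rw [← Cells.WS_add]
    exact Cells.WS_congr (fun _ _ => Iff.rfl) fun i _ _ => by ring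
  have hC : c.WS (fun i => c.small hv Y σ i ∧ γ.r / 128 ≤ c.ρ i ∧ c.ρ i < γ.r / 64)
      (fun i => ((Y ∩ i.2).card : ℝ) * (((Y ∩ i.2).card : ℝ) - 1)) ≤
      ∑ x ∈ Y, ∑ y ∈ Y.erase x, c.osm hv Y σ x y := by
    rw [← Cells.sum2_W]
    refine sum_le_sum fun x _ => sum_le_sum fun y _ => ?_
    exact Cells.W_mono hc fun i _ hi => ⟨hi.1.1, hi.2⟩
  have hD : c.WS (fun i => c.small hv Y σ i ∧ γ.r / 128 ≤ c.ρ i ∧ c.ρ i < γ.r / 64)
      (fun i => ((Y ∩ i.2).card : ℝ)) ≤ 2 * c.xi * Y.card := by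
    rw [← Cells.sum_W]
    have h1 : ∀ y ∈ Y, c.W (fun i => (c.small hv Y σ i ∧ γ.r / 128 ≤ c.ρ i ∧ c.ρ i < γ.r / 64) ∧
        y ∈ i.2) ≤ 2 * c.xi := by
      intro y _
      have h2 := hc.c2 y (γ.r / 128) (γ.r / 64) (by positivity)
        (div_le_div_of_nonneg_left hr.le (by norm_num) (by norm_num))
      have h3 : γ.r / 64 / (γ.r / 128) = 2 := by field_simp; norm_num
      rw [h3] at h2
      have h4 : Real.log 2 ≤ 1 := by
        have := Real.log_le_sub_one_of_pos (show (0 : ℝ) < 2 by norm_num); linarith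
      have h5 := hc.eta_hi
      refine le_trans (Cells.W_mono hc fun i _ hi => ⟨hi.2, hi.1.2⟩) (h2.trans ?_)
      linarith
    refine (sum_le_sum h1).trans ?_
    rw [sum_const, nsmul_eq_mul]
    linarith
  have hE : c.g * ((Y.card : ℝ) ^ 2 / 2) ≤ c.g * ((c.ball Y γ.cen γ.r).card : ℝ) ^ 2 :=
    mul_le_mul_of_nonneg_left hb2 h0.le
  rw [mul_div_assoc]
  linarith

end Pool.Agent.MP_6c3157_co.PD
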