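import Pool.Agent.MP_6c3157_co.PD.Basic

/-! Project PD, row ARCH: cells at a complex place. -/

set_option autoImplicit false

noncomputable section

namespace Pool.Agent.MP_6c3157_co.PD

open Finset

theorem arch_bounds {X : Type} [Fintype X] (d : X → X → ℝ) (hd : ∀ x y, x ≠ y → 0 < d x y) :
    ∃ lo hi : ℝ, 0 < lo ∧ lo ≤ hi ∧ (∀ x y, x ≠ y → lo ≤ d x y) ∧ ∀ x y, d x y ≤ hi := by
  classical
  obtain ⟨hi, hhi⟩ := Finite.bddAbove_range fun p : X × X => d p.1 p.2
  have hlo : ∃ lo : ℝ, 0 < lo ∧ ∀ x y, x ≠ y → lo ≤ d x y := by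
    by_cases hne : (univ.filter fun p : X × X => p.1 ≠ p.2).Nonempty
    · obtain ⟨p, hp, hm⟩ := exists_min_image _ (fun p : X × X => d p.1 p.2) hne
      exact ⟨d p.1 p.2, hd _ _ (mem_filter.1 hp).2,
        fun x y h => hm (x, y) (mem_filter.2 ⟨mem_univ _, h⟩)⟩
    · exact ⟨1, one_pos, fun x y h => absurd ⟨(x, y), mem_filter.2 ⟨mem_univ _, h⟩⟩ hne⟩
  obtain ⟨lo, h1, h2⟩ := hlo
  exact ⟨lo, max lo hi, h1, le_max_left _ _, h2,
    fun x y => (hhi ⟨(x, y), rfl⟩).trans (le_max_right _ _)⟩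

theorem archc (hL : LEV) (h23 : AC23) (h4 : AC4) (h5 : AC5) (h6 : AC6) : ARCH := by
  classical
  intro X _ _ e η he hη hη'
  obtain ⟨lo, hi, l1, l2, l3, l4⟩ := arch_bounds (fun x y => ‖e x - e y‖)
    fun x y h => norm_pos_iff.2 (sub_ne_zero.2 fun k => h (he k))
  have hlog : 0 ≤ Real.log (hi / lo) := Real.log_nonneg ((one_le_div l1).2 l2)
  have hhi : 0 < hi := l1.trans_le l2
  have hs : 0 < η / 2 := by positivity
  set R := hi * (Real.log (hi / lo) + 1) / (η / 2) with hR
  have hRp : 0 < R := by positivity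
  obtain ⟨J, hJ⟩ := (hL R (η / 2) 0 hRp hs).2.2.2.2 (lo / 256) (by positivity)
  have hA : AP0 e R (η / 2) J lo hi :=
    ⟨hs, by linarith, l1, l2, l3, l4, by rw [hR, mul_div_cancel₀ _ hs.ne'], hJ⟩
  have e256 : 256 * (lo / 256) = lo := by ring
  refine ⟨arch e R (η / 2) J lo hi, ?_, rfl, rfl, ?_, rfl, rfl⟩
  · refine
      { d_self := fun x => by simp [arch]
        d_symm := fun x y => norm_sub_rev _ _
        d_tri := fun x y z => ?_
        rlo_pos := by show 0 < lo / 256; positivity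
        d_lo := fun x y h => by
          show 256 * (lo / 256) ≤ ‖e x - e y‖
          rw [e256]; exact l3 x y h
        d_hi := l4
        lam_lo := by show (1 : ℝ) ≤ 2; norm_num
        lam_hi := le_rfl
        eta_lo := by show 0 ≤ 2 * (η / 2); positivity
        eta_hi := by show 2 * (η / 2) ≤ 8; linarith
        log_lam := by
          show Real.log 2 ≤ 8
          linarith [Real.log_two_lt_d9]
        g_lo := by show (0 : ℝ) ≤ 1 / 40000; norm_num
        g_xi := fun _ => by show (1 : ℝ) ≤ 8; norm_num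
        w_lo := fun i _ => ?_
        rho_pos := fun i _ => by show 0 < lvl R (η / 2) i.1; unfold lvl; positivity
        c1 := fun i hi x hx y hy => ?_
        c2 := (h23 X e R _ J lo hi hA).1
        c3 := (h23 X e R _ J lo hi hA).2
        c4 := h4 X e R _ J lo hi hA
        c5 := h5 X e R _ J lo hi hA
        c6 := fun x r Y a b d => h6 X e R _ J lo hi hA x r Y (by rw [← e256]; exact a) b d }
    · show ‖e x - e z‖ ≤ 2 * max ‖e x - e y‖ ‖e y - e z‖
      linarith [norm_sub_le_norm_sub_add_norm_sub (e x) (e y) (e z),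
        le_max_left ‖e x - e y‖ ‖e y - e z‖, le_max_right ‖e x - e y‖ ‖e y - e z‖]
    · show 0 ≤ η / 2 * va e (lvl R (η / 2) i.1) i.2 / (Real.pi * lvl R (η / 2) i.1 ^ 2)
      have : 0 ≤ va e (lvl R (η / 2) i.1) i.2 := ENNReal.toReal_nonneg
      positivity
    · obtain ⟨q, hq⟩ := (mem_filter.1 hi).2
      rw [← hq] at hx hy
      have a := (mem_filter.1 hx).2
      have b := (mem_filter.1 hy).2
      show ‖e x - e y‖ ≤ 2 * lvl R (η / 2) i.1
      rw [norm_sub_rev] at a
      linarith [norm_sub_le_norm_sub_add_norm_sub (e x) q (e y)]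
  · show 2 * (η / 2) = η
    ring

end Pool.Agent.MP_6c3157_co.PD
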