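import Pool.Agent.MP_6c3157_co.PD.Basic

/-! Project PD: weights of the cells at a complex place as areas. -/

set_option autoImplicit false

namespace Pool.Agent.MP_6c3157_co.PD

open Finset

open Classical in
theorem aw (h : PUSH) : AW := by
  intro X _ _ e R s J lo hi Φ hΦ
  refine ⟨fun j => (h X e (lvl R s j) (fun S => Φ (j, S)) (hΦ j)).1, ?_⟩
  have e1 : (arch e R s J lo hi).W Φ = ∑ i ∈ range (J + 1) ×ˢ (univ : Finset (Finset X)),
      if Φ i then s * va e (lvl R s i.1) i.2 / (Real.pi * lvl R s i.1 ^ 2) else 0 := by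
    unfold Cells.W
    refine sum_subset_zero_on_sdiff (filter_subset _ _) (fun i hi => ?_) fun _ _ => rfl
    have h0 : {q : ℂ | tr e (lvl R s i.1) q = i.2} = ∅ :=
      Set.eq_empty_of_forall_notMem fun q hq =>
        (mem_sdiff.1 hi).2 (mem_filter.2 ⟨(mem_sdiff.1 hi).1, q, hq⟩)
    simp [va, h0]
  rw [e1, sum_product]
  refine sum_congr rfl fun j _ => ?_
  rw [← (h X e (lvl R s j) (fun S => Φ (j, S)) (hΦ j)).2, mul_sum, sum_div]
  refine sum_congr rfl fun S _ => ?_
  split_ifs <;> simp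

end Pool.Agent.MP_6c3157_co.PD
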