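import Pool.Agent.MP_6c3157_co.PD.Basic

/-! Project PD, row BAND: the band of comparable heights. -/

set_option autoImplicit false

noncomputable section

namespace Pool.Agent.MP_6c3157_co.PD

open Finset

theorem band_hv {X : Type} [DecidableEq X] (c : Cells X) (Q : Finset X) : HV c (heavy Q) := by
  refine ⟨fun i _ j _ hi hj => ?_, fun i _ j _ hi hj => ?_⟩
  · by_contra hn
    have h1 : Disjoint (Q ∩ i.2) (Q ∩ j.2) := disjoint_left.2 fun z h2 h3 =>
      hn ⟨z, (mem_inter.1 h2).2, (mem_inter.1 h3).2⟩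
    have h2 := card_le_card (union_subset (inter_subset_left (s₁ := Q) (s₂ := i.2))
      (inter_subset_left (s₁ := Q) (s₂ := j.2)))
    rw [card_union_of_disjoint h1] at h2
    unfold heavy at hi hj
    omega
  · by_contra hn
    have h1 : Q ∩ i.2 ⊆ Q ∩ j.2 := fun z hz => mem_inter.2 ⟨(mem_inter.1 hz).1,
      by_contra fun h => hn ⟨z, (mem_inter.1 hz).2, h⟩⟩
    have h2 := card_le_card h1
    unfold heavy at hi hj
    omega

theorem band_card {X : Type} [DecidableEq X] {Y Q : Finset X} (h : Y ⊆ Q) (S : Finset X) :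
    (Q ∩ S).card + Y.card ≤ (Y ∩ S).card + Q.card := by
  have h1 : Q ∩ S ⊆ (Y ∩ S) ∪ (Q \ Y) := fun z hz => by
    by_cases k : z ∈ Y
    · exact mem_union_left _ (mem_inter.2 ⟨k, (mem_inter.1 hz).2⟩)
    · exact mem_union_right _ (mem_sdiff.2 ⟨(mem_inter.1 hz).1, k⟩)
  have h2 := (card_le_card h1).trans (card_union_le _ _)
  have h3 := card_sdiff_add_card_eq_card h
  omega

theorem band (h1 : HID) (h2 : FOURP) (h3 : CUT) (h4 : PIG) : BAND := by
  intro X PL _ _ s Q hs hn hZ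
  obtain ⟨C0, hC⟩ := h1 X PL s (heavy Q) hs
  obtain ⟨A, B, Y, hA, hB, hY, cA, cB, cY, lo, hi⟩ :=
    h3 X Q (fun x => s.H (heavy Q) x - C0) (Q.card / 8) (by omega) (by omega)
  obtain ⟨a, ha, ht⟩ := exists_max_image A (fun x => s.H (heavy Q) x - C0)
    (card_pos.1 (by omega))
  have he : ep ≤ 1 := by unfold ep; norm_num
  have up : ∀ x y, x ≠ y → s.O (heavy Q) x y ≤
      s.H (heavy Q) x - C0 + (s.H (heavy Q) y - C0) + 1 := fun x y h => by
    have := (abs_le.1 (hC x y h)).2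
    linarith
  have dn : ∀ x y, x ≠ y → s.H (heavy Q) x - C0 + (s.H (heavy Q) y - C0) - 1 ≤
      s.O (heavy Q) x y := fun x y h => by
    have := (abs_le.1 (hC x y h)).1
    linarith
  have hv := fun p => band_hv (s.c p) Q
  obtain ⟨t, e⟩ : ∃ t, s.H (heavy Q) a - C0 = t := ⟨_, rfl⟩
  simp only [e] at ht
  have k1 : -1 / 2 ≤ t ∧ C0 ≤ 9 * t + 185 := by
    obtain ⟨x, hx, y₁, m1, y₂, m2, y₃, m3, n1, n2, n3, n12, n13, n23, l2, l3⟩ :=
      h4 X s.lab Q A A hA hA hn cA cA hZ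
    have f := (h2 X PL s (heavy Q) hs hv x y₁ y₂ y₃ n1 n2 n3 n12 n13 n23 l2 l3).1
    have := up _ _ n23
    have := up _ _ n13
    have := up _ _ n12
    have := up _ _ n3.symm
    have := hs.O_nonneg (hv := heavy Q) y₁ y₃
    have := ht _ hx
    have := ht _ m1
    have := ht _ m2
    have := ht _ m3
    constructor <;> linarith
  obtain ⟨b, hb, k2⟩ : ∃ b ∈ B, s.H (heavy Q) b - C0 ≤ 15 * t + 469 := by
    obtain ⟨x, hx, y₁, m1, y₂, m2, y₃, m3, n1, n2, n3, n12, n13, n23, l2, l3⟩ :=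
      h4 X s.lab Q A B hA hB hn cA cB hZ
    have f := (h2 X PL s (heavy Q) hs hv x y₁ y₂ y₃ n1 n2 n3 n12 n13 n23 l2 l3).2
    have := up _ _ n23
    have := up _ _ n13
    have := up _ _ n12
    have := dn _ _ n3.symm
    have := ht _ m1
    have := ht _ m2
    have := ht _ m3
    exact ⟨x, hx, by linarith [k1.2]⟩
  have k3 : ∀ y ∈ Y, t ≤ s.H (heavy Q) y - C0 ∧ s.H (heavy Q) y - C0 ≤ 15 * t + 469 :=
    fun y hy => ⟨e ▸ lo a ha y hy, (hi y hy b hb).trans k2⟩
  obtain ⟨k4, k5⟩ := k1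
  refine ⟨Y, hY, by omega, fun x => s.H (heavy Q) x - C0, 34 * t + 1340, hs, fun i h => ?_,
    fun i h => ?_, fun x _ y _ h => hC x y h, fun x hx => ?_, fun x hx => ?_,
    fun x hx y hy h => ?_, by linarith, fun x hx y hy h => ?_⟩
  · have := band_card hY i.2
    unfold heavy at h
    omega
  · have := card_le_card (inter_subset_inter_right (u := i.2) hY)
    unfold heavy at h
    omega
  · linarith [(k3 x hx).1]
  · linarith [(k3 x hx).2]
  · linarith [(k3 x hx).2, (k3 y hy).2, up x y h]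
  · linarith [(k3 x hx).1, (k3 y hy).1, dn x y h]

end Pool.Agent.MP_6c3157_co.PD
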