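import Pool.Agent.MP_6c3157_co.PD.Basic

/-! Project PD: the core step. -/

set_option autoImplicit false

noncomputable section

namespace Pool.Agent.MP_6c3157_co.PD

open Finset

theorem core (hG : GEO) (hA : SA) (hS : SEL) (h1 : SB1) (h2 : SB2) : CORE := by
  intro X PL _ _ s hv Y h T σ hx hσ hn hZ
  have he := ep_pos
  have hn0 : (0 : ℝ) ≤ Y.card := Nat.cast_nonneg _
  have h3 : (10 : ℝ) ^ 28 ≤ σ * Y.card := by
    unfold ep at hn
    linarith
  have hσ0 : 0 < σ := by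
    by_contra h4
    have := mul_nonpos_of_nonpos_of_nonneg (not_lt.1 h4) hn0
    linarith
  have h4 : (10 : ℝ) ^ 28 ≤ Y.card := h3.trans (mul_le_of_le_one_left hn0 hσ)
  have h5 : 10 ^ 28 ≤ Y.card := by exact_mod_cast h4
  choose γ hγ using fun p => hG X (s.c p) Y (hx.good.good p) (by omega)
  have hT := hx.Tlo
  have h6 : ep * T * (Y.card : ℝ) ^ 2 < s.Th hv Y σ := not_le.1 fun h6 =>
    h2 X PL s hv Y h T σ γ hx hγ (by omega) h6 (h1 X PL s hv Y h T σ γ hx hγ hσ hn hZ h6)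
  refine hS X PL s hv Y σ _ hx.good (lt_of_le_of_lt (by positivity) h6)
    ((hA X PL s hv Y h T σ γ hx hγ hσ0.le).trans ?_)
  have h7 : 38 * T / tau * Zs s.lab Y ≤ 38 * T / tau * (ep * σ * (Y.card : ℝ) ^ 2) :=
    mul_le_mul_of_nonneg_left hZ (by have := tau_pos; positivity)
  have h8 : 11 * σ / ep * (ep * T * (Y.card : ℝ) ^ 2) ≤ 11 * σ / ep * s.Th hv Y σ :=
    mul_le_mul_of_nonneg_left h6.le (by positivity)
  have h9 : 0 ≤ σ * (Y.card : ℝ) ^ 2 * T := by positivity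
  have e1 : 11 * σ / ep * (ep * T * (Y.card : ℝ) ^ 2) = 11 * (σ * (Y.card : ℝ) ^ 2 * T) := by
    field_simp
  have e2 : 38 * T / tau * (ep * σ * (Y.card : ℝ) ^ 2) =
      38 / 10 ^ 25 * (σ * (Y.card : ℝ) ^ 2 * T) := by
    unfold tau ep; ring
  linarith

end Pool.Agent.MP_6c3157_co.PD
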