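import Pool.Agent.MP_6c3157_co.PD.Basic

/-! Project PD: the lowest part, the highest part and the band between them. -/

set_option autoImplicit false

namespace Pool.Agent.MP_6c3157_co.PD

open Finset

theorem Cut.low {X : Type} [DecidableEq X] (Q : Finset X) (h : X → ℝ) (k : ℕ) :
    k ≤ Q.card → ∃ A : Finset X, A ⊆ Q ∧ A.card = k ∧ ∀ a ∈ A, ∀ y ∈ Q \ A, h a ≤ h y := by
  induction k with
  | zero => exact fun _ => ⟨∅, empty_subset _, rfl, fun a ha => absurd ha (notMem_empty a)⟩
  | succ k ih =>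
    intro hk
    obtain ⟨A, h1, h2, h3⟩ := ih (by omega)
    have hne : (Q \ A).Nonempty := by
      rw [← card_pos, card_sdiff_of_subset h1]; omega
    obtain ⟨z, hz, hm⟩ := exists_min_image (Q \ A) h hne
    refine ⟨insert z A, insert_subset (mem_sdiff.1 hz).1 h1,
      by rw [card_insert_of_notMem (mem_sdiff.1 hz).2, h2], fun a ha y hy => ?_⟩
    have hy' : y ∈ Q \ A :=
      mem_sdiff.2 ⟨(mem_sdiff.1 hy).1, fun e => (mem_sdiff.1 hy).2 (mem_insert_of_mem e)⟩
    rcases mem_insert.1 ha with rfl | ha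
    exacts [hm y hy', h3 a ha y hy']

theorem cut : CUT := by
  intro X _ Q h k hk _
  obtain ⟨A, a1, a2, a3⟩ := Cut.low Q h k (by omega)
  have c1 : (Q \ A).card = Q.card - k := by rw [card_sdiff_of_subset a1, a2]
  obtain ⟨B, b1, b2, b3⟩ := Cut.low (Q \ A) (fun x => -h x) k (by omega)
  have c2 : ((Q \ A) \ B).card = (Q \ A).card - k := by rw [card_sdiff_of_subset b1, b2]
  exact ⟨A, B, (Q \ A) \ B, a1, b1.trans sdiff_subset, sdiff_subset.trans sdiff_subset, a2, b2,
    by omega, fun a ha y hy => a3 a ha y (sdiff_subset hy),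
    fun y hy b hb => neg_le_neg_iff.1 (b3 b hb y hy)⟩

end Pool.Agent.MP_6c3157_co.PD
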