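import Pool.Agent.MP_6c3157_co.PD.Basic

/-! Project PD: the discrepancy as a quadratic form. -/

set_option autoImplicit false

namespace Pool.Agent.MP_6c3157_co.PD

open Finset

theorem dq_aux {X : Type} [DecidableEq X] {Y C : Finset X} (h : C ⊆ Y) (S : Finset X) :
    ∑ y ∈ Y, (if y ∈ S then (if y ∈ C then 1 / (C.card : ℝ) else 0) - 1 / Y.card else 0) =
      ((C ∩ S).card : ℝ) / C.card - ((Y ∩ S).card : ℝ) / Y.card := by
  rw [sum_ite_mem, sum_sub_distrib, sum_ite_mem, sum_const, sum_const, nsmul_eq_mul, nsmul_eq_mul,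
    inter_right_comm, inter_eq_right.2 h, mul_one_div, mul_one_div]

theorem dq : DQ := by
  classical
  intro X _ c hv Y C σ hCY hC
  have hc : (C.card : ℝ) ≠ 0 := by exact_mod_cast hC.card_pos.ne'
  have hy : (Y.card : ℝ) ≠ 0 := by exact_mod_cast (hC.mono hCY).card_pos.ne'
  have h1 := dq_aux hCY
  have h0 := h1 Y
  rw [inter_eq_left.2 hCY, inter_self, div_self hc, div_self hy, sub_self,
    sum_congr rfl fun y hy => if_pos hy] at h0
  generalize hg : (fun y => (if y ∈ C then 1 / (C.card : ℝ) else 0) - 1 / Y.card) = a at h0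
  have ha : ∀ y, (if y ∈ C then 1 / (C.card : ℝ) else 0) - 1 / Y.card = a y :=
    fun y => congrFun hg y
  simp only [ha] at h1 ⊢
  have h2 : ∀ i : ℕ × Finset X,
      (((C ∩ i.2).card : ℝ) / C.card - ((Y ∩ i.2).card : ℝ) / Y.card) ^ 2 =
        ∑ y ∈ Y, ∑ z ∈ Y, a y * a z * if inC hv i y ∧ inC hv i z then 1 else 0 := by
    intro i
    have h3 : (∑ y ∈ Y, if y ∈ i.2 then a y else 0) ^ 2 =
        (∑ y ∈ Y, if inC hv i y then a y else 0) ^ 2 := by
      by_cases q : hv i
      · have h4 : (∑ y ∈ Y, if inC hv i y then a y else 0) =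
            Y.sum a - ∑ y ∈ Y, if y ∈ i.2 then a y else 0 := by
          rw [← sum_sub_distrib]
          refine sum_congr rfl fun y _ => ?_
          by_cases r : y ∈ i.2 <;> simp [inC, q, r]
        rw [h4, h0, zero_sub, neg_sq]
      · simp [inC, q]
    rw [← h1, h3, sq, sum_mul_sum]
    refine sum_congr rfl fun y _ => sum_congr rfl fun z _ => ?_
    by_cases r : inC hv i y <;> by_cases t : inC hv i z <;> simp [r, t]
  unfold Cells.disc Cells.olg
  simp only [h2]
  rw [Cells.WS_sum]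
  refine sum_congr rfl fun y _ => ?_
  rw [Cells.WS_sum]
  refine sum_congr rfl fun z _ => ?_
  rw [Cells.WS_mul, ← Cells.WS_ite fun i => inC hv i y ∧ inC hv i z]
  congr
  funext i
  congr

end Pool.Agent.MP_6c3157_co.PD
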