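import Pool.Agent.MP_6c3157_co.PD.Basic

/-! Project PD: a fibre is covered by two balls. -/

set_option autoImplicit false

noncomputable section

namespace Pool.Agent.MP_6c3157_co.PD

open Finset

theorem er_one {X : Type} [DecidableEq X] {c : Cells X} (hc : c.Good)
    (hv : ℕ × Finset X → Prop) {Y C : Finset X} (σ : ℝ) {q s L : ℝ} {x : X}
    (hC : (0 : ℝ) < C.card) (hY : (0 : ℝ) < Y.card) (hx : ∀ z ∈ C, x ≠ z) (hs : 0 < s)
    (hs' : s ≤ c.rhi) (hL : 0 ≤ L) (hq : 0 ≤ q)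
    (h4 : (q + tau / 4) * C.card ≤ (c.ball C x (s / c.lam * Real.exp (-(L / 2)) / c.lam)).card)
    (h5 : ∀ t < s, ((c.ball Y x t).card : ℝ) < q * Y.card) :
    L ≤ 2 * c.eta + 128 / tau ^ 2 * c.disc hv Y σ C +
      32 / tau * ((∑ z ∈ C, c.osm hv Y σ x z) / C.card) := by
  have ht := tau_pos
  have hl := hc.lam_pos
  set a := s / c.lam * Real.exp (-(L / 2)) with ha
  have ha0 : 0 < a := by positivity
  have h1 : c.rlo ≤ a := by
    have : (0 : ℝ) < (c.ball C x (a / c.lam)).card := lt_of_lt_of_le (by positivity) h4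
    obtain ⟨z, hz⟩ := card_pos.1 (Nat.cast_pos.1 this)
    obtain ⟨h6, h7⟩ := Cells.mem_ball.1 hz
    have := hc.d_lo x z (hx z h6)
    have := div_le_self ha0.le hc.lam_lo
    have := hc.rlo_pos
    linarith
  have h2 : a ≤ s / c.lam :=
    mul_le_of_le_one_right (by positivity) (Real.exp_le_one_iff.2 (by linarith))
  have h3 := hc.c3 x a (s / c.lam) h1 h2 ((div_le_self hs.le hc.lam_lo).trans hs')
  have e : Real.log (s / c.lam / a) = L / 2 := by
    rw [ha, div_mul_cancel_left₀ (by positivity), ← Real.exp_neg, neg_neg, Real.log_exp]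
  rw [e, Cells.W_eq_WS] at h3
  have h6 := h3.trans (Cells.WS_le_add (ψ := fun i => ¬ c.small hv Y σ i)
    (χ := fun i => c.small hv Y σ i ∧ x ∈ i.2) (f' := fun i => 16 / tau ^ 2 *
      (((C ∩ i.2).card : ℝ) / C.card - ((Y ∩ i.2).card : ℝ) / Y.card) ^ 2)
    (f'' := fun i => 4 / tau / C.card * ((C ∩ i.2).card : ℝ)) hc (fun i hi hj => ?_)
    (fun _ _ _ => by positivity) fun _ _ _ => by positivity)
  · rw [Cells.WS_mul, Cells.WS_mul, ← Cells.sum_W] at h6
    have e2 : ∑ z ∈ C, c.osm hv Y σ x z =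
        ∑ y ∈ C, c.W fun i => (c.small hv Y σ i ∧ x ∈ i.2) ∧ y ∈ i.2 :=
      sum_congr rfl fun _ _ => Cells.W_congr fun _ _ => and_assoc.symm
    rw [e2, Cells.disc]
    generalize (∑ y ∈ C, c.W fun i => (c.small hv Y σ i ∧ x ∈ i.2) ∧ y ∈ i.2) = A at h6 ⊢
    have e3 : 32 / tau * (A / C.card) = 8 * (4 / tau / C.card * A) := by ring
    have e4 : 128 / tau ^ 2 = 8 * (16 / tau ^ 2) := by ring
    rw [e3, e4, mul_assoc]
    linarith
  obtain ⟨j1, j2, j3, j4⟩ := hj
  have k1 : q + tau / 4 ≤ ((C ∩ i.2).card : ℝ) / C.card := by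
    rw [le_div_iff₀ hC]
    refine h4.trans (Nat.cast_le.2 (card_le_card fun z hz => ?_))
    obtain ⟨h6, h7⟩ := Cells.mem_ball.1 hz
    exact mem_inter.2 ⟨h6, j4 z (h7.trans (by gcongr))⟩
  by_cases hsm : c.small hv Y σ i
  · refine Or.inr ⟨⟨hsm, j1⟩, ?_⟩
    rw [div_mul_eq_mul_div, mul_div_assoc, div_mul_eq_mul_div, le_div_iff₀ ht]
    linarith
  · refine Or.inl ⟨hsm, ?_⟩
    have k2 : ((Y ∩ i.2).card : ℝ) / Y.card < q := by
      rw [div_lt_iff₀ hY]
      exact lt_of_le_of_lt (Nat.cast_le.2 (card_le_card (Cells.inter_subset_ball hc hi j1)))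
        (h5 _ ((lt_div_iff₀' hl).1 j3))
    rw [div_mul_eq_mul_div, le_div_iff₀ (by positivity)]
    nlinarith

theorem er : ER := by
  intro X _ c c' hv Y C γ γ' σ p p' hl x hx y hy hC hd
  have ht := tau_pos
  have hc := p.good
  have hc' := p'.good
  have hC0 : (0 : ℝ) < C.card := Nat.cast_pos.2 (card_pos.2 ⟨y, hy⟩)
  have hxz : ∀ z ∈ C, x ≠ z := fun z hz => (mem_erase.1 (hC hz)).1.symm
  have n1 := hc.eta_lo
  have n2 := hc'.eta_lo
  have n3 : 0 ≤ 128 / tau ^ 2 * c.disc hv Y σ C :=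
    mul_nonneg (by positivity) (Cells.disc_nonneg hc C)
  have n4 : 0 ≤ 128 / tau ^ 2 * c'.disc hv Y σ C :=
    mul_nonneg (by positivity) (Cells.disc_nonneg hc' C)
  have n5 : 0 ≤ 32 / tau * ((∑ z ∈ C, c.osm hv Y σ x z) / C.card) :=
    mul_nonneg (by positivity) (div_nonneg (sum_nonneg fun z _ => Cells.osm_nonneg hc x z) hC0.le)
  have n6 : 0 ≤ 32 / tau * ((∑ z ∈ C, c'.osm hv Y σ x z) / C.card) :=
    mul_nonneg (by positivity) (div_nonneg (sum_nonneg fun z _ => Cells.osm_nonneg hc' x z) hC0.le)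
  rw [sum_add_distrib, add_div, mul_add, mul_add, mul_add]
  refine max_le (by linarith) ?_
  set L := Real.log (γ.r * γ'.rs x / (c.lam ^ 4 * (c.d x y * c'.d x y))) with hL
  rcases le_total L 0 with h0 | h0
  · linarith
  have r1 := p.geo.r_pos hc
  have r2 := p'.geo.s_pos hc' hx
  have l1 := hc.lam_pos
  have d1 := hc.d_pos (hxz y hy)
  have d2 := hc'.d_pos (hxz y hy)
  set a := γ.r / c.lam * Real.exp (-(L / 2)) / c.lam with ha
  set a' := γ'.rs x / c'.lam * Real.exp (-(L / 2)) / c'.lam with ha'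
  have e : a * a' = c.d x y * c'.d x y := by
    have h1 : Real.exp (-(L / 2)) * Real.exp (-(L / 2)) =
        (γ.r * γ'.rs x / (c.lam ^ 4 * (c.d x y * c'.d x y)))⁻¹ := by
      rw [← Real.exp_add, ← neg_add, add_halves, Real.exp_neg, hL, Real.exp_log (by positivity)]
    have h2 : a * a' = γ.r * γ'.rs x / c.lam ^ 4 *
        (Real.exp (-(L / 2)) * Real.exp (-(L / 2))) := by rw [ha, ha', hl]; ring
    rw [h2, h1]
    field_simp
  have a0 : 0 ≤ a := by positivity
  have a1 : 0 ≤ a' := by rw [ha', hl]; positivity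
  have cov : (C.card : ℝ) ≤ (c.ball C x a).card + (c'.ball C x a').card := by
    rw [← Nat.cast_add, Nat.cast_le]
    refine le_trans (card_le_card fun z hz => ?_) (card_union_le _ _)
    rw [mem_union, Cells.mem_ball, Cells.mem_ball]
    by_contra hn
    simp only [hz, true_and, not_or, not_le] at hn
    exact (mul_lt_mul'' hn.1 hn.2 a0 a1).ne (e.trans (hd z hz).symm)
  by_cases h1 : (1 - tau + tau / 4) * C.card ≤ (c.ball C x a).card
  · have := er_one hc hv σ hC0 p.geo.card_pos hxz r1 p.geo.r_hi h0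
      (by unfold tau; norm_num) h1 (p.geo.r_min x hx)
    linarith
  · have := er_one hc' hv σ hC0 p.geo.card_pos hxz r2 (p'.geo.s_hi x hx) h0 (q := tau / 2)
      (by positivity) (by rw [← ha']; linarith) (p'.geo.s_min x hx)
    linarith

end Pool.Agent.MP_6c3157_co.PD
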