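import Pool.Agent.MP_6c3157_co.PD.Basic

/-! Project PD, row ERS: the total error. -/

set_option autoImplicit false

namespace Pool.Agent.MP_6c3157_co.PD

open Finset

theorem ers_pair (hE : ER) {X PL : Type} [DecidableEq X] [Fintype PL] {s : Sys X PL}
    {hv : ℕ × Finset X → Prop} {Y : Finset X} {h : X → ℝ} {T : ℝ} (σ : ℝ) {γ : PL → Geo X}
    (hx : Ctx s hv Y h T) (hγ : ∀ p, (γ p).Good (s.c p) Y) {x y : X} (h1 : x ∈ Y)
    (h2 : y ∈ Y.erase x) :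
    ∑ p, s.m p * err (s.c p) (s.c (s.bar p)) (γ p) (γ (s.bar p)) x y ≤
      4 * ep + 256 / tau ^ 2 * s.Disc hv Y σ (fib s.lab Y x y) +
      64 / tau * ((∑ z ∈ fib s.lab Y x y, s.Osm hv Y σ x z) / (fib s.lab Y x y).card) := by
  have hs := hx.good
  generalize hC : fib s.lab Y x y = C
  have hm : ∀ z ∈ C, z ∈ Y.erase x ∧ s.lab x z = s.lab x y := fun z hz => mem_fib.1 (hC ▸ hz)
  have hy : y ∈ C := hC ▸ mem_fib.2 ⟨h2, rfl⟩
  obtain ⟨a, ha⟩ : ∃ a : PL → ℝ, ∀ p, a p = 2 * (s.c p).eta +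
      128 / tau ^ 2 * (s.c p).disc hv Y σ C +
      32 / tau * ((∑ z ∈ C, (s.c p).osm hv Y σ x z) / C.card) := ⟨_, fun _ => rfl⟩
  have k1 : ∑ p, s.m p * err (s.c p) (s.c (s.bar p)) (γ p) (γ (s.bar p)) x y ≤
      ∑ p, s.m p * (a p + a (s.bar p)) := hs.sum_le fun p => by
    refine (hE X _ _ hv Y C _ _ σ (hx.pc hγ p) (hx.pc hγ (s.bar p)) (hs.lam_bar p) x h1 y hy
      (fun z hz => (hm z hz).1) fun z hz => hs.f1 p x z y (ne_of_mem_erase (hm z hz).1)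
        (ne_of_mem_erase h2) (hm z hz).2).trans (le_of_eq ?_)
    rw [ha, ha, sum_add_distrib]
    ring
  have k2 : ∑ p, s.m p * a p = 2 * (∑ p, s.m p * (s.c p).eta) +
      128 / tau ^ 2 * s.Disc hv Y σ C + 32 / tau * ((∑ z ∈ C, s.Osm hv Y σ x z) / C.card) := by
    unfold Sys.Disc Sys.Osm
    rw [sum_comm, sum_div, mul_sum, mul_sum, mul_sum, ← sum_add_distrib, ← sum_add_distrib]
    refine sum_congr rfl fun p _ => ?_
    rw [ha, ← mul_sum]
    ring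
  simp only [mul_add, sum_add_distrib] at k1
  rw [hs.sum_bar a, k2] at k1
  have := hs.eta_sum
  have e1 : 256 / tau ^ 2 = 2 * (128 / tau ^ 2) := by ring
  have e2 : 64 / tau = 2 * (32 / tau) := by ring
  rw [e1, e2, mul_assoc, mul_assoc]
  linarith

theorem ers (hE : ER) (hF : FIB) : ERS := by
  intro X PL _ _ s hv Y h T σ γ hx hγ
  have k1 : ∑ p, s.m p * (∑ x ∈ Y, ∑ y ∈ Y.erase x,
      err (s.c p) (s.c (s.bar p)) (γ p) (γ (s.bar p)) x y) = ∑ x ∈ Y, ∑ y ∈ Y.erase x,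
      ∑ p, s.m p * err (s.c p) (s.c (s.bar p)) (γ p) (γ (s.bar p)) x y := by
    simp only [mul_sum]
    rw [sum_comm]
    exact sum_congr rfl fun x _ => sum_comm
  have k2 : ∑ x ∈ Y, ∑ y ∈ Y.erase x, (∑ z ∈ fib s.lab Y x y, s.Osm hv Y σ x z) /
      (fib s.lab Y x y).card = s.Th hv Y σ :=
    sum_congr rfl fun x _ => (hF X s.lab Y x).2 _
  have k3 : ∑ x ∈ Y, ∑ _y ∈ Y.erase x, 4 * ep ≤ 4 * ep * (Y.card : ℝ) ^ 2 := by
    have e : (0 : ℝ) ≤ 4 * ep := by unfold ep; positivity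
    refine (sum_le_sum fun x _ =>
      sum_le_sum_of_subset_of_nonneg (erase_subset x Y) fun _ _ _ => e).trans (le_of_eq ?_)
    simp only [sum_const, nsmul_eq_mul]
    ring
  rw [k1, ← k2]
  refine (sum_le_sum fun x h1 => sum_le_sum fun y h2 => ers_pair hE σ hx hγ h1 h2).trans ?_
  simp only [sum_add_distrib, ← mul_sum] at k3 ⊢
  linarith

end Pool.Agent.MP_6c3157_co.PD
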