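import Pool.Agent.MP_6c3157_co.PD.Basic

/-! Project PD: sums over fibres. -/

set_option autoImplicit false
set_option linter.unusedSectionVars false

noncomputable section

namespace Pool.Agent.MP_6c3157_co.PD

open Finset

open Classical in
theorem fibs_aux {X : Type} [DecidableEq X] (lab : X → X → ℝ) (Y : Finset X) (x : X)
    (g : ℝ → ℝ) :
    ∑ y ∈ Y.erase x, g (lab x y) / ((fib lab Y x y).card : ℝ) =
      ∑ l ∈ (Y.erase x).image (lab x), g l := by
  rw [← sum_fiberwise_of_maps_to (g := lab x) (t := (Y.erase x).image (lab x))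
    fun y hy => mem_image_of_mem _ hy]
  refine sum_congr rfl fun l hl => ?_
  obtain ⟨y₀, h₀, rfl⟩ := mem_image.1 hl
  have e : ∀ y ∈ (Y.erase x).filter (fun y => lab x y = lab x y₀),
      g (lab x y) / ((fib lab Y x y).card : ℝ) =
        g (lab x y₀) / (((Y.erase x).filter fun y => lab x y = lab x y₀).card : ℝ) := by
    intro y hy
    have h1 := (mem_filter.1 hy).2
    rw [fib, h1]
  have h2 : (((Y.erase x).filter fun y => lab x y = lab x y₀).card : ℝ) ≠ 0 :=
    Nat.cast_ne_zero.2 (card_ne_zero.2 ⟨y₀, mem_filter.2 ⟨h₀, rfl⟩⟩)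
  rw [sum_congr rfl e, sum_const, nsmul_eq_mul, mul_div_cancel₀ _ h2]

open Classical in
theorem fibs : FIB := by
  intro X _ lab Y x
  refine ⟨by simpa using fibs_aux lab Y x fun _ => 1, fun f => ?_⟩
  have h := fibs_aux lab Y x fun l => ∑ z ∈ (Y.erase x).filter (fun z => lab x z = l), f z
  rw [sum_fiberwise_of_maps_to fun y hy => mem_image_of_mem _ hy] at h
  exact h

end Pool.Agent.MP_6c3157_co.PD
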