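import Pool.Agent.MP_6c3157_co.PD.Basic

/-! Project PD: three points in one fibre. -/

set_option autoImplicit false
set_option linter.unusedSectionVars false

noncomputable section

namespace Pool.Agent.MP_6c3157_co.PD

open Finset

theorem fourp_log {X : Type} [DecidableEq X] {c : Cells X} (hc : c.Good)
    (hv : ℕ × Finset X → Prop) {x y : X} (h : x ≠ y) :
    |c.o hv x y - c.H hv x - c.H hv y + c.W hv - (c.K - Real.log (c.d x y))| ≤ c.eta := by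
  rw [← Cells.pair_eq hv x y]; exact hc.c4 x y h

theorem fourp_place (h : LX) (h2 : LXP) {X : Type} [DecidableEq X] {c c' : Cells X}
    {hv : ℕ × Finset X → Prop} (hc : c.Good) (hc' : c'.Good) (hH : HV c hv) (hH' : HV c' hv)
    {x y₁ y₂ y₃ : X} (h1 : y₁ ≠ x) (h2x : y₂ ≠ x) (h3 : y₃ ≠ x) (h12 : y₁ ≠ y₂) (h13 : y₁ ≠ y₃)
    (e2 : c'.d y₁ y₂ * c.d x y₂ = c'.d x y₁ * c.d y₁ y₂)
    (e3 : c'.d y₁ y₃ * c.d x y₃ = c'.d x y₁ * c.d y₁ y₃) :
    c'.H hv y₃ ≤ c'.o hv y₂ y₃ + c'.o hv y₁ y₃ + c.o hv y₁ y₂ + c.o hv x y₃ +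
        (5 * c'.xi + 4 * c.xi) ∧
      c.o hv x y₃ ≤ c.o hv y₂ y₃ + c.o hv y₁ y₃ + c'.o hv y₁ y₂ + c'.H hv y₃ +
        (2 * c'.xi + 12 * c.xi) := by
  have l2 := congrArg Real.log e2
  have l3 := congrArg Real.log e3
  rw [Real.log_mul (hc'.d_pos h12).ne' (hc.d_pos h2x.symm).ne',
    Real.log_mul (hc'.d_pos h1.symm).ne' (hc.d_pos h12).ne'] at l2
  rw [Real.log_mul (hc'.d_pos h13).ne' (hc.d_pos h3.symm).ne',
    Real.log_mul (hc'.d_pos h1.symm).ne' (hc.d_pos h13).ne'] at l3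
  obtain ⟨a1, b1⟩ := abs_le.1 (fourp_log hc' hv h12)
  obtain ⟨a2, b2⟩ := abs_le.1 (fourp_log hc' hv h13)
  obtain ⟨a3, b3⟩ := abs_le.1 (fourp_log hc hv h12)
  obtain ⟨a4, b4⟩ := abs_le.1 (fourp_log hc hv h13)
  obtain ⟨a5, b5⟩ := abs_le.1 (fourp_log hc hv h2x.symm)
  obtain ⟨a6, b6⟩ := abs_le.1 (fourp_log hc hv h3.symm)
  have n1 := Cells.o_nonneg (hv := hv) hc' y₁ y₂
  have n2 := Cells.o_nonneg (hv := hv) hc' y₁ y₃
  have n3 := Cells.o_nonneg (hv := hv) hc y₁ y₂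
  have n4 := Cells.o_nonneg (hv := hv) hc y₁ y₃
  have n5 := Cells.o_nonneg (hv := hv) hc x y₂
  have n6 := Cells.o_nonneg (hv := hv) hc x y₃
  have n7 := Cells.H_nonneg (hv := hv) hc' y₂
  have n8 := Cells.H_nonneg (hv := hv) hc' y₃
  have x1 := hc.xi_nonneg
  have x2 := hc'.xi_nonneg
  have t1 := hc.eta_hi
  have t2 := hc'.eta_hi
  constructor
  · rcases min_le_iff.1 (h X c' hv hc' hH' y₂ y₃).2 with hm | hm <;> linarith
  · rcases min_le_iff.1 (h2 X c hv hc hH x y₂ y₃) with hm | hm <;> linarith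

theorem fourp (h : LX) (h2 : LXP) : FOURP := by
  intro X PL _ _ s hv hs hH x y₁ y₂ y₃ h1 h2x h3 h12 h13 _ l2 l3
  have key := fun p => fourp_place h h2 (hs.good p) (hs.good (s.bar p)) (hH p) (hH (s.bar p))
    h1 h2x h3 h12 h13 (hs.f2 p x y₁ y₂ h1 h2x l2) (hs.f2 p x y₁ y₃ h1 h3 l3)
  have k1 := hs.sum_le fun p => (key p).1
  have k2 := hs.sum_le fun p => (key p).2
  have b1 := hs.sum_bar fun p => (s.c p).H hv y₃
  have b2 := hs.sum_bar fun p => (s.c p).o hv y₂ y₃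
  have b3 := hs.sum_bar fun p => (s.c p).o hv y₁ y₃
  have b4 := hs.sum_bar fun p => (s.c p).o hv y₁ y₂
  have b5 := hs.sum_bar fun p => (s.c p).xi
  have hx := hs.xi_sum
  have m5 : ∀ (a : ℝ) (f : PL → ℝ), ∑ p, s.m p * (a * f p) = a * ∑ p, s.m p * f p := fun a f => by
    rw [mul_sum]; exact sum_congr rfl fun p _ => by ring
  simp only [mul_add, sum_add_distrib, m5] at k1 k2
  unfold Sys.H Sys.O
  constructor <;> linarith

end Pool.Agent.MP_6c3157_co.PD
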