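import Pool.Agent.MP_6c3157_co.PD.Basic

/-! Project PD: quantile radii and the central ball. -/

set_option autoImplicit false

namespace Pool.Agent.MP_6c3157_co.PD

open Finset

theorem qr : QR := by
  classical
  intro X _ c Y hc x hx k h1 h2
  have far : ∀ Z : Finset X, Z ⊆ Y → k ≤ Z.card →
      ∃ b ∈ Z, k ≤ (c.ball Y x (c.d x b)).card := fun Z hZ hk => by
    have hne : Z.Nonempty := card_pos.1 (by exact_mod_cast (zero_lt_one.trans h1).trans_le hk)
    obtain ⟨b, hb, hm⟩ := exists_max_image Z (c.d x) hne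
    refine ⟨b, hb, hk.trans ?_⟩
    exact_mod_cast card_le_card fun z hz => Cells.mem_ball.2 ⟨hZ hz, hm z hz⟩
  obtain ⟨b, hb, hb'⟩ := far Y subset_rfl h2
  obtain ⟨a, ha, hm⟩ := exists_min_image (Y.filter fun a => k ≤ (c.ball Y x (c.d x a)).card)
    (c.d x) ⟨b, mem_filter.2 ⟨hb, hb'⟩⟩
  obtain ⟨ha, ha'⟩ := mem_filter.1 ha
  refine ⟨a, ha, ?_, ha', fun t ht => lt_of_not_ge fun h => ?_⟩
  · rintro rfl
    have h3 : (c.ball Y a (c.d a a)).card ≤ 1 := by
      refine (card_le_card (t := {a}) fun z hz => mem_singleton.2 (by_contra fun e => ?_)).trans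
        (card_singleton a).le
      have := (Cells.mem_ball.1 hz).2
      rw [hc.d_self] at this
      exact absurd (hc.d_pos (Ne.symm e)) (not_lt.2 this)
    have h4 : ((c.ball Y a (c.d a a)).card : ℝ) ≤ 1 := by exact_mod_cast h3
    linarith
  · obtain ⟨z, hz, hz'⟩ := far _ Cells.ball_subset h
    obtain ⟨h3, h4⟩ := Cells.mem_ball.1 hz
    have := hm z (mem_filter.2 ⟨h3, hz'⟩)
    linarith

theorem geo : GEO := by
  intro X _ c Y hc hY
  have hn : (3000 : ℝ) ≤ Y.card := by exact_mod_cast hY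
  have key : ∀ k : ℝ, 1 < k → k ≤ Y.card → ∃ f : X → ℝ, ∀ x ∈ Y, 256 * c.rlo ≤ f x ∧ f x ≤ c.rhi ∧
      k ≤ (c.ball Y x (f x)).card ∧ ∀ t < f x, ((c.ball Y x t).card : ℝ) < k := fun k h1 h2 => by
    choose! a _ h4 h5 h6 using fun x hx => qr X c Y hc x hx k h1 h2
    exact ⟨fun x => c.d x (a x), fun x hx =>
      ⟨hc.d_lo _ _ (h4 x hx).symm, hc.d_hi _ _, h5 x hx, h6 x hx⟩⟩
  obtain ⟨f, hf⟩ := key ((1 - tau) * Y.card) (by unfold tau; linarith) (by unfold tau; linarith)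
  obtain ⟨g, hg⟩ := key (tau / 2 * Y.card) (by unfold tau; linarith) (by unfold tau; linarith)
  obtain ⟨p, hp, hm⟩ := exists_min_image Y f (card_pos.1 (by omega))
  exact ⟨⟨f p, p, g⟩, hp, (hf p hp).2.2.1, fun x hx t ht => (hf x hx).2.2.2 t (ht.trans_le (hm x hx)),
    (hf p hp).1, (hf p hp).2.1, fun x hx => (hg x hx).2.2.1, fun x hx => (hg x hx).2.2.2,
    fun x hx => (hg x hx).1, fun x hx => (hg x hx).2.1⟩

end Pool.Agent.MP_6c3157_co.PD
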