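import Pool.Agent.MP_6c3157_co.PD.Basic

/-! Row GG1: shape of the lens function. -/

set_option autoImplicit false

noncomputable section

namespace Pool.Agent.MP_6c3157_co.PD

open MeasureTheory Metric

/-- the lens of two unit discs at distance `t` -/
def gg1_lens (t : ℝ) : Set ℂ := closedBall (-(t : ℂ) / 2) 1 ∩ closedBall ((t : ℂ) / 2) 1

theorem gg1_mem {t : ℝ} {z : ℂ} : z ∈ gg1_lens t ↔
    (z.re + t / 2) ^ 2 + z.im ^ 2 ≤ 1 ∧ (z.re - t / 2) ^ 2 + z.im ^ 2 ≤ 1 := by
  have key : ∀ w : ℂ, ‖w‖ ≤ 1 ↔ w.re ^ 2 + w.im ^ 2 ≤ 1 := fun w => by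
    rw [← sq_le_one_iff₀ (norm_nonneg w), Complex.sq_norm, Complex.normSq_apply]
    ring_nf
  have e1 : -(t : ℂ) / 2 = ((-(t / 2) : ℝ) : ℂ) := by push_cast; ring
  have e2 : (t : ℂ) / 2 = ((t / 2 : ℝ) : ℂ) := by push_cast; ring
  unfold gg1_lens
  rw [Set.mem_inter_iff, mem_closedBall, mem_closedBall, dist_eq_norm, dist_eq_norm, key, key,
    e1, e2]
  simp only [Complex.sub_re, Complex.sub_im, Complex.ofReal_re, Complex.ofReal_im, sub_zero,
    sub_neg_eq_add]

theorem gg1_ball (c : ℂ) {r : ℝ} (hr : 0 ≤ r) :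
    (volume (closedBall c r)).toReal = Real.pi * r ^ 2 := by
  rw [Complex.volume_closedBall, ENNReal.toReal_mul, ENNReal.toReal_pow, ENNReal.toReal_ofReal hr]
  simp [mul_comm]

theorem gg1_fin (t : ℝ) : volume (gg1_lens t) ≠ ⊤ :=
  ne_top_of_le_ne_top (measure_closedBall_lt_top (x := (t : ℂ) / 2) (r := 1)).ne
    (measure_mono Set.inter_subset_right)

theorem gg1_eq (t : ℝ) : gg t = (volume (gg1_lens t)).toReal / Real.pi := rfl

theorem gg1 : GG1 := by
  have hp := Real.pi_pos
  refine ⟨fun t u ht htu => ?_, fun t ht => ⟨?_, ?_⟩, fun t ht => ?_⟩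
  · rw [gg1_eq, gg1_eq]
    refine div_le_div_of_nonneg_right (ENNReal.toReal_mono (gg1_fin t) (measure_mono ?_)) hp.le
    intro z hz
    rw [gg1_mem] at hz ⊢
    obtain ⟨h1, h2⟩ := hz
    rcases le_total 0 z.re with h | h
    · constructor <;> nlinarith [mul_nonneg h ht, mul_nonneg h (sub_nonneg.2 htu),
        mul_nonneg (sub_nonneg.2 htu) (add_nonneg ht (ht.trans htu))]
    · have h' : 0 ≤ -z.re := by linarith
      constructor <;> nlinarith [mul_nonneg h' ht, mul_nonneg h' (sub_nonneg.2 htu),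
        mul_nonneg (sub_nonneg.2 htu) (add_nonneg ht (ht.trans htu))]
  · rw [gg1_eq]
    rcases le_total 1 t with h | h
    · exact le_trans (by linarith) (div_nonneg ENNReal.toReal_nonneg hp.le)
    · have hs : closedBall (0 : ℂ) (1 - t / 2) ⊆ gg1_lens t := by
        have hn : ‖(t : ℂ) / 2‖ = t / 2 := by
          rw [norm_div, Complex.norm_real, Real.norm_of_nonneg ht]; simp
        intro z hz
        rw [mem_closedBall, dist_zero_right] at hz
        constructor
        · rw [mem_closedBall, dist_eq_norm, neg_div, sub_neg_eq_add]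
          linarith [norm_add_le z ((t : ℂ) / 2)]
        · rw [mem_closedBall, dist_eq_norm]
          linarith [norm_sub_le z ((t : ℂ) / 2)]
      have h1 := ENNReal.toReal_mono (gg1_fin t) (measure_mono hs)
      rw [gg1_ball _ (by linarith)] at h1
      rw [le_div_iff₀ hp]
      nlinarith [mul_nonneg hp.le (sq_nonneg t)]
  · rw [gg1_eq, div_le_one hp]
    have h1 := ENNReal.toReal_mono (measure_closedBall_lt_top (μ := volume)
      (x := (t : ℂ) / 2) (r := 1)).ne
      (measure_mono (Set.inter_subset_right : gg1_lens t ⊆ _))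
    rw [gg1_ball _ zero_le_one, one_pow, mul_one] at h1
    exact h1
  · have he : gg1_lens t = ∅ := by
      refine Set.eq_empty_of_forall_notMem fun z hz => ?_
      rw [gg1_mem] at hz
      nlinarith [hz.1, hz.2, sq_nonneg z.re, sq_nonneg z.im]
    rw [gg1_eq, he]
    simp

end Pool.Agent.MP_6c3157_co.PD
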