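import Pool.Agent.MP_6c3157_co.PD.Basic

/-! Project PD: the lens of two discs. -/

set_option autoImplicit false

namespace Pool.Agent.MP_6c3157_co.PD

open MeasureTheory Metric

theorem gg2_vol (m c : ℂ) (S : Set ℂ) :
    volume ((fun z => m + c * z) '' S) = ENNReal.ofReal (‖c‖ ^ 2) * volume S := by
  have e : (fun z => m + c * z) '' S = (fun z => m + z) '' ((LinearMap.mul ℝ ℂ c) '' S) := by
    rw [Set.image_image]; rfl
  have hd : LinearMap.det (LinearMap.mul ℝ ℂ c) = ‖c‖ ^ 2 := by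
    rw [← LinearMap.det_toMatrix Complex.basisOneI, Matrix.det_fin_two, Complex.sq_norm,
      Complex.normSq_apply]
    simp [LinearMap.toMatrix_apply]
  rw [e, Set.image_add_left, measure_preimage_add, Measure.addHaar_image_linearMap, hd,
    abs_of_nonneg (sq_nonneg _)]

theorem gg2 : GG2 := by
  intro a b r hab hr
  have hd : 0 < ‖a - b‖ := norm_pos_iff.2 (sub_ne_zero.2 hab)
  have hd' : ((‖a - b‖ : ℝ) : ℂ) ≠ 0 := by exact_mod_cast hd.ne'
  have hr' : (r : ℂ) ≠ 0 := by exact_mod_cast hr.ne'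
  obtain ⟨c, hc⟩ : ∃ c : ℂ, c = r * (b - a) / (‖a - b‖ : ℝ) := ⟨_, rfl⟩
  have hn : ‖c‖ = r := by
    rw [hc, norm_div, norm_mul, norm_sub_rev b a, Complex.norm_real, Complex.norm_real,
      Real.norm_of_nonneg hr.le, Real.norm_of_nonneg hd.le, mul_div_assoc, div_self hd.ne', mul_one]
  have hc0 : c ≠ 0 := norm_pos_iff.1 (hn ▸ hr)
  have key : ∀ z p q : ℂ, (a + b) / 2 + c * p = q →
      ((a + b) / 2 + c * z ∈ closedBall q r ↔ z ∈ closedBall p 1) := by
    intro z p q h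
    rw [mem_closedBall, mem_closedBall, ← h, dist_eq_norm, dist_eq_norm, add_sub_add_left_eq_sub,
      ← mul_sub, norm_mul, hn, mul_le_iff_le_one_right hr]
  have e : closedBall a r ∩ closedBall b r = (fun z => (a + b) / 2 + c * z) ''
      (closedBall (-((‖a - b‖ / r : ℝ) : ℂ) / 2) 1 ∩ closedBall (((‖a - b‖ / r : ℝ) : ℂ) / 2) 1) := by
    have h1 : (a + b) / 2 + c * (-((‖a - b‖ / r : ℝ) : ℂ) / 2) = a := by
      rw [hc]; push_cast; field_simp; ring
    have h2 : (a + b) / 2 + c * (((‖a - b‖ / r : ℝ) : ℂ) / 2) = b := by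
      rw [hc]; push_cast; field_simp; ring
    ext w
    constructor
    · rintro ⟨u, v⟩
      have hw : (a + b) / 2 + c * ((w - (a + b) / 2) / c) = w := by field_simp; ring
      exact ⟨_, ⟨(key _ _ _ h1).1 (hw.symm ▸ u), (key _ _ _ h2).1 (hw.symm ▸ v)⟩, hw⟩
    · rintro ⟨z, ⟨u, v⟩, rfl⟩
      exact ⟨(key _ _ _ h1).2 u, (key _ _ _ h2).2 v⟩
  rw [e, gg2_vol, ENNReal.toReal_mul, ENNReal.toReal_ofReal (sq_nonneg _), hn, gg]
  have := Real.pi_pos
  field_simp

end Pool.Agent.MP_6c3157_co.PD
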