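import Pool.Agent.MP_6c3157_co.PD.Basic

/-! Project PD: the product formula for overlaps. -/

set_option autoImplicit false

noncomputable section

namespace Pool.Agent.MP_6c3157_co.PD

open Finset

theorem hid : HID := by
  intro X PL _ _ s hv hs
  refine ⟨(∑ p, s.m p * ((s.c p).K - (s.c p).W hv)) / -2, fun x y hxy => ?_⟩
  have e : s.O hv x y - (s.H hv x - (∑ p, s.m p * ((s.c p).K - (s.c p).W hv)) / -2) -
      (s.H hv y - (∑ p, s.m p * ((s.c p).K - (s.c p).W hv)) / -2) =
      ∑ p, s.m p * ((s.c p).W (fun i => x ∈ i.2 ∧ y ∈ i.2) -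
        ((s.c p).K - Real.log ((s.c p).d x y))) := by
    have := hs.pf x y hxy
    simp only [Cells.pair_eq hv, Sys.O, Sys.H, mul_sub, mul_add, sum_sub_distrib, sum_add_distrib]
    linarith
  rw [e]
  refine (abs_sum_le_sum_abs _ _).trans (le_trans (sum_le_sum fun p _ => ?_) hs.eta_sum)
  rw [abs_mul, abs_of_nonneg (hs.m_lo p)]
  exact mul_le_mul_of_nonneg_left ((hs.good p).c4 x y hxy) (hs.m_lo p)

end Pool.Agent.MP_6c3157_co.PD
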