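import Pool.Agent.MP_6c3157_co.PD.Basic

/-! Project PD, row IND: the induction. -/

set_option autoImplicit false
set_option linter.unusedSectionVars false

noncomputable section

namespace Pool.Agent.MP_6c3157_co.PD

open Finset

theorem IndA.card_le {X : Type} [DecidableEq X] (lab : X → X → ℝ) (Q : Finset X)
    (h : 2 ≤ Q.card) : Q.card ≤ Zs lab Q := by
  unfold Zs
  rw [card_eq_sum_ones Q]
  refine sum_le_sum fun x hx => card_pos.2 (Nonempty.image (card_pos.1 ?_) _)
  rw [card_erase_of_mem hx]; omega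

theorem ind (hB : BAND) (hC : CORE) (hN : NUM) : IND := by
  intro X PL _ _ s hs Q
  induction' hn : Q.card using Nat.strong_induction_on with n ih generalizing Q
  subst hn
  intro h2
  by_contra hlt
  rw [not_le] at hlt
  have h2' : (2 : ℝ) ≤ Q.card := by exact_mod_cast h2
  obtain ⟨N1, N2⟩ := hN Q.card h2'
  set φ := Real.exp (-30 * Real.sqrt (Real.log Q.card)) with hφ
  have φ0 : 0 < φ := Real.exp_pos _
  have e0 := ep_pos
  rcases le_or_gt (Real.log Q.card) 900 with hl | hl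
  · have h3 : (Q.card : ℝ) ≤ Zs s.lab Q := by exact_mod_cast IndA.card_le s.lab Q h2
    have h4 := mul_le_mul_of_nonneg_left (N1 hl) (by linarith : (0 : ℝ) ≤ Q.card)
    nlinarith
  obtain ⟨a1, a2, a3, a4, a5⟩ := N2 hl
  have hz : (Zs s.lab Q : ℝ) ≤ (Q.card : ℝ) ^ 2 * φ := by nlinarith
  obtain ⟨Y, hY, h34, h, T, hx⟩ := hB X PL s Q hs (by exact_mod_cast a1) (by
    have : 200 * (Zs s.lab Q : ℝ) ≤ (Q.card : ℝ) ^ 2 := by nlinarith [sq_nonneg (Q.card : ℝ)]
    exact_mod_cast this)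
  have h34' : 3 * (Q.card : ℝ) ≤ 4 * Y.card := by exact_mod_cast h34
  have hYQ : (Y.card : ℝ) ≤ Q.card := by exact_mod_cast card_le_card hY
  have hZ : (Zs s.lab Y : ℝ) ≤ Zs s.lab Q := by exact_mod_cast Zs_mono s.lab hY
  have hσ : ep * (2 * φ / ep) = 2 * φ := by field_simp
  obtain ⟨S, hS, s2, slt, sz⟩ := hC X PL s (heavy Q) Y h T (2 * φ / ep) hx a3
    (by rw [← mul_assoc, hσ]; nlinarith) (by
      rw [hσ]
      have : (Q.card : ℝ) ^ 2 ≤ 2 * (Y.card : ℝ) ^ 2 := by nlinarith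
      nlinarith)
  have σ0 : 0 ≤ 2 * φ / ep := by positivity
  have s3 : (S.card : ℝ) < 2 * φ / ep * Q.card :=
    slt.trans_le (mul_le_mul_of_nonneg_left hYQ σ0)
  have s4 : (S.card : ℝ) < Q.card := by nlinarith
  have s2' : (2 : ℝ) ≤ S.card := by exact_mod_cast s2
  have i1 := ih S.card (by exact_mod_cast s4) S rfl s2
  have i2 := a5 S.card s2' s3
  have i3 : 11 * (2 * φ / ep) / ep = 22 * φ / ep ^ 2 := by field_simp; ring
  rw [i3] at sz
  have i4 : 0 < (S.card : ℝ) * (S.card - 1) := mul_pos (by linarith) (by linarith)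
  have i5 := mul_lt_mul_of_pos_right i2 i4
  linarith

end Pool.Agent.MP_6c3157_co.PD
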