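import Pool.Agent.MP_6c3157_co.PD.Basic

/-! Project PD, row LG: outlier length against heavy cells, and low heavy cells. -/

set_option autoImplicit false
set_option linter.unusedSectionVars false

noncomputable section

namespace Pool.Agent.MP_6c3157_co.PD

open Finset

section

variable {X : Type} [DecidableEq X] {c : Cells X} {hv : ℕ × Finset X → Prop} {Y : Finset X}
  {γ : Geo X}

theorem lg_G (h : PC c hv Y γ) (x : X) : c.G γ x ≤ 4 * c.H hv x + 3 * c.xi := by
  have hc := h.good
  have hxi := hc.xi_nonneg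
  have hH : 0 ≤ c.H hv x := Cells.H_nonneg hc x
  have hr := h.geo.r_pos hc
  have hl := hc.lam_pos
  have hl1 := hc.lam_lo
  have hlog := hc.log_lam
  have heta := hc.eta_hi
  have hn := h.geo.card_pos
  unfold Cells.G
  refine max_le (by linarith) ?_
  rcases (hc.d_nonneg x γ.cen).eq_or_lt with h0 | h0
  · rw [← h0, zero_div, Real.log_zero]; linarith
  have hsplit : Real.log (c.d x γ.cen / γ.r) =
      Real.log (c.d x γ.cen / c.lam / (c.lam * γ.r)) + 2 * Real.log c.lam := by
    have h1 : c.d x γ.cen / γ.r = c.d x γ.cen / c.lam / (c.lam * γ.r) * c.lam ^ 2 := by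
      field_simp
    rw [h1, Real.log_mul (by positivity) (by positivity), Real.log_pow]
    push_cast; ring
  rw [hsplit]
  by_cases hab : c.lam * γ.r ≤ c.d x γ.cen / c.lam
  · have h1 : c.rlo ≤ c.lam * γ.r := by
      have h2 := h.geo.r_lo
      have h3 := hc.rlo_pos
      nlinarith
    have h2 : c.d x γ.cen / c.lam ≤ c.rhi := (div_le_self h0.le hl1).trans (hc.d_hi _ _)
    have h3 := hc.c3 γ.cen _ _ h1 hab h2
    have h4 : c.W (fun i => γ.cen ∈ i.2 ∧ c.lam * γ.r ≤ c.ρ i ∧ c.ρ i < c.d x γ.cen / c.lam ∧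
        ∀ z, c.d γ.cen z ≤ c.ρ i / c.lam → z ∈ i.2) ≤ c.H hv x := by
      refine Cells.W_mono hc fun i hi hk => ⟨?_, fun hx => ?_⟩
      · by_contra hl2
        have h5 := h.lgt i hi hl2
        have h6 : c.ball Y γ.cen γ.r ⊆ Y ∩ i.2 := fun z hz => by
          refine mem_inter.2 ⟨(Cells.mem_ball.1 hz).1, hk.2.2.2 z ?_⟩
          refine (Cells.mem_ball.1 hz).2.trans ?_
          rw [le_div_iff₀ hl, mul_comm]; exact hk.2.1
        have h7 : ((c.ball Y γ.cen γ.r).card : ℝ) ≤ (Y ∩ i.2).card := by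
          exact_mod_cast card_le_card h6
        have h8 : 4 * ((Y ∩ i.2).card : ℝ) ≤ 3 * Y.card := by exact_mod_cast h5
        have h9 := h.geo.r_in
        unfold tau at h9
        linarith
      · have h5 := hc.c1 i hi x hx γ.cen hk.1
        have h6 := hk.2.2.1
        rw [lt_div_iff₀ hl] at h6
        linarith
    linarith
  · have h1 : Real.log (c.d x γ.cen / c.lam / (c.lam * γ.r)) ≤ 0 :=
      Real.log_nonpos (by positivity) ((div_le_one (by positivity)).2 (le_of_not_ge hab))
    linarith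

theorem lg_low (h : PC c hv Y γ) : tau * Y.card * c.Hlow hv γ ≤ ∑ y ∈ Y, c.H hv y := by
  have hc := h.good
  have hl := hc.lam_pos
  have hn := h.geo.card_pos
  unfold Cells.H Cells.Hlow
  rw [Cells.sum_W_not, ← Cells.WS_const]
  refine Cells.WS_mono hc (fun i hi hk => ⟨hk.1, ?_⟩) fun _ _ _ => Nat.cast_nonneg _
  have h1 := h.hvl i hi hk.1
  have h2 : 0 < (Y ∩ i.2).card := by
    have : 0 < Y.card := by exact_mod_cast hn
    omega
  obtain ⟨y, hy⟩ := card_pos.1 h2
  have h3 : c.lam * c.ρ i < γ.r := by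
    have h4 := hk.2
    rw [lt_div_iff₀ hl] at h4
    linarith
  have h4 := h.geo.r_min y (mem_inter.1 hy).1 _ h3
  have h5 : ((Y ∩ i.2).card : ℝ) ≤ (c.ball Y y (c.lam * c.ρ i)).card := by
    exact_mod_cast card_le_card (Cells.inter_subset_ball hc hi (mem_inter.1 hy).2)
  have h6 : ((Y \ i.2).card : ℝ) + (Y ∩ i.2).card = Y.card := by
    exact_mod_cast card_sdiff_add_card_inter Y i.2
  linarith

end

theorem lg : LG := fun _ _ _ _ _ _ h => ⟨fun x _ => lg_G h x, lg_low h⟩

end Pool.Agent.MP_6c3157_co.PD
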