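import Pool.Agent.MP_6c3157_co.PD.Basic

/-! Project PD: light cells above a radius, and the depth of a pair. -/

set_option autoImplicit false

noncomputable section

namespace Pool.Agent.MP_6c3157_co.PD

open Finset

theorem lta : LTA := by
  intro X _ c hv Y γ p
  have hc := p.good
  have hr := p.geo.r_pos hc
  have hl := hc.lam_pos
  have he := hc.eta_hi
  have hx0 := hc.xi_nonneg
  refine ⟨fun x _ a ha => ?_, fun x _ y _ hxy => ?_⟩
  · set b := γ.r * Real.exp (c.G γ x) with hb
    have hb0 : 0 < b := by positivity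
    have hrb : γ.r ≤ b := le_mul_of_one_le_right hr.le (Real.one_le_exp (Cells.G_nonneg γ x))
    have h1 : c.W (fun i => x ∈ i.2 ∧ a ≤ c.ρ i ∧ c.ρ i < b) ≤
        max 0 (Real.log (γ.r / a) + c.G γ x) + c.xi := by
      rcases le_or_gt a b with h | h
      · have h2 := hc.c2 x a b ha h
        rw [hb, mul_div_right_comm, Real.log_mul (by positivity) (by positivity),
          Real.log_exp] at h2
        exact h2.trans (add_le_add (le_max_right _ _) he)
      · rw [Cells.W_zero fun i _ hi => lt_irrefl _ ((hi.2.1.trans_lt hi.2.2).trans h)]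
        exact add_nonneg (le_max_left _ _) hx0
    refine (Cells.W_le_add hc fun i hi hj => ?_).trans
      ((add_le_add h1 (hc.c5 γ.cen b hb0)).trans (le_of_eq (by ring)))
    rcases lt_or_ge (c.ρ i) b with h | h
    · exact Or.inl ⟨hj.2.1, hj.2.2, h⟩
    refine Or.inr ⟨h, ⟨x, hj.2.1, hc.d_symm x γ.cen ▸ p.geo.d_le hc x⟩, by_contra fun hn => ?_⟩
    have h2 : c.ball Y γ.cen γ.r ⊆ Y ∩ i.2 := fun z hz => by
      obtain ⟨h3, h4⟩ := Cells.mem_ball.1 hz
      exact mem_inter.2 ⟨h3, by_contra fun h5 => hn ⟨z, h5, h4.trans hrb⟩⟩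
    have h3 : ((c.ball Y γ.cen γ.r).card : ℝ) ≤ (Y ∩ i.2).card := Nat.cast_le.2 (card_le_card h2)
    have h4 : 4 * ((Y ∩ i.2).card : ℝ) ≤ 3 * Y.card := by exact_mod_cast p.lgt i hi hj.1
    have h5 := p.geo.r_in
    have h6 := p.geo.card_pos
    unfold tau at h5
    linarith
  · have hd := hc.d_pos hxy
    have h1 := hc.log_lam
    have h2 := Cells.o_nonneg (hv := hv) hc x y
    have h3 := Cells.Hlow_nonneg (hv := hv) hc γ
    have e : Real.log (γ.r / c.d x y) =
        Real.log (γ.r / c.lam / (c.lam * c.d x y)) + 2 * Real.log c.lam := by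
      rw [Real.log_div (by positivity) (by positivity), Real.log_div (by positivity) (by positivity),
        Real.log_div hr.ne' hl.ne', Real.log_mul hl.ne' hd.ne']
      ring
    rw [e]
    rcases le_total (c.lam * c.d x y) (γ.r / c.lam) with h | h
    · have h4 := hc.d_lo x y hxy
      have h5 := hc.rlo_pos
      have h6 := le_mul_of_one_le_left hd.le hc.lam_lo
      have h7 := (hc.c3 x _ _ (by linarith) h
        ((div_le_self hr.le hc.lam_lo).trans p.geo.r_hi)).trans
        (Cells.W_le_add (ψ := fun i => inC hv i x ∧ inC hv i y)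
          (χ := fun i => hv i ∧ c.ρ i < γ.r / c.lam) hc fun i _ hj => by
            by_cases h8 : hv i
            · exact Or.inr ⟨h8, hj.2.2.1⟩
            · exact Or.inl ⟨Or.inr ⟨h8, hj.1⟩,
                Or.inr ⟨h8, hj.2.2.2 y ((le_div_iff₀' hl).2 hj.2.1)⟩⟩)
      unfold Cells.o Cells.Hlow
      linarith
    · have h4 : Real.log (γ.r / c.lam / (c.lam * c.d x y)) ≤ 0 :=
        Real.log_nonpos (by positivity) ((div_le_one (by positivity)).2 h)
      linarith

end Pool.Agent.MP_6c3157_co.PD
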