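import Pool.Agent.MP_6c3157_co.PD.Basic

/-! Project PD: heavy cells are almost nested. -/

set_option autoImplicit false
set_option linter.unusedSectionVars false

noncomputable section

namespace Pool.Agent.MP_6c3157_co.PD

open Finset

theorem lx_aux {X : Type} [DecidableEq X] {c : Cells X} {hv : ℕ × Finset X → Prop} (hc : c.Good)
    (h : HV c hv) {a b : X} {i₀ : ℕ × Finset X} (hi : i₀ ∈ c.I) (h0 : hv i₀) (hb : b ∈ i₀.2)
    (hm : ∀ j ∈ c.I, hv j ∧ a ∈ j.2 ∧ b ∉ j.2 → c.ρ i₀ ≤ c.ρ j) :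
    (c.W fun i => hv i ∧ a ∈ i.2 ∧ b ∉ i.2) ≤ 3 * c.xi := by
  have r0 := hc.rho_pos i₀ hi
  have l0 := hc.lam_pos
  have h1 := hc.c2 a (c.ρ i₀) (c.lam * c.ρ i₀) r0 (le_mul_of_one_le_left r0.le hc.lam_lo)
  have h2 := hc.c5 b (c.lam * c.ρ i₀) (by positivity)
  rw [mul_div_cancel_right₀ _ r0.ne'] at h1
  refine (Cells.W_le_add hc fun j hj hp => ?_).trans
    ((add_le_add h1 h2).trans (by linarith [hc.log_lam, hc.eta_hi]))
  rcases lt_or_ge (c.ρ j) (c.lam * c.ρ i₀) with h3 | h3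
  · exact Or.inl ⟨hp.2.1, hm j hj hp, h3⟩
  · obtain ⟨z, z1, z2⟩ := h.meet i₀ hi j hj h0 hp.1
    exact Or.inr ⟨h3, ⟨z, z2, hc.c1 i₀ hi b hb z z1⟩, b, hp.2.2, by rw [hc.d_self]; positivity⟩

theorem lx : LX := by
  intro X _ c hv hc h a b
  classical
  have x0 := hc.xi_nonneg
  have h1 : min (c.W fun i => hv i ∧ b ∈ i.2 ∧ a ∉ i.2) (c.W fun i => hv i ∧ a ∈ i.2 ∧ b ∉ i.2) ≤
      3 * c.xi := by
    rcases (c.I.filter fun i => (hv i ∧ b ∈ i.2 ∧ a ∉ i.2) ∨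
      (hv i ∧ a ∈ i.2 ∧ b ∉ i.2)).eq_empty_or_nonempty with h0 | h0
    · refine (min_le_left _ _).trans ?_
      rw [Cells.W_zero fun i hi hj => filter_eq_empty_iff.1 h0 hi (Or.inl hj)]
      positivity
    · obtain ⟨i, hi, hm⟩ := exists_min_image _ c.ρ h0
      obtain ⟨hi, hj | hj⟩ := mem_filter.1 hi
      · exact (min_le_right _ _).trans (lx_aux hc h hi hj.1 hj.2.1 fun j h1 h2 =>
          hm j (mem_filter.2 ⟨h1, Or.inr h2⟩))
      · exact (min_le_left _ _).trans (lx_aux hc h hi hj.1 hj.2.1 fun j h1 h2 =>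
          hm j (mem_filter.2 ⟨h1, Or.inl h2⟩))
  refine ⟨h1, ?_⟩
  have h2 : c.H hv a ≤ c.o hv a b + c.W fun i => hv i ∧ b ∈ i.2 ∧ a ∉ i.2 :=
    Cells.W_le_add hc fun i _ hi => by unfold inC; tauto
  have h3 : c.H hv b ≤ c.o hv a b + c.W fun i => hv i ∧ a ∈ i.2 ∧ b ∉ i.2 :=
    Cells.W_le_add hc fun i _ hi => by unfold inC; tauto
  rcases min_le_iff.1 h1 with h4 | h4
  · exact (min_le_left _ _).trans (by linarith)
  · exact (min_le_right _ _).trans (by linarith)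

end Pool.Agent.MP_6c3157_co.PD
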