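import Pool.Agent.MP_6c3157_co.PD.Basic

/-! Project PD, row LXP: overlaps are almost ultrametric. -/

set_option autoImplicit false
set_option linter.unusedSectionVars false

noncomputable section

namespace Pool.Agent.MP_6c3157_co.PD

open Finset

section

variable {X : Type} [DecidableEq X] {c : Cells X} {hv : ℕ × Finset X → Prop}

/-- cells through `x` and the farther point `a` that miss the nearer point `b` -/
theorem lxp_far (hc : c.Good) (x a b : X) (h : c.d x b ≤ c.d x a) :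
    c.W (fun i => ¬ hv i ∧ x ∈ i.2 ∧ a ∈ i.2 ∧ b ∉ i.2) ≤ 3 * c.xi := by
  have hxi := hc.xi_nonneg
  by_cases hxa : x = a
  · have hb : x = b := by
      by_contra hb
      have h1 := hc.d_pos hb
      rw [← hxa, hc.d_self] at h
      linarith
    rw [Cells.W_zero fun i _ hi => hi.2.2.2 (hb ▸ hi.2.1)]
    linarith
  have ht := hc.d_pos hxa
  have h1 := hc.pair_below hxa (c.d x a)
  have h2 := hc.c5 x (c.d x a) ht
  have h3 : c.lam * c.d x a / c.d x a = c.lam := by field_simp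
  rw [h3] at h1
  have h4 : max 0 (Real.log c.lam) ≤ c.xi := max_le hxi hc.log_lam
  have h5 := hc.eta_hi
  refine le_trans (Cells.W_le_add hc fun i _ hi => ?_) (le_trans (add_le_add h1 h2) (by linarith))
  rcases lt_or_ge (c.ρ i) (c.d x a) with h6 | h6
  · exact Or.inl ⟨hi.2.1, hi.2.2.1, h6⟩
  · exact Or.inr ⟨h6, ⟨a, hi.2.2.1, le_rfl⟩, b, hi.2.2.2, h⟩

/-- light cells through `x` and `a` against heavy cells that separate them -/
theorem lxp_mix (hc : c.Good) (hh : HV c hv) (x a b : X) :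
    c.W (fun i => ¬ hv i ∧ x ∈ i.2 ∧ a ∈ i.2 ∧ b ∉ i.2) ≤ 4 * c.xi ∨
      c.W (fun i => hv i ∧ a ∈ i.2 ∧ x ∉ i.2 ∧ b ∉ i.2) ≤ 4 * c.xi := by
  have hxi := hc.xi_nonneg
  by_cases hxa : x = a
  · right
    rw [Cells.W_zero fun i _ hi => hi.2.2.1 (hxa ▸ hi.2.1)]
    linarith
  have ht := hc.d_pos hxa
  have hl := hc.lam_pos
  have hl1 := hc.lam_lo
  by_cases hcase : ∃ j ∈ c.I, hv j ∧ a ∈ j.2 ∧ c.ρ j < c.d x a / c.lam ^ 2
  · left
    obtain ⟨j, hj, hjv, haj, hρ⟩ := hcase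
    have hr : 0 < c.lam * c.ρ j := mul_pos hl (hc.rho_pos j hj)
    have h2 := hc.c5 a (c.lam * c.ρ j) hr
    refine le_trans (Cells.W_mono hc fun i hi hk => ?_) (le_trans h2 (by linarith))
    obtain ⟨z, hz1, hz2⟩ := hh.out j hj i hi hjv hk.1
    have h3 := hc.c1 i hi x hk.2.1 a hk.2.2.1
    refine ⟨?_, ⟨a, hk.2.2.1, by rw [hc.d_self]; exact hr.le⟩, z, hz2, hc.c1 j hj a haj z hz1⟩
    rw [lt_div_iff₀ (by positivity)] at hρ
    have h4 : c.lam * (c.lam * c.ρ j) ≤ c.lam * c.ρ i := by nlinarith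
    exact le_of_mul_le_mul_left h4 hl
  · right
    have hl2 : 1 ≤ c.lam ^ 2 := one_le_pow₀ hl1
    have h1 := hc.c2 a (c.d x a / c.lam ^ 2) (c.d x a) (by positivity) (div_le_self ht.le hl2)
    have h2 := hc.c5 a (c.d x a) ht
    have h3 : c.d x a / (c.d x a / c.lam ^ 2) = c.lam ^ 2 := by field_simp
    rw [h3, Real.log_pow] at h1
    have h4 := hc.log_lam
    have h5 := hc.eta_hi
    refine le_trans (Cells.W_le_add hc fun i hi hk => ?_)
      (le_trans (add_le_add h1 h2) (by push_cast; linarith))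
    rcases lt_or_ge (c.ρ i) (c.d x a) with h6 | h6
    · refine Or.inl ⟨hk.2.1, ?_, h6⟩
      by_contra h7
      exact hcase ⟨i, hi, hk.1, hk.2.1, lt_of_not_ge h7⟩
    · exact Or.inr ⟨h6, ⟨a, hk.2.1, by rw [hc.d_self]; exact ht.le⟩, x, hk.2.2.1,
        by rw [hc.d_symm]⟩

/-- the overlap of `x` and `a` split by the side of `b` -/
theorem lxp_split (hc : c.Good) (x a b : X) :
    c.o hv x a ≤ c.o hv a b + (c.W (fun i => ¬ hv i ∧ x ∈ i.2 ∧ a ∈ i.2 ∧ b ∉ i.2) +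
      c.W (fun i => hv i ∧ b ∈ i.2 ∧ x ∉ i.2 ∧ a ∉ i.2)) := by
  unfold Cells.o
  rw [Cells.W_split fun i => inC hv i b]
  refine add_le_add (Cells.W_mono hc fun i _ hi => ⟨hi.1.2, hi.2⟩)
    (Cells.W_le_add hc fun i _ hi => ?_)
  unfold inC at hi
  tauto

end

theorem lxp (h : LX) : LXP := by
  intro X _ c hv hc hh x a b
  have hxi := hc.xi_nonneg
  have s1 := lxp_split (hv := hv) hc x a b
  have s2 := lxp_split (hv := hv) hc x b a
  rw [Cells.o_symm b a] at s2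
  have m1 := lxp_mix hc hh x a b
  have m2 := lxp_mix hc hh x b a
  have m3 : c.W (fun i => ¬ hv i ∧ x ∈ i.2 ∧ a ∈ i.2 ∧ b ∉ i.2) ≤ 3 * c.xi ∨
      c.W (fun i => ¬ hv i ∧ x ∈ i.2 ∧ b ∈ i.2 ∧ a ∉ i.2) ≤ 3 * c.xi := by
    rcases le_total (c.d x b) (c.d x a) with h1 | h1
    · exact Or.inl (lxp_far hc x a b h1)
    · exact Or.inr (lxp_far hc x b a h1)
  have m4 : c.W (fun i => hv i ∧ b ∈ i.2 ∧ x ∉ i.2 ∧ a ∉ i.2) ≤ 3 * c.xi ∨
      c.W (fun i => hv i ∧ a ∈ i.2 ∧ x ∉ i.2 ∧ b ∉ i.2) ≤ 3 * c.xi := by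
    rcases min_le_iff.1 (h X c hv hc hh a b).1 with h1 | h1
    · exact Or.inl (le_trans (Cells.W_mono hc fun i _ hi => ⟨hi.1, hi.2.1, hi.2.2.2⟩) h1)
    · exact Or.inr (le_trans (Cells.W_mono hc fun i _ hi => ⟨hi.1, hi.2.1, hi.2.2.2⟩) h1)
  rw [min_le_iff]
  rcases m1 with m1 | m1 <;> rcases m2 with m2 | m2 <;> rcases m3 with m3 | m3 <;>
    rcases m4 with m4 | m4 <;> first | (left; linarith) | (right; linarith)

end Pool.Agent.MP_6c3157_co.PD
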