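import Pool.Agent.MP_6c3157_co.PD.Basic

/-! Project PD: from the induction to the plane. -/

set_option autoImplicit false

noncomputable section

namespace Pool.Agent.MP_6c3157_co.PD

open Finset

theorem mainp (hN : NF) (hS : SYS) (hI : IND) : MAIN := by
  classical
  intro A hA
  obtain ⟨K, _, _, U, V, hU, hV, hD⟩ := hN A (fun x => x.1) Subtype.val_injective
  obtain ⟨PL, _, s, hs, hl⟩ := hS A K U V (fun x y => dist x.1 y.1) hU hV hD
  have h := hI A PL s hs univ (by simpa using hA)
  rw [hl] at h
  simp only [card_univ, Fintype.card_coe] at h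
  refine h.trans (le_of_eq ?_)
  unfold Zs
  push_cast
  rw [← sum_coe_sort A]
  refine sum_congr rfl fun x _ => ?_
  congr 2
  ext t
  simp only [mem_image, mem_erase, mem_univ, and_true]
  constructor
  · rintro ⟨y, hy, rfl⟩
    exact ⟨dist_ne_zero.2 fun e => hy (Subtype.ext e.symm), y.1, y.2, rfl⟩
  · rintro ⟨ht, y, hy, rfl⟩
    exact ⟨⟨y, hy⟩, fun e => ht (by rw [← e]; exact dist_self _), rfl⟩

end Pool.Agent.MP_6c3157_co.PD
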