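import Pool.Agent.MP_6c3157_co.PD.Basic

/-! Project PD: the numerical facts of the induction. -/

set_option autoImplicit false

namespace Pool.Agent.MP_6c3157_co.PD

theorem num_pow (k : ℕ) : (10 : ℝ) ^ k ≤ Real.exp (3 * k) := by
  have h1 : (10 : ℝ) ≤ Real.exp 3 := by
    have h := Real.exp_one_gt_d9
    have e : Real.exp 3 = Real.exp 1 ^ 3 := by rw [← Real.exp_nat_mul]; norm_num
    rw [e]
    exact le_trans (by norm_num) (pow_le_pow_left₀ (by norm_num) h.le 3)
  rw [mul_comm, Real.exp_nat_mul]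
  exact pow_le_pow_left₀ (by norm_num) h1 k

theorem nums : NUM := by
  intro n hn
  have hn0 : 0 < n := by linarith
  have hL : 0 ≤ Real.log n := Real.log_nonneg (by linarith)
  have hs := Real.mul_self_sqrt hL
  have hs0 := Real.sqrt_nonneg (Real.log n)
  have he : n = Real.exp (Real.log n) := (Real.exp_log hn0).symm
  generalize Real.sqrt (Real.log n) = s at *
  have hm : n * Real.exp (-30 * s) = Real.exp (s * s - 30 * s) := by
    rw [hs, sub_eq_add_neg, Real.exp_add, ← he, neg_mul]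
  have hp := Real.exp_pos (-30 * s)
  refine ⟨fun h => ?_, fun h => ?_⟩
  · have h1 : s ≤ 30 := by nlinarith
    have h2 : Real.exp (s * s - 30 * s) ≤ 1 := Real.exp_le_one_iff.2 (by nlinarith)
    nlinarith
  have h1 : 30 < s := by nlinarith
  have h29 : (10 : ℝ) ^ 29 ≤ Real.exp 87 := by simpa using (num_pow 29).trans_eq (by norm_num)
  have h58 : (10 : ℝ) ^ 58 ≤ Real.exp 300 :=
    (num_pow 58).trans (Real.exp_le_exp.2 (by norm_num))
  have h2 : Real.exp 87 * Real.exp (-30 * s) ≤ 1 := by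
    rw [← Real.exp_add]; exact Real.exp_le_one_iff.2 (by linarith)
  have h3 : (10 : ℝ) ^ 29 * Real.exp (-30 * s) ≤ 1 :=
    (mul_le_mul_of_nonneg_right h29 hp.le).trans h2
  have h4 : 2 * Real.exp (-30 * s) / ep = 2 * 10 ^ 28 * Real.exp (-30 * s) := by
    unfold ep; field_simp
  have h5 : 22 * Real.exp (-30 * s) / ep ^ 2 = 22 * 10 ^ 56 * Real.exp (-30 * s) := by
    unfold ep; field_simp
  rw [h4, h5]
  refine ⟨?_, by linarith, by linarith, ?_, fun k hk hk' => ?_⟩
  · have := Real.add_one_le_exp (Real.log n)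
    linarith
  · rw [hm]; exact Real.one_le_exp (by nlinarith)
  have h6 : k ≤ Real.exp ((s - 10) ^ 2) := by
    have e : Real.exp 87 * (n * Real.exp (-30 * s)) ≤ Real.exp ((s - 10) ^ 2) := by
      rw [hm, ← Real.exp_add]; exact Real.exp_le_exp.2 (by nlinarith)
    have e2 : 0 < n * Real.exp (-30 * s) := mul_pos hn0 hp
    nlinarith
  have h7 : Real.sqrt (Real.log k) ≤ s - 10 :=
    Real.sqrt_le_iff.2 ⟨by linarith, (Real.log_le_iff_le_exp (by linarith)).2 h6⟩
  have h8 : Real.exp 300 * Real.exp (-30 * s) ≤ Real.exp (-30 * Real.sqrt (Real.log k)) := by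
    rw [← Real.exp_add]; exact Real.exp_le_exp.2 (by linarith)
  nlinarith

end Pool.Agent.MP_6c3157_co.PD
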