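import Pool.Agent.MP_6c3157_co.PD.Basic

/-! Project PD, row PIG: a pin with three points in one fibre. -/

set_option autoImplicit false

noncomputable section

namespace Pool.Agent.MP_6c3157_co.PD

open Finset

open Classical in
theorem pig : PIG := by
  intro X _ lab Q A B hA hB hQ cA cB hZ
  have h1 : ∃ x ∈ B, ((Q.erase x).image (lab x)).card * 2 < (A.erase x).card := by
    by_contra hn
    push Not at hn
    have h2 : B.card • (Q.card / 8 - 1) ≤ ∑ x ∈ B, ((Q.erase x).image (lab x)).card * 2 :=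
      card_nsmul_le_sum _ _ _ fun x hx => le_trans (by rw [← cA]; exact pred_card_le_card_erase)
        (hn x hx)
    have h3 : ∑ x ∈ B, ((Q.erase x).image (lab x)).card ≤ Zs lab Q := sum_le_sum_of_subset hB
    rw [← sum_mul, cB, smul_eq_mul] at h2
    obtain ⟨k, hk⟩ : ∃ k, Q.card / 8 = k + 12 := ⟨Q.card / 8 - 12, by omega⟩
    have h4 : Q.card ≤ 8 * k + 103 := by omega
    have h5 : Q.card ^ 2 ≤ (8 * k + 103) ^ 2 := Nat.pow_le_pow_left h4 2
    rw [hk, show k + 12 - 1 = k + 11 by omega] at h2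
    nlinarith
  obtain ⟨x, hx, h2⟩ := h1
  obtain ⟨l, -, h3⟩ := exists_lt_card_fiber_of_mul_lt_card_of_maps_to (f := lab x)
    (fun a ha => mem_image_of_mem _ (erase_subset_erase x hA ha)) h2
  obtain ⟨a, ha, b, hb, c, hc, e1, e2, e3⟩ := two_lt_card.1 h3
  rw [mem_filter, mem_erase] at ha hb hc
  exact ⟨x, hx, a, ha.1.2, b, hb.1.2, c, hc.1.2, ha.1.1, hb.1.1, hc.1.1, e1, e2, e3,
    ha.2.trans hb.2.symm, ha.2.trans hc.2.symm⟩

end Pool.Agent.MP_6c3157_co.PD
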