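import Pool.Agent.MP_6c3157_co.PD.Basic

/-! Project PD, row PLC: the product formula in logarithmic form. -/

set_option autoImplicit false
set_option linter.unusedSectionVars false

noncomputable section

namespace Pool.Agent.MP_6c3157_co.PD

open Finset NumberField

theorem plc : PLC := by
  classical
  intro K _ _ F hF
  have hfin : (⋃ a ∈ F, Function.mulSupport fun w : FinitePlace K => w a).Finite :=
    F.finite_toSet.biUnion fun a ha => FinitePlace.hasFiniteMulSupport (hF a ha)
  refine ⟨hfin.toFinset, fun a ha => ?_⟩
  have h0 := hF a ha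
  have h := prod_abs_eq_one (K := K) h0
  rw [finprod_eq_prod_of_mulSupport_subset (s := hfin.toFinset) _ (by
    rw [Set.Finite.coe_toFinset]
    exact Set.subset_biUnion_of_mem (u := fun a => Function.mulSupport fun w : FinitePlace K => w a)
      (show a ∈ (F : Set K) from ha))] at h
  have p1 : ∀ v : InfinitePlace K, v a ≠ 0 := fun v => (v.1.pos h0).ne'
  have p2 : ∀ v : FinitePlace K, v a ≠ 0 := fun v => (v.1.pos h0).ne'
  have h2 := congrArg Real.log h
  rw [Real.log_mul (prod_ne_zero_iff.2 fun v _ => pow_ne_zero _ (p1 v))
    (prod_ne_zero_iff.2 fun v _ => p2 v), Real.log_prod (fun v _ => pow_ne_zero _ (p1 v)),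
    Real.log_prod (fun v _ => p2 v), Real.log_one] at h2
  simpa only [Real.log_pow] using h2

end Pool.Agent.MP_6c3157_co.PD
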