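import Pool.Agent.MP_6c3157_co.PD.Basic

/-! Project PD: the level sum is a logarithm. -/

set_option autoImplicit false

noncomputable section

namespace Pool.Agent.MP_6c3157_co.PD

open Finset

namespace Psi

/-- the level sum -/
def P (R s : ℝ) (J : ℕ) (u : ℝ) : ℝ := s * ∑ j ∈ range (J + 1), gg (u / lvl R s j)

variable {R s : ℝ} {J : ℕ}

theorem lvl_pos (hR : 0 < R) (j : ℕ) : 0 < lvl R s j := by unfold lvl; positivity

theorem anti (h : GG1) (hR : 0 < R) (hs : 0 < s) {t u : ℝ} (ht : 0 ≤ t) (htu : t ≤ u) :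
    P R s J u ≤ P R s J t := by
  unfold P
  refine mul_le_mul_of_nonneg_left (sum_le_sum fun j _ => ?_) hs.le
  have := lvl_pos (s := s) hR j
  exact h.1 _ _ (by positivity) (by gcongr)

theorem step (hR : 0 < R) (u : ℝ) : P R s J (u * Real.exp (-s)) =
    P R s J u + s * gg (u * Real.exp (-s) / R) - s * gg (u / lvl R s J) := by
  unfold P
  have e : ∀ j : ℕ, u * Real.exp (-s) / lvl R s (j + 1) = u / lvl R s j := fun j => by
    unfold lvl
    have : Real.exp (-(((j + 1 : ℕ) : ℝ) * s)) = Real.exp (-(j * s)) * Real.exp (-s) := by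
      rw [← Real.exp_add]; push_cast; ring_nf
    rw [this]
    field_simp
  have e0 : lvl R s 0 = R := by simp [lvl]
  rw [sum_range_succ' _ J, sum_range_succ _ J]
  simp only [e, e0]
  ring

end Psi

open Psi in
theorem psi (h : GG1) : PSI := by
  intro R s J lo hi t hs _ hlo hlt hth hR hJ
  have ht : 0 < t := hlo.trans_le hlt
  have hhi : 0 < hi := ht.trans_le hth
  have hL0 : 0 ≤ Real.log (hi / t) := Real.log_nonneg ((one_le_div ht).2 hth)
  have hL1 : Real.log (hi / t) ≤ Real.log (hi / lo) :=
    Real.log_le_log (by positivity) (by gcongr)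
  have hR0 : 0 < R := by
    have : 0 < s * R := lt_of_lt_of_le (mul_pos hhi (by linarith)) hR
    exact (mul_pos_iff_of_pos_left hs).1 this
  have hδ : Real.log (hi / t) * (hi / R) ≤ s := by
    rw [← mul_div_assoc, div_le_iff₀ hR0]
    nlinarith
  set L := Real.log (hi / t) with hL
  set k := ⌊L / s⌋₊ with hk
  have hk1 : (k : ℝ) * s ≤ L := (le_div_iff₀ hs).1 (Nat.floor_le (by positivity))
  have hk2 : L < (k + 1) * s := (div_lt_iff₀ hs).1 (Nat.lt_floor_add_one _)
  have et : hi * Real.exp (-L) = t := by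
    rw [Real.exp_neg, hL, Real.exp_log (by positivity)]
    field_simp
  have hu : ∀ i : ℕ, i ≤ k → t ≤ hi * Real.exp (-(i * s)) := fun i hi' => by
    rw [← et]
    have : (i : ℝ) ≤ k := by exact_mod_cast hi'
    gcongr
    nlinarith
  have key : ∀ i : ℕ, i ≤ k + 1 →
      P R s J hi + i * s * (1 - hi / R) ≤ P R s J (hi * Real.exp (-(i * s))) ∧
      P R s J (hi * Real.exp (-(i * s))) ≤ P R s J hi + i * s := by
    intro i
    induction i with
    | zero => intro _; simp
    | succ i ih =>
      intro hi1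
      obtain ⟨h1, h2⟩ := ih (by omega)
      have e : hi * Real.exp (-(((i + 1 : ℕ) : ℝ) * s)) =
          hi * Real.exp (-(i * s)) * Real.exp (-s) := by
        rw [mul_assoc, ← Real.exp_add]; push_cast; ring_nf
      have hz : gg (hi * Real.exp (-(i * s)) / lvl R s J) = 0 := by
        refine h.2.2 _ ?_
        rw [lt_div_iff₀ (lvl_pos hR0 J)]
        have := hu i (by omega)
        linarith
      have hb := h.2.1 (hi * Real.exp (-(i * s)) * Real.exp (-s) / R) (by positivity)
      have hc : hi * Real.exp (-(i * s)) * Real.exp (-s) / R ≤ hi / R := by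
        rw [← e]
        have : Real.exp (-(((i + 1 : ℕ) : ℝ) * s)) ≤ 1 :=
          Real.exp_le_one_iff.2 (neg_nonpos.2 (by positivity))
        gcongr
        nlinarith
      rw [e, step hR0, hz]
      push_cast
      constructor <;> nlinarith [hb.1, hb.2]
  have a1 := anti (J := J) h hR0 hs ht.le (hu k le_rfl)
  have a2 : P R s J t ≤ P R s J (hi * Real.exp (-(((k + 1 : ℕ) : ℝ) * s))) := by
    refine anti h hR0 hs (by positivity) ?_
    rw [← et]
    push_cast
    gcongr
  have b1 := (key k (by omega)).1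
  have b2 := (key (k + 1) le_rfl).2
  have e : Real.log hi - Real.log t = L := (Real.log_div hhi.ne' ht.ne').symm
  have hq : (k : ℝ) * s * (hi / R) ≤ s :=
    (mul_le_mul_of_nonneg_right hk1 (by positivity)).trans hδ
  change |P R s J t - (P R s J hi + Real.log hi - Real.log t)| ≤ 2 * s
  push_cast at a2 b2
  rw [abs_le]
  constructor <;> nlinarith

end Pool.Agent.MP_6c3157_co.PD
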