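import Pool.Agent.MP_6c3157_co.PD.Basic

/-! Project PD: the areas add up. -/

set_option autoImplicit false

noncomputable section

namespace Pool.Agent.MP_6c3157_co.PD

open Finset

theorem push_mem {X : Type} [Fintype X] (e : X → ℂ) (r : ℝ) (q : ℂ) (y : X) :
    y ∈ tr e r q ↔ ‖q - e y‖ ≤ r := by
  unfold tr; simp

theorem push_fin {X : Type} [Fintype X] (e : X → ℂ) (r : ℝ) (Φ : Finset X → Prop) (h : ¬ Φ ∅) :
    MeasureTheory.volume {q : ℂ | Φ (tr e r q)} ≠ ⊤ := by
  have h1 : Bornology.IsBounded (⋃ x, Metric.closedBall (e x) r) :=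
    Bornology.isBounded_iUnion.2 fun x => Metric.isBounded_closedBall
  refine (Bornology.IsBounded.measure_lt_top (h1.subset fun q hq => ?_)).ne
  obtain ⟨y, hy⟩ : (tr e r q).Nonempty := nonempty_iff_ne_empty.2 fun h0 => h (h0 ▸ hq)
  exact Set.mem_iUnion.2 ⟨y, mem_closedBall_iff_norm.2 ((push_mem e r q y).1 hy)⟩

theorem push_meas {X : Type} [Fintype X] (e : X → ℂ) (r : ℝ) (S : Finset X) :
    MeasurableSet {q : ℂ | tr e r q = S} := by
  have : {q : ℂ | tr e r q = S} = ⋂ x, {q : ℂ | ‖q - e x‖ ≤ r ↔ x ∈ S} := by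
    ext q
    simp only [Set.mem_ofPred_eq, Set.mem_iInter, Finset.ext_iff, push_mem]
  rw [this]
  refine MeasurableSet.iInter fun x => ?_
  have h1 : MeasurableSet {q : ℂ | ‖q - e x‖ ≤ r} :=
    (isClosed_le (by fun_prop) continuous_const).measurableSet
  by_cases hx : x ∈ S
  · simpa only [hx, iff_true] using h1
  · simp only [hx, iff_false]
    exact h1.compl

theorem push : PUSH := by
  intro X _ e r Φ h
  classical
  refine ⟨push_fin e r Φ h, ?_⟩
  have h1 : {q : ℂ | Φ (tr e r q)} = ⋃ S ∈ univ.filter Φ, {q : ℂ | tr e r q = S} := by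
    ext q; simp
  rw [h1, MeasureTheory.measure_biUnion_finset _ fun S _ => push_meas e r S,
    ENNReal.toReal_sum, sum_filter]
  · refine sum_congr rfl fun S _ => ?_
    unfold va
    congr
  · intro S hS
    exact push_fin e r (fun T => T = S) fun h0 => h (h0 ▸ (mem_filter.1 hS).2)
  · intro S _ T _ hne
    exact Set.disjoint_left.2 fun q h1 h2 => hne (h1.symm.trans h2)

end Pool.Agent.MP_6c3157_co.PD
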