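import Pool.Agent.MP_6c3157_co.PD.Basic

/-! Project PD: step A, summed over the places. -/

set_option autoImplicit false
set_option linter.unusedSectionVars false

noncomputable section

namespace Pool.Agent.MP_6c3157_co.PD

open Finset

theorem sa_rep {X : Type} [DecidableEq X] (Y : Finset X) (lab : X → X → ℝ) :
    ∃ rep : X → ℝ → X, ∀ x ∈ Y, ∀ y ∈ Y.erase x,
      rep x (lab x y) ∈ Y.erase x ∧ lab x (rep x (lab x y)) = lab x y := by
  classical
  refine ⟨fun x l => if h : ∃ y ∈ Y.erase x, lab x y = l then h.choose else x,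
    fun x _ y hy => ?_⟩
  have h : ∃ z ∈ Y.erase x, lab x z = lab x y := ⟨y, hy, rfl⟩
  simp only [dif_pos h]
  exact h.choose_spec

open Classical in
theorem sa (hP : SAP) (hG : LG) : SA := by
  intro X PL _ _ s hv Y h T σ γ hx hγ hσ
  have hs := hx.good
  have pc := hx.pc hγ
  obtain ⟨rep, hrep⟩ := sa_rep Y s.lab
  have hT := hx.Tlo
  have hxi := hs.xi_sum
  have hxb : ∑ p, s.m p * (s.c (s.bar p)).xi ≤ 20 := by
    rw [hs.sum_bar fun p => (s.c p).xi]; exact hxi
  have g1 : ∀ x ∈ Y, ∑ p, s.m p * (s.c p).G (γ p) x ≤ 4 * T + 60 := fun x hxY => by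
    have h1 := hs.sum_le fun p => (hG X _ hv Y _ (pc p)).1 x hxY
    have h2 := hx.Hle x hxY
    have h3 : ∑ p, s.m p * (4 * (s.c p).H hv x + 3 * (s.c p).xi) =
        4 * s.H hv x + 3 * ∑ p, s.m p * (s.c p).xi := by
      unfold Sys.H
      rw [mul_sum, mul_sum, ← sum_add_distrib]
      exact sum_congr rfl fun p _ => by ring
    linarith
  have g2 : ∀ x ∈ Y, ∑ p, s.m p * (s.c (s.bar p)).G (γ (s.bar p)) x ≤ 4 * T + 60 :=
    fun x hxY => by rw [hs.sum_bar fun p => (s.c p).G (γ p) x]; exact g1 x hxY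
  have l1 : Y.Nonempty → ∑ p, s.m p * (s.c p).Hlow hv (γ p) ≤ 1000 * T := fun hY => by
    have hn : (0 : ℝ) < Y.card := by exact_mod_cast hY.card_pos
    have h1 := hs.sum_le fun p => (hG X _ hv Y _ (pc p)).2
    have h2 : ∑ p, s.m p * ∑ y ∈ Y, (s.c p).H hv y = ∑ y ∈ Y, s.H hv y := by
      unfold Sys.H
      rw [sum_comm]
      exact sum_congr rfl fun p _ => mul_sum _ _ _
    have h3 : ∑ y ∈ Y, s.H hv y ≤ Y.card * T := by
      have := sum_le_card_nsmul Y _ T hx.Hle
      rwa [nsmul_eq_mul] at this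
    have h4 : ∑ p, s.m p * (tau * Y.card * (s.c p).Hlow hv (γ p)) =
        Y.card * (1 / 1000 * ∑ p, s.m p * (s.c p).Hlow hv (γ p)) := by
      rw [mul_sum, mul_sum]
      exact sum_congr rfl fun p _ => by unfold tau; ring
    have h5 := le_of_mul_le_mul_left (h4 ▸ (h1.trans (h2 ▸ h3))) hn
    linarith
  have l2 : Y.Nonempty → ∑ p, s.m p * (s.c (s.bar p)).Hlow hv (γ (s.bar p)) ≤ 1000 * T :=
    fun hY => by rw [hs.sum_bar fun p => (s.c p).Hlow hv (γ p)]; exact l1 hY
  refine (hs.sum_le fun p => hP X _ _ hv Y _ _ σ s.lab rep (pc p) (pc (s.bar p)) hσ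
    (hs.f1 p) hrep).trans ?_
  simp only [mul_add (s.m _) (∑ x ∈ Y, _), sum_add_distrib (s := univ)]
  refine add_le_add ?_ ?_
  · simp only [mul_sum]
    rw [sum_comm, Zs]
    push_cast
    rw [mul_sum]
    refine sum_le_sum fun x hxY => ?_
    rw [sum_comm, mul_comm, ← nsmul_eq_mul]
    refine sum_le_card_nsmul _ _ _ fun l hl => ?_
    obtain ⟨y, hy, rfl⟩ := mem_image.1 hl
    have hr := mem_erase.1 (hrep x hxY y hy).1
    have o1 : ∑ p, s.m p * (s.c p).o hv x (rep x (s.lab x y)) ≤ T :=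
      hx.Ole x hxY _ hr.2 hr.1.symm
    have o2 : ∑ p, s.m p * (s.c (s.bar p)).o hv x (rep x (s.lab x y)) ≤ T := by
      rw [hs.sum_bar fun p => (s.c p).o hv x (rep x (s.lab x y))]; exact o1
    have a1 := g1 x hxY
    have a2 := g2 x hxY
    have a3 := l1 ⟨x, hxY⟩
    have a4 := l2 ⟨x, hxY⟩
    have e : 38 * T / tau = 38000 * T := by unfold tau; ring
    rw [e]
    simp only [mul_add, mul_left_comm (s.m _), sum_add_distrib, ← mul_sum]
    linarith
  · simp only [mul_left_comm (s.m _), ← mul_sum]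
    have h1 : ∑ p, s.m p * ∑ y ∈ Y, ((s.c (s.bar p)).G (γ (s.bar p)) y + 2 * (s.c p).xi +
        (s.c (s.bar p)).xi) ≤ Y.card * (10 * T) := by
      simp only [mul_sum]
      rw [sum_comm, ← nsmul_eq_mul]
      refine sum_le_card_nsmul _ _ _ fun y hy => ?_
      have a2 := g2 y hy
      simp only [mul_add, mul_left_comm (s.m _), sum_add_distrib, ← mul_sum]
      linarith
    have h2 : 0 ≤ σ * Y.card := by positivity
    nlinarith [mul_le_mul_of_nonneg_left h1 h2]

end Pool.Agent.MP_6c3157_co.PD
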