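import Pool.Agent.MP_6c3157_co.PD.Basic

/-! Project PD: deep small cells through a pair. -/

set_option autoImplicit false
set_option linter.unusedSectionVars false

noncomputable section

namespace Pool.Agent.MP_6c3157_co.PD

open Finset

theorem san_log {X : Type} [DecidableEq X] {c c' : Cells X} {Y : Finset X} {γ γ' : Geo X}
    (hc : c.Good) (hc' : c'.Good) (hg : γ.Good c Y) (hg' : γ'.Good c' Y) {x y : X} (h : x ≠ y) :
    Real.log (c.lam * (γ.r * Real.exp (-(max 0 (Real.log (γ.r * γ'.r / (c.d x y * c'.d x y))) +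
      c'.G γ' x))) / c.d x y) ≤ c'.G γ' y + c.xi + c'.xi := by
  have d1 := hc.d_pos h
  have d2 := hc'.d_pos h
  have r1 := hg.r_pos hc
  have r2 := hg'.r_pos hc'
  have l1 := hc.lam_pos
  have l2 := hc'.lam_pos
  have g1 : 0 ≤ c'.G γ' x := Cells.G_nonneg _ _
  have g2 : 0 ≤ c'.G γ' y := Cells.G_nonneg _ _
  have h1 : c'.d x y ≤ c'.lam * (γ'.r * Real.exp (c'.G γ' x + c'.G γ' y)) := by
    refine (hc'.d_tri x γ'.cen y).trans (mul_le_mul_of_nonneg_left (max_le ?_ ?_) l2.le)
    · refine (hg'.d_le hc' x).trans ?_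
      gcongr; linarith
    · rw [hc'.d_symm]
      refine (hg'.d_le hc' y).trans ?_
      gcongr; linarith
  have h2 := Real.log_le_log d2 h1
  rw [Real.log_mul l2.ne' (by positivity), Real.log_mul r2.ne' (by positivity),
    Real.log_exp] at h2
  have h3 := le_max_right 0 (Real.log (γ.r * γ'.r / (c.d x y * c'.d x y)))
  generalize max 0 (Real.log (γ.r * γ'.r / (c.d x y * c'.d x y))) = m at h3 ⊢
  rw [Real.log_div (by positivity) (by positivity), Real.log_mul r1.ne' r2.ne',
    Real.log_mul d1.ne' d2.ne'] at h3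
  rw [Real.log_div (by positivity) d1.ne', Real.log_mul l1.ne' (by positivity),
    Real.log_mul r1.ne' (by positivity), Real.log_exp]
  linarith [hc.log_lam, hc'.log_lam]

theorem san : SAN := by
  intro X _ c c' hv Y γ γ' σ h h' hσ y hy
  classical
  have hc := h.good
  have hc' := h'.good
  have g2 : 0 ≤ c'.G γ' y := Cells.G_nonneg _ _
  have x1 := hc.xi_nonneg
  have x2 := hc'.xi_nonneg
  set N := (Y.erase y).filter fun x => ((c.ball Y y (c.d y x)).card : ℝ) < σ * Y.card with hN
  have hcard : (N.card : ℝ) ≤ σ * Y.card := by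
    rcases N.eq_empty_or_nonempty with h0 | h0
    · rw [h0, card_empty, Nat.cast_zero]; positivity
    · obtain ⟨x, hx, hm⟩ := exists_max_image N (c.d y) h0
      refine le_trans ?_ (mem_filter.1 hx).2.le
      exact_mod_cast card_le_card fun z hz =>
        Cells.mem_ball.2 ⟨mem_of_mem_erase (mem_filter.1 hz).1, hm z hz⟩
  rw [← sum_subset (filter_subset _ _ : N ⊆ Y.erase y)]
  · refine (sum_le_card_nsmul N _ (c'.G γ' y + 2 * c.xi + c'.xi) fun x hx => ?_).trans ?_
    · have hxy : x ≠ y := ne_of_mem_erase (mem_filter.1 hx).1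
      refine (Cells.W_mono hc fun i _ hi => hi.2).trans ((hc.pair_below hxy _).trans ?_)
      have h1 := san_log hc hc' h.geo h'.geo hxy
      have h2 := max_le (show (0 : ℝ) ≤ c'.G γ' y + c.xi + c'.xi by positivity) h1
      linarith [hc.eta_hi]
    · rw [nsmul_eq_mul]
      gcongr
  · intro x hx hn
    refine Cells.W_zero fun i hi hj => hn (mem_filter.2 ⟨hx, lt_of_le_of_lt ?_
      (hj.1.2 y hy hj.2.2.1)⟩)
    exact Nat.cast_le.2 <| card_le_card fun z hz => Cells.mem_ball.2 ⟨(Cells.mem_ball.1 hz).1,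
      (Cells.mem_ball.1 hz).2.trans (hc.c1 i hi y hj.2.2.1 x hj.2.1)⟩

end Pool.Agent.MP_6c3157_co.PD
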