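import Pool.Agent.MP_6c3157_co.PD.Basic

/-! Project PD: step A at one place. -/

set_option autoImplicit false
set_option linter.unusedSectionVars false

noncomputable section

namespace Pool.Agent.MP_6c3157_co.PD

open Finset

variable {X : Type} [DecidableEq X]

open Classical in
/-- the labels seen inside a set: either the set is wide for the fibre, or a point pays -/
theorem sap_count (lab : X → X → ℝ) (rep : X → ℝ → X) (Y S : Finset X) (t : ℝ)
    (r0 : X → X → ℝ)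
    (hr : ∀ x ∈ Y, ∀ y ∈ Y.erase x, r0 x (rep x (lab x y)) = r0 x y) :
    (Zs lab (Y ∩ S) : ℝ) ≤
      ∑ x ∈ Y, ((∑ l ∈ (Y.erase x).image (lab x),
          if x ∈ S ∧ r0 x (rep x l) ≤ t then (1 : ℝ) else 0) +
        ∑ y ∈ Y.erase x, if x ∈ S ∧ y ∈ S ∧ t < r0 x y then (1 : ℝ) else 0) := by
  unfold Zs
  push_cast
  refine le_trans (sum_le_sum fun x hx => ?_)
    (sum_le_sum_of_subset_of_nonneg (inter_subset_left (s₂ := S)) fun x _ _ => ?_)
  · have hxY := (mem_inter.1 hx).1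
    have hxS := (mem_inter.1 hx).2
    have hsub : ((Y ∩ S).erase x).image (lab x) ⊆
        (((Y.erase x).image (lab x)).filter fun l => x ∈ S ∧ r0 x (rep x l) ≤ t) ∪
          ((Y.erase x).filter fun y => x ∈ S ∧ y ∈ S ∧ t < r0 x y).image (lab x) := by
      intro l hl
      obtain ⟨y, hy, rfl⟩ := mem_image.1 hl
      have hy1 : y ∈ Y.erase x :=
        mem_erase.2 ⟨(mem_erase.1 hy).1, (mem_inter.1 (mem_erase.1 hy).2).1⟩
      have hy2 : y ∈ S := (mem_inter.1 (mem_erase.1 hy).2).2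
      rcases le_or_gt (r0 x y) t with h | h
      · refine mem_union_left _ (mem_filter.2 ⟨mem_image_of_mem _ hy1, hxS, ?_⟩)
        rw [hr x hxY y hy1]; exact h
      · exact mem_union_right _ (mem_image_of_mem _ (mem_filter.2 ⟨hy1, hxS, hy2, h⟩))
    have h1 := (card_le_card hsub).trans
      ((card_union_le _ _).trans (Nat.add_le_add_left card_image_le _))
    rw [card_filter, card_filter] at h1
    exact_mod_cast h1
  · refine add_nonneg (sum_nonneg fun _ _ => ?_) (sum_nonneg fun _ _ => ?_) <;>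
      split_ifs <;> norm_num

theorem sap (hT : LTA) (hN : SAN) : SAP := by
  classical
  intro X _ c c' hv Y γ γ' σ lab rep hp hp' hσ hf hrep
  have hc := hp.good
  have hc' := hp'.good
  have hr := hp.geo.r_pos hc
  have hr' := hp'.geo.r_pos hc'
  set r0 : X → X → ℝ := fun x y => γ.r * Real.exp (-(max 0
    (Real.log (γ.r * γ'.r / (c.d x y * c'.d x y))) + c'.G γ' x)) with hr0
  have hinv : ∀ x ∈ Y, ∀ y ∈ Y.erase x, r0 x (rep x (lab x y)) = r0 x y := by
    intro x hx y hy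
    obtain ⟨h1, h2⟩ := hrep x hx y hy
    simp only [hr0]
    rw [hf x _ y (mem_erase.1 h1).1 (mem_erase.1 hy).1 h2]
  refine le_trans (Cells.WS_le hc fun i _ _ => sap_count lab rep Y i.2 (c.ρ i) r0 hinv) ?_
  rw [Cells.WS_sum]
  simp only [Cells.WS_add, Cells.WS_sum]
  rw [sum_add_distrib]
  refine add_le_add (sum_le_sum fun x hx => sum_le_sum fun l hl => ?_) ?_
  · obtain ⟨y, hy, rfl⟩ := mem_image.1 hl
    obtain ⟨h1, -⟩ := hrep x hx y hy
    set z := rep x (lab x y) with hz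
    have hzx : x ≠ z := (mem_erase.1 h1).1.symm
    have hzY : z ∈ Y := (mem_erase.1 h1).2
    have e1 : c.WS (c.small hv Y σ) (fun i => if x ∈ i.2 ∧ r0 x z ≤ c.ρ i then (1 : ℝ) else 0) ≤
        c.W (fun i => ¬ hv i ∧ x ∈ i.2 ∧ r0 x z ≤ c.ρ i) := by
      rw [Cells.W_eq_WS, Cells.WS_split fun i => x ∈ i.2 ∧ r0 x z ≤ c.ρ i]
      have e0 : c.WS (fun i => c.small hv Y σ i ∧ ¬ (x ∈ i.2 ∧ r0 x z ≤ c.ρ i))
          (fun i => if x ∈ i.2 ∧ r0 x z ≤ c.ρ i then (1 : ℝ) else 0) = 0 := by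
        rw [Cells.WS_congr (ψ := fun i => c.small hv Y σ i ∧ ¬ (x ∈ i.2 ∧ r0 x z ≤ c.ρ i))
          (f' := fun _ => 0) (fun _ _ => Iff.rfl) fun i _ h => if_neg h.2, Cells.WS_const]
        ring
      rw [e0, add_zero]
      exact Cells.WS_mono hc (fun i _ h => ⟨⟨h.1.1, h.2⟩, by rw [if_pos h.2]⟩)
        fun _ _ _ => zero_le_one
    have hpos : 0 < r0 x z := mul_pos hr (Real.exp_pos _)
    have e2 := (hT X c hv Y γ hp).1 x hx (r0 x z) hpos
    have e3 : Real.log (γ.r / r0 x z) =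
        max 0 (Real.log (γ.r * γ'.r / (c.d x z * c'.d x z))) + c'.G γ' x := by
      simp only [hr0]
      rw [div_mul_cancel_left₀ hr.ne', ← Real.exp_neg, neg_neg, Real.log_exp]
    have e4 := (hT X c hv Y γ hp).2 x hx z hzY hzx
    have e5 := (hT X c' hv Y γ' hp').2 x hx z hzY hzx
    have hd := hc.d_pos hzx
    have hd' := hc'.d_pos hzx
    have e6 : Real.log (γ.r * γ'.r / (c.d x z * c'.d x z)) =
        Real.log (γ.r / c.d x z) + Real.log (γ'.r / c'.d x z) := by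
      rw [← Real.log_mul (div_pos hr hd).ne' (div_pos hr' hd').ne', div_mul_div_comm]
    have n1 : 0 ≤ c.o hv x z := Cells.o_nonneg hc x z
    have n2 : 0 ≤ c'.o hv x z := Cells.o_nonneg hc' x z
    have n3 : 0 ≤ c.Hlow hv γ := Cells.Hlow_nonneg hc γ
    have n4 : 0 ≤ c'.Hlow hv γ' := Cells.Hlow_nonneg hc' γ'
    have n5 := hc.xi_nonneg
    have n6 := hc'.xi_nonneg
    have n7 : 0 ≤ c.G γ x := Cells.G_nonneg γ x
    have n8 : 0 ≤ c'.G γ' x := Cells.G_nonneg γ' x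
    have e7 : max 0 (Real.log (γ.r * γ'.r / (c.d x z * c'.d x z))) ≤
        4 * (c.o hv x z + c.Hlow hv γ) + 3 * c.xi +
          (4 * (c'.o hv x z + c'.Hlow hv γ') + 3 * c'.xi) :=
      max_le (by positivity) (by rw [e6]; exact add_le_add e4 e5)
    have e8 : max 0 (Real.log (γ.r / r0 x z) + c.G γ x) ≤
        4 * (c.o hv x z + c.Hlow hv γ) + 3 * c.xi +
          (4 * (c'.o hv x z + c'.Hlow hv γ') + 3 * c'.xi) + c'.G γ' x + c.G γ x :=
      max_le (by positivity) (by rw [e3]; linarith)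
    linarith
  · have e1 : ∀ x y : X, c.WS (c.small hv Y σ)
        (fun i => if x ∈ i.2 ∧ y ∈ i.2 ∧ c.ρ i < r0 x y then (1 : ℝ) else 0) ≤
        c.W (fun i => c.small hv Y σ i ∧ x ∈ i.2 ∧ y ∈ i.2 ∧ c.ρ i < r0 x y) := by
      intro x y
      rw [Cells.W_eq_WS, Cells.WS_split fun i => x ∈ i.2 ∧ y ∈ i.2 ∧ c.ρ i < r0 x y]
      have e0 : c.WS (fun i => c.small hv Y σ i ∧ ¬ (x ∈ i.2 ∧ y ∈ i.2 ∧ c.ρ i < r0 x y))
          (fun i => if x ∈ i.2 ∧ y ∈ i.2 ∧ c.ρ i < r0 x y then (1 : ℝ) else 0) = 0 := by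
        rw [Cells.WS_congr
          (ψ := fun i => c.small hv Y σ i ∧ ¬ (x ∈ i.2 ∧ y ∈ i.2 ∧ c.ρ i < r0 x y))
          (f' := fun _ => 0) (fun _ _ => Iff.rfl) fun i _ h => if_neg h.2, Cells.WS_const]
        ring
      rw [e0, add_zero]
      exact Cells.WS_mono hc (fun i _ h => ⟨h, by rw [if_pos h.2]⟩) fun _ _ _ => zero_le_one
    refine le_trans (sum_le_sum fun x _ => sum_le_sum fun y _ => e1 x y) ?_
    rw [sum_erase_comm, mul_sum]
    exact sum_le_sum fun y hy => hN X c c' hv Y γ γ' σ hp hp' hσ y hy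

end Pool.Agent.MP_6c3157_co.PD
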