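import Pool.Agent.MP_6c3157_co.PD.Basic

/-! Project PD: the low second moment is small. -/

set_option autoImplicit false
set_option linter.unusedSectionVars false

noncomputable section

namespace Pool.Agent.MP_6c3157_co.PD

open Finset

theorem sbone_num {U E D Th Z A B C T σ n : ℝ} (hT : 20 ≤ T) (hσ : 0 < σ) (hn : 0 < n)
    (hZ : Z ≤ ep * σ * n ^ 2) (hTh : Th ≤ ep * T * n ^ 2)
    (hD : D ≤ 9 * T / σ * Z + 4 * ep * n ^ 2 + 2 * Th)
    (hE : E ≤ 4 * ep * n ^ 2 + 256 / tau ^ 2 * D + 64 / tau * Th)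
    (hA : A ≤ ep * n ^ 2) (hB : B ≤ 7 * (ep * T * n ^ 2)) (hC : C ≤ 1000 * (ep * T * n ^ 2))
    (hU : tau ^ 2 / 4 * U ≤ 2 * E + A + B + C) : U ≤ 1 / 10 ^ 11 * T * n ^ 2 := by
  have h1 : 9 * T / σ * Z ≤ 9 * (ep * T * n ^ 2) := by
    refine (mul_le_mul_of_nonneg_left hZ (by positivity)).trans_eq ?_
    field_simp
  have h2 : ep * n ^ 2 ≤ ep * T * n ^ 2 := by
    have := mul_le_mul_of_nonneg_left (show (1 : ℝ) ≤ T by linarith)
      (mul_pos ep_pos (pow_pos hn 2)).le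
    linarith
  have h3 : 0 ≤ T * n ^ 2 := by positivity
  have h4 : ep * T * n ^ 2 = 1 / 10 ^ 28 * (T * n ^ 2) := by unfold ep; ring
  have h5 : (256 : ℝ) / tau ^ 2 = 256000000 := by unfold tau; norm_num
  have h6 : (64 : ℝ) / tau = 64000 := by unfold tau; norm_num
  have h7 : tau ^ 2 / 4 = 1 / 4000000 := by unfold tau; norm_num
  rw [h5, h6] at hE
  rw [h7] at hU
  have h8 : 4 * ep * n ^ 2 = 4 * (ep * n ^ 2) := by ring
  rw [h8] at hD hE
  rw [mul_assoc]
  generalize ep * n ^ 2 = a at *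
  generalize ep * T * n ^ 2 = b at *
  generalize T * n ^ 2 = c at *
  linarith

theorem sbone (hG : LG) (hU : UBP) (hB : B1S) (hE : ERS) : SB1 := by
  intro X PL _ _ s hv Y h T σ γ hx hγ hσ1 hσ hZ hTh
  have hs := hx.good
  have hT := hx.Tlo
  have he := ep_pos
  have hn0 : (0 : ℝ) ≤ Y.card := Nat.cast_nonneg _
  have hσn : 0 < σ * Y.card := pos_of_mul_pos_left (by linarith : 0 < (σ * Y.card) * ep) he.le
  have hσ0 : 0 < σ := pos_of_mul_pos_left hσn hn0
  have hn : (0 : ℝ) < Y.card := pos_of_mul_pos_right hσn hσ0.le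
  have h2 : 2 ≤ σ * Y.card := by
    have : ep * (σ * Y.card) ≤ 1 / 2 * (σ * Y.card) :=
      mul_le_mul_of_nonneg_right (by unfold ep; norm_num) hσn.le
    linarith
  have hen : 1 ≤ ep * Y.card :=
    hσ.trans (mul_le_mul_of_nonneg_left (mul_le_of_le_one_left hn0 hσ1) he.le)
  obtain ⟨b1, b2⟩ := hB X PL s hv Y h T σ hx h2 hσ1
  have e1 := hE X PL s hv Y h T σ γ hx hγ
  refine sbone_num hT hσ0 hn hZ hTh b2 e1
    (A := ∑ p, s.m p * ((Y.card : ℝ) ^ 2 * (s.c p).eta)) (B := ∑ y ∈ Y, s.Olg hv Y σ y y)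
    (C := ∑ p, s.m p * (Y.card * (s.c p).Hlow hv (γ p))) ?_ ?_ ?_ ?_
  · have : ∑ p, s.m p * ((Y.card : ℝ) ^ 2 * (s.c p).eta) =
        (∑ p, s.m p * (s.c p).eta) * (Y.card : ℝ) ^ 2 := by
      rw [sum_mul]; exact sum_congr rfl fun p _ => by ring
    rw [this]
    exact mul_le_mul_of_nonneg_right hs.eta_sum (by positivity)
  · refine (sum_le_card_nsmul Y _ _ b1).trans ?_
    rw [nsmul_eq_mul, mul_div_assoc', div_le_iff₀ hσ0]
    have := mul_le_mul_of_nonneg_left hσ (show 0 ≤ 7 * T * Y.card by positivity)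
    linarith
  · have k1 : ∑ p, s.m p * (tau * Y.card * (s.c p).Hlow hv (γ p)) ≤
        ∑ p, s.m p * ∑ y ∈ Y, (s.c p).H hv y :=
      hs.sum_le fun p => (hG X _ hv Y _ (hx.pc hγ p)).2
    have k2 : ∑ p, s.m p * ∑ y ∈ Y, (s.c p).H hv y = ∑ y ∈ Y, s.H hv y := by
      unfold Sys.H
      rw [sum_comm]
      exact sum_congr rfl fun p _ => mul_sum _ _ _
    have k3 := sum_le_card_nsmul Y _ _ hx.Hle
    rw [nsmul_eq_mul] at k3
    have k4 : ∑ p, s.m p * (Y.card * (s.c p).Hlow hv (γ p)) =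
        1000 * ∑ p, s.m p * (tau * Y.card * (s.c p).Hlow hv (γ p)) := by
      rw [mul_sum]; exact sum_congr rfl fun p _ => by unfold tau; ring
    have k5 := mul_le_mul_of_nonneg_left hen (show 0 ≤ T * Y.card by positivity)
    rw [k4]
    linarith
  · have k1 : tau ^ 2 / 4 * s.U hv Y σ γ =
        ∑ p, s.m p * (tau ^ 2 / 4 * (s.c p).ulow hv Y σ (γ p)) := by
      unfold Sys.U
      rw [mul_sum]; exact sum_congr rfl fun p _ => by ring
    have k2 : ∑ y ∈ Y, s.Olg hv Y σ y y = ∑ p, s.m p * ∑ y ∈ Y, (s.c p).olg hv Y σ y y := by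
      unfold Sys.Olg
      rw [sum_comm]
      exact sum_congr rfl fun p _ => (mul_sum _ _ _).symm
    rw [k1, k2, mul_sum, ← sum_add_distrib, ← sum_add_distrib, ← sum_add_distrib]
    refine sum_le_sum fun p _ => ?_
    have u := hU X _ _ hv Y _ _ σ (hx.pc hγ p) (hx.pc hγ (s.bar p)) (hs.lam_bar p)
    have u1 : ∑ x ∈ Y, ∑ y ∈ Y.erase x,
        (2 * err (s.c p) (s.c (s.bar p)) (γ p) (γ (s.bar p)) x y + (s.c p).eta) ≤
        2 * (∑ x ∈ Y, ∑ y ∈ Y.erase x, err (s.c p) (s.c (s.bar p)) (γ p) (γ (s.bar p)) x y) +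
          (Y.card : ℝ) ^ 2 * (s.c p).eta := by
      have : (Y.card : ℝ) ^ 2 * (s.c p).eta = ∑ _x ∈ Y, (Y.card : ℝ) * (s.c p).eta := by
        rw [sum_const, nsmul_eq_mul]; ring
      rw [this, mul_sum, ← sum_add_distrib]
      refine sum_le_sum fun x _ => ?_
      rw [sum_add_distrib, mul_sum, sum_const, nsmul_eq_mul]
      have : ((Y.erase x).card : ℝ) ≤ Y.card := by exact_mod_cast card_erase_le
      have := mul_le_mul_of_nonneg_right this (hs.good p).eta_lo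
      linarith
    rw [sum_add_distrib, sum_const, nsmul_eq_mul] at u
    have := mul_le_mul_of_nonneg_left (u.trans (add_le_add u1 le_rfl)) (hs.m_lo p)
    linarith

end Pool.Agent.MP_6c3157_co.PD
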