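import Pool.Agent.MP_6c3157_co.PD.Basic

/-! Project PD, row SB2: the contradiction of step B. -/

set_option autoImplicit false
set_option linter.unusedSectionVars false

namespace Pool.Agent.MP_6c3157_co.PD

open Finset

theorem sbtwo_swap {X PL : Type} [DecidableEq X] [Fintype PL] (m : PL → ℝ) (Y : Finset X)
    (f : PL → X → X → ℝ) : ∑ p, m p * (∑ x ∈ Y, ∑ y ∈ Y.erase x, f p x y) =
      ∑ x ∈ Y, ∑ y ∈ Y.erase x, ∑ p, m p * f p x y := by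
  simp only [mul_sum]
  rw [sum_comm]
  exact sum_congr rfl fun x _ => sum_comm

theorem sbtwo (hW : WU) (hA : AR) : SB2 := by
  intro X PL _ _ s hv Y h T σ γ hx hγ hn hT hU
  have hs := hx.good
  have hxi := hs.xi_sum
  have hg := hs.g_sum
  have hT0 := hx.Tlo
  set n : ℝ := (Y.card : ℝ) with hnd
  have hn' : (10 : ℝ) ^ 8 ≤ n := by rw [hnd]; exact_mod_cast hn
  have hn0 : 0 < n := lt_of_lt_of_le (by norm_num) hn'
  have eTh : ∑ p, s.m p * (∑ x ∈ Y, ∑ y ∈ Y.erase x, (s.c p).osm hv Y σ x y) = s.Th hv Y σ :=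
    sbtwo_swap s.m Y fun p => (s.c p).osm hv Y σ
  have eO : ∑ p, s.m p * (∑ x ∈ Y, ∑ y ∈ Y.erase x, (s.c p).o hv x y) =
      ∑ x ∈ Y, ∑ y ∈ Y.erase x, s.O hv x y := sbtwo_swap s.m Y fun p => (s.c p).o hv
  have eH : ∑ p, s.m p * ∑ y ∈ Y, (s.c p).H hv y ≤ n * T := by
    have : ∑ p, s.m p * ∑ y ∈ Y, (s.c p).H hv y = ∑ y ∈ Y, s.H hv y := by
      simp only [mul_sum]
      exact sum_comm
    rw [this, hnd, ← nsmul_eq_mul]
    exact sum_le_card_nsmul Y _ T hx.Hle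
  have h1 := hs.sum_le fun p => hW X (s.c p) hv Y (γ p) σ (hx.pc hγ p)
  have h2 := hs.sum_le fun p => hA X (s.c p) hv Y (γ p) σ (hx.pc hγ p)
  have e1 : ∑ p, s.m p * ((∑ x ∈ Y, ∑ y ∈ Y.erase x, (s.c p).osm hv Y σ x y) +
      9 * (s.c p).ulow hv Y σ (γ p) + 22 * (s.c p).xi * n ^ 2 +
      tau * n * ∑ y ∈ Y, (5 * (s.c p).H hv y + 5 * (s.c p).xi)) =
      s.Th hv Y σ + 9 * s.U hv Y σ γ + (22 + 5 * tau) * n ^ 2 * ∑ p, s.m p * (s.c p).xi +
        5 * tau * n * ∑ p, s.m p * ∑ y ∈ Y, (s.c p).H hv y := by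
    rw [← eTh, Sys.U, mul_sum, mul_sum, mul_sum, ← sum_add_distrib, ← sum_add_distrib,
      ← sum_add_distrib]
    refine sum_congr rfl fun p _ => ?_
    rw [sum_add_distrib, ← mul_sum, sum_const, nsmul_eq_mul, ← hnd]
    ring
  have e2 : ∑ p, s.m p * ((s.c p).ulow hv Y σ (γ p) +
      (∑ x ∈ Y, ∑ y ∈ Y.erase x, (s.c p).osm hv Y σ x y) + 2 * (s.c p).xi * n) =
      s.U hv Y σ γ + s.Th hv Y σ + 2 * n * ∑ p, s.m p * (s.c p).xi := by
    rw [← eTh, Sys.U, mul_sum, ← sum_add_distrib, ← sum_add_distrib]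
    exact sum_congr rfl fun p _ => by ring
  have e3 : ∑ p, s.m p * ((s.c p).g * n ^ 2 / 2) = n ^ 2 / 2 * ∑ p, s.m p * (s.c p).g := by
    rw [mul_sum]
    exact sum_congr rfl fun p _ => by ring
  rw [eO, e1] at h1
  rw [e2, e3] at h2
  have h3 : n * ((n - 1) * ((T - 1680) / 17)) ≤ ∑ x ∈ Y, ∑ y ∈ Y.erase x, s.O hv x y := by
    rw [hnd, ← nsmul_eq_mul]
    refine card_nsmul_le_sum Y _ _ fun x hx' => ?_
    rw [← cast_card_erase_of_mem hx', ← nsmul_eq_mul]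
    refine card_nsmul_le_sum _ _ _ fun y hy => ?_
    have := hx.Thi x hx' y (mem_of_mem_erase hy) (ne_of_mem_erase hy).symm
    linarith
  have hq : 0 < n ^ 2 := by positivity
  have hnn : n ≤ n ^ 2 / 10 ^ 8 := by rw [le_div_iff₀ (by norm_num)]; nlinarith
  have a1 : (22 + 5 * tau) * n ^ 2 * ∑ p, s.m p * (s.c p).xi ≤ (22 + 5 * tau) * n ^ 2 * 20 :=
    mul_le_mul_of_nonneg_left hxi (by have := tau_pos; positivity)
  have a2 : 5 * tau * n * ∑ p, s.m p * ∑ y ∈ Y, (s.c p).H hv y ≤ 5 * tau * n * (n * T) :=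
    mul_le_mul_of_nonneg_left eH (by have := tau_pos; positivity)
  have a3 : 2 * n * ∑ p, s.m p * (s.c p).xi ≤ 2 * n * 20 :=
    mul_le_mul_of_nonneg_left hxi (by positivity)
  have a4 : n ^ 2 / 2 * (1 / 40000) ≤ n ^ 2 / 2 * ∑ p, s.m p * (s.c p).g :=
    mul_le_mul_of_nonneg_left hg (by positivity)
  unfold tau at a1 a2 h1
  unfold ep at hT
  have a5 : n * T ≤ n ^ 2 / 10 ^ 8 * T := mul_le_mul_of_nonneg_right hnn (by linarith)
  have hT1 : T * n ^ 2 ≤ 34000 * n ^ 2 := by nlinarith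
  nlinarith

end Pool.Agent.MP_6c3157_co.PD
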