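import Pool.Agent.MP_6c3157_co.PD.Basic

/-! Project PD, row SEL: the selection of a small cell. -/

set_option autoImplicit false

noncomputable section

namespace Pool.Agent.MP_6c3157_co.PD

open Finset

theorem sel_th {X PL : Type} [DecidableEq X] [Fintype PL] (s : Sys X PL)
    (hv : ℕ × Finset X → Prop) (Y : Finset X) (σ : ℝ) :
    s.Th hv Y σ = ∑ p, s.m p * (s.c p).WS ((s.c p).small hv Y σ)
      fun i => ((Y ∩ i.2).card : ℝ) * (((Y ∩ i.2).card : ℝ) - 1) := by
  unfold Sys.Th Sys.Osm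
  rw [sum_congr rfl fun x _ => sum_comm, sum_comm]
  refine sum_congr rfl fun p _ => ?_
  rw [← Cells.sum2_W, mul_sum]
  exact sum_congr rfl fun x _ => (mul_sum _ _ _).symm

theorem sel : SEL := by
  intro X PL _ _ s hv Y σ a hs h0 h1
  have key : ∀ r : ℝ, (∀ S ⊆ Y, 2 ≤ S.card → (S.card : ℝ) < σ * Y.card →
      r * (S.card * (S.card - 1)) ≤ Zs s.lab S) → r ≤ a := fun r hr => by
    refine le_of_mul_le_mul_right (le_trans ?_ h1) h0
    rw [sel_th, mul_sum]
    refine sum_le_sum fun p _ => ?_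
    rw [mul_left_comm, ← Cells.WS_mul]
    refine mul_le_mul_of_nonneg_left (Cells.WS_le (hs.good p) fun i hi hm => ?_) (hs.m_lo p)
    by_cases h2 : 2 ≤ (Y ∩ i.2).card
    · obtain ⟨y, hy⟩ := card_pos.1 (show 0 < (Y ∩ i.2).card by omega)
      refine hr _ inter_subset_left h2 (lt_of_le_of_lt ?_
        (hm.2 y (mem_inter.1 hy).1 (mem_inter.1 hy).2))
      exact_mod_cast card_le_card (Cells.inter_subset_ball (hs.good p) hi (mem_inter.1 hy).2)
    · rcases (show (Y ∩ i.2).card = 0 ∨ (Y ∩ i.2).card = 1 by omega) with e | e <;> simp [e]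
  classical
  by_cases hF : (Y.powerset.filter fun S => 2 ≤ S.card ∧ (S.card : ℝ) < σ * Y.card).Nonempty
  · obtain ⟨S, hS, hm⟩ := exists_min_image _
      (fun S : Finset X => (Zs s.lab S : ℝ) / (S.card * (S.card - 1))) hF
    have pos : ∀ S : Finset X, 2 ≤ S.card → (0 : ℝ) < S.card * (S.card - 1) := fun S h => by
      have : (2 : ℝ) ≤ S.card := by exact_mod_cast h
      exact mul_pos (by linarith) (by linarith)
    obtain ⟨h2, h3, h4⟩ := mem_filter.1 hS
    refine ⟨S, mem_powerset.1 h2, h3, h4, (div_le_iff₀ (pos S h3)).1 (key _ fun S' k1 k2 k3 => ?_)⟩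
    exact (le_div_iff₀ (pos S' k2)).1 (hm S' (mem_filter.2 ⟨mem_powerset.2 k1, k2, k3⟩))
  · have := key (a + 1) fun S k1 k2 k3 =>
      (hF ⟨S, mem_filter.2 ⟨mem_powerset.2 k1, k2, k3⟩⟩).elim
    linarith

end Pool.Agent.MP_6c3157_co.PD
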