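import Pool.Agent.MP_6c3157_co.PD.Basic

/-! Project PD, row SYS: the system of a configuration over a number field. -/

set_option autoImplicit false
set_option linter.unusedSectionVars false

noncomputable section

namespace Pool.Agent.MP_6c3157_co.PD

open Finset NumberField

theorem sys_abs {X P K : Type} [DecidableEq X] [Fintype P] [Field K] (U V : X → K)
    (lab : X → X → ℝ)
    (hl : ∀ x y z, lab x y = lab x z → (U x - U y) * (V x - V y) = (U x - U z) * (V x - V z))
    (av : P → AbsoluteValue K ℝ) (m lam xi g : P → ℝ) (η : ℝ) (c : P × Bool → Cells X)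
    (hg : ∀ p, (c p).Good) (hm : ∀ p, 0 ≤ m p)
    (hdU : ∀ p x y, (c (p, true)).d x y = av p (U x - U y))
    (hdV : ∀ p x y, (c (p, false)).d x y = av p (V x - V y))
    (hlam : ∀ p, (c p).lam = lam p.1) (heta : ∀ p, (c p).eta = η) (hxi : ∀ p, (c p).xi = xi p.1)
    (hgg : ∀ p, (c p).g = g p.1)
    (pU : ∀ x y, x ≠ y → ∑ p, m p * Real.log (av p (U x - U y)) = 0)
    (pV : ∀ x y, x ≠ y → ∑ p, m p * Real.log (av p (V x - V y)) = 0)
    (s1 : 2 * ((∑ p, m p) * η) ≤ ep) (s2 : ∑ p, m p * xi p ≤ 10)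
    (s3 : 1 / 80000 ≤ ∑ p, m p * g p) :
    ∃ s : Sys X (P × Bool), s.Good ∧ s.lab = lab := by
  let bar : P × Bool ≃ P × Bool := Equiv.prodCongr (Equiv.refl P) ⟨not, not, by decide, by decide⟩
  have bt : ∀ p : P, bar (p, true) = (p, false) := fun _ => rfl
  have bf : ∀ p : P, bar (p, false) = (p, true) := fun _ => rfl
  refine ⟨⟨c, fun p => m p.1, bar, lab⟩, ⟨hg, fun p => hm p.1, fun p => rfl, fun p => ?_,
    fun x y hxy => ?_, ?_, ?_, ?_, ?_, ?_⟩, rfl⟩
  · show (c (bar p)).lam = (c p).lam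
    rw [hlam, hlam]; rfl
  · show ∑ p : P × Bool, m p.1 * Real.log ((c p).d x y) = 0
    rw [Fintype.sum_prod_type]
    simp only [Fintype.sum_bool, hdU, hdV, sum_add_distrib, pU x y hxy, pV x y hxy, add_zero]
  · rintro ⟨p, b⟩ x y z _ _ h
    have h1 := congrArg (av p) (hl x y z h)
    rw [map_mul, map_mul] at h1
    cases b
    · show (c (p, false)).d x y * (c (bar (p, false))).d x y =
        (c (p, false)).d x z * (c (bar (p, false))).d x z
      rw [bf, hdU, hdU, hdV, hdV]; linarith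
    · show (c (p, true)).d x y * (c (bar (p, true))).d x y =
        (c (p, true)).d x z * (c (bar (p, true))).d x z
      rw [bt, hdU, hdU, hdV, hdV]; linarith
  · rintro ⟨p, b⟩ x y z _ _ h
    have h0 := hl x y z h
    cases b
    · show (c (bar (p, false))).d y z * (c (p, false)).d x z =
        (c (bar (p, false))).d x y * (c (p, false)).d y z
      rw [bf, hdU, hdU, hdV, hdV, ← map_mul, ← map_mul, ← (av p).map_neg]
      congr 1
      linear_combination h0
    · show (c (bar (p, true))).d y z * (c (p, true)).d x z =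
        (c (bar (p, true))).d x y * (c (p, true)).d y z
      rw [bt, hdU, hdU, hdV, hdV, ← map_mul, ← map_mul, ← (av p).map_neg]
      congr 1
      linear_combination h0
  · show ∑ p : P × Bool, m p.1 * (c p).eta ≤ ep
    rw [Fintype.sum_prod_type]
    simp only [Fintype.sum_bool, heta, sum_add_distrib, ← sum_mul]
    linarith
  · show ∑ p : P × Bool, m p.1 * (c p).xi ≤ 20
    rw [Fintype.sum_prod_type]
    simp only [Fintype.sum_bool, hxi, sum_add_distrib]
    linarith
  · show 1 / 40000 ≤ ∑ p : P × Bool, m p.1 * (c p).g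
    rw [Fintype.sum_prod_type]
    simp only [Fintype.sum_bool, hgg, sum_add_distrib]
    linarith

theorem sys_arch (hA : ARCH) {X K : Type} [Fintype X] [DecidableEq X] [Field K] (Z : X → K)
    (hZ : Function.Injective Z) (η : ℝ) (h0 : 0 < η) (h1 : η ≤ 1 / 5) (v : InfinitePlace K) :
    ∃ c : Cells X, c.Good ∧ (∀ x y, c.d x y = v.1 (Z x - Z y)) ∧ c.lam = 2 ∧ c.eta = η ∧
      c.xi = 8 ∧ c.g = 1 / 40000 := by
  obtain ⟨c, hc, hd, r⟩ := hA X (fun x => v.embedding (Z x)) η
    (v.embedding.injective.comp hZ) h0 h1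
  refine ⟨c, hc, fun x y => ?_, r⟩
  rw [hd]
  show ‖v.embedding (Z x) - v.embedding (Z y)‖ = v (Z x - Z y)
  rw [← map_sub, InfinitePlace.norm_embedding_eq]

theorem sys_fin (hU : ULT) {X K : Type} [Fintype X] [DecidableEq X] [Field K] [NumberField K]
    (Z : X → K) (hZ : Function.Injective Z) (η : ℝ) (h0 : 0 < η) (v : FinitePlace K) :
    ∃ c : Cells X, c.Good ∧ (∀ x y, c.d x y = v.1 (Z x - Z y)) ∧ c.lam = 1 ∧ c.eta = η ∧
      c.xi = η ∧ c.g = 0 := by
  obtain ⟨c, hc, hd, r⟩ := hU X (fun x y => v.1 (Z x - Z y)) η h0 (fun x => by simp)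
    (fun x y => v.1.map_sub _ _) (fun x y hxy => v.1.pos (sub_ne_zero.2 fun h => hxy (hZ h)))
    (fun x y z => by
      have := FinitePlace.add_le v (Z x - Z y) (Z y - Z z)
      rw [sub_add_sub_cancel] at this
      exact this)
  exact ⟨c, hc, fun x y => by rw [hd], r⟩

theorem sys (hU : ULT) (hA : ARCH) (hP : PLC) : SYS := by
  classical
  intro X _ _ K _ _ U V lab hUi hVi hl
  obtain ⟨B, hB⟩ := hP K (((univ : Finset (X × X)).image (fun p => U p.1 - U p.2) ∪
    (univ : Finset (X × X)).image (fun p => V p.1 - V p.2)).filter (· ≠ 0))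
    (fun a ha => (mem_filter.1 ha).2)
  have hn : (0 : ℝ) < (Module.finrank ℚ K : ℝ) := by exact_mod_cast Module.finrank_pos
  set n : ℝ := (Module.finrank ℚ K : ℝ) with hn'
  have hs : ∑ v : InfinitePlace K, (v.mult : ℝ) = n := by
    rw [hn', ← InfinitePlace.sum_mult_eq]; push_cast; rfl
  let av : InfinitePlace K ⊕ B → AbsoluteValue K ℝ := Sum.elim (fun v => v.1) (fun v => v.1.1)
  let m : InfinitePlace K ⊕ B → ℝ := Sum.elim (fun v => (v.mult : ℝ) / n) (fun _ => 1 / n)
  have hm : ∀ p, 0 ≤ m p := by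
    rintro (v | v)
    · exact div_nonneg (Nat.cast_nonneg _) hn.le
    · exact div_nonneg zero_le_one hn.le
  have hm1 : ∑ v : InfinitePlace K, (v.mult : ℝ) / n = 1 := by
    rw [← sum_div, hs, div_self hn.ne']
  have hM : ∑ p, m p = 1 + ∑ _v : B, 1 / n := by
    rw [Fintype.sum_sum_type]
    exact congrArg (· + ∑ _v : B, 1 / n) hm1
  have hR : 0 ≤ ∑ _v : B, 1 / n := sum_nonneg fun _ _ => div_nonneg zero_le_one hn.le
  set R : ℝ := ∑ _v : B, 1 / n with hR'
  have he : ep ≤ 1 / 5 := by unfold ep; norm_num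
  have he0 := ep_pos
  set η : ℝ := ep / (2 * (1 + R)) with hη
  have η0 : 0 < η := by positivity
  have ηM : 2 * ((1 + R) * η) = ep := by rw [hη]; field_simp
  have η1 : η ≤ 1 / 5 := by nlinarith
  let Z : Bool → X → K := fun b => bif b then U else V
  have hZ : ∀ b, Function.Injective (Z b) := by rintro (_ | _) <;> assumption
  let lam : InfinitePlace K ⊕ B → ℝ := Sum.elim (fun _ => 2) (fun _ => 1)
  let xi : InfinitePlace K ⊕ B → ℝ := Sum.elim (fun _ => 8) (fun _ => η)
  let g : InfinitePlace K ⊕ B → ℝ := Sum.elim (fun _ => 1 / 40000) (fun _ => 0)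
  have hc : ∀ p : (InfinitePlace K ⊕ B) × Bool, ∃ c : Cells X, c.Good ∧
      (∀ x y, c.d x y = av p.1 (Z p.2 x - Z p.2 y)) ∧ c.lam = lam p.1 ∧ c.eta = η ∧
      c.xi = xi p.1 ∧ c.g = g p.1 := by
    rintro ⟨v | v, b⟩
    · exact sys_arch hA (Z b) (hZ b) η η0 η1 v
    · exact sys_fin hU (Z b) (hZ b) η η0 v.1
  choose c h1 h2 h3 h4 h5 h6 using hc
  have pf : ∀ a : K, a ≠ 0 → ((∃ x y, U x - U y = a) ∨ ∃ x y, V x - V y = a) →
      ∑ p, m p * Real.log (av p a) = 0 := by
    intro a ha h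
    have := hB a (by
      rw [mem_filter, mem_union, mem_image, mem_image]
      refine ⟨?_, ha⟩
      rcases h with ⟨x, y, h⟩ | ⟨x, y, h⟩
      · exact Or.inl ⟨(x, y), mem_univ _, h⟩
      · exact Or.inr ⟨(x, y), mem_univ _, h⟩)
    rw [← sum_coe_sort B] at this
    rw [Fintype.sum_sum_type]
    have e1 : ∑ v : InfinitePlace K, m (Sum.inl v) * Real.log (av (Sum.inl v) a) =
        (∑ v : InfinitePlace K, (v.mult : ℝ) * Real.log (v a)) / n := by
      rw [sum_div]
      refine sum_congr rfl fun v _ => ?_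
      show (v.mult : ℝ) / n * Real.log (v a) = _
      ring
    have e2 : ∑ v : B, m (Sum.inr v) * Real.log (av (Sum.inr v) a) =
        (∑ v : B, Real.log (v.1 a)) / n := by
      rw [sum_div]
      refine sum_congr rfl fun v _ => ?_
      show 1 / n * Real.log (v.1 a) = _
      ring
    rw [e1, e2, ← add_div, this, zero_div]
  refine ⟨(InfinitePlace K ⊕ B) × Bool, inferInstance,
    sys_abs U V lab hl av m lam xi g η c h1 hm (fun p => h2 (p, true)) (fun p => h2 (p, false))
      h3 h4 h5 h6 (fun x y hxy => pf _ (sub_ne_zero.2 fun h => hxy (hUi h)) (Or.inl ⟨x, y, rfl⟩))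
      (fun x y hxy => pf _ (sub_ne_zero.2 fun h => hxy (hVi h)) (Or.inr ⟨x, y, rfl⟩)) ?_ ?_ ?_⟩
  · rw [hM, ηM]
  · rw [Fintype.sum_sum_type]
    have e1 : ∑ v : InfinitePlace K, m (Sum.inl v) * xi (Sum.inl v) = 8 := by
      show ∑ v : InfinitePlace K, (v.mult : ℝ) / n * 8 = 8
      rw [← sum_mul, hm1, one_mul]
    have e2 : ∑ v : B, m (Sum.inr v) * xi (Sum.inr v) = R * η := by
      show ∑ _v : B, 1 / n * η = _
      rw [← sum_mul]
    rw [e1, e2]
    nlinarith
  · rw [Fintype.sum_sum_type]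
    have e1 : ∑ v : InfinitePlace K, m (Sum.inl v) * g (Sum.inl v) = 1 / 40000 := by
      show ∑ v : InfinitePlace K, (v.mult : ℝ) / n * (1 / 40000) = _
      rw [← sum_mul, hm1, one_mul]
    have e2 : ∑ v : B, m (Sum.inr v) * g (Sum.inr v) = 0 := by
      show ∑ _v : B, 1 / n * 0 = (0 : ℝ)
      simp
    rw [e1, e2]
    norm_num

end Pool.Agent.MP_6c3157_co.PD
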