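import Pool.Agent.MP_6c3157_co.PD.Basic

/-! Project PD: many pairs of large sets meet. -/

set_option autoImplicit false

noncomputable section

namespace Pool.Agent.MP_6c3157_co.PD

open Finset

theorem tu : TU := by
  intro X _ Y S B hY hB
  classical
  have hy : (0 : ℝ) < Y.card := by exact_mod_cast card_pos.2 hY
  set i : X → X → ℝ := fun x z => if z ∈ B x then 1 else 0 with hi
  set t : ℝ := tau / 2 * S.card with ht
  have t0 : 0 ≤ t := mul_nonneg (div_nonneg tau_pos.le zero_le_two) (Nat.cast_nonneg _)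
  have h1 : t * Y.card ≤ ∑ z ∈ Y, ∑ x ∈ S, i x z := by
    rw [sum_comm]
    refine le_trans (le_of_eq ?_) (sum_le_sum (f := fun _ => tau / 2 * (Y.card : ℝ))
      fun x hx => (hB x hx).2.trans (le_of_eq ?_))
    · rw [sum_const, nsmul_eq_mul, ht]; ring
    · simp only [hi, sum_boole, filter_mem_eq_inter, inter_eq_right.2 (hB x hx).1]
  have h2 : ∀ x y, ∑ z ∈ Y, i x z * i y z ≤
      Y.card * if (B x ∩ B y).Nonempty then (1 : ℝ) else 0 := fun x y => by
    rw [← nsmul_eq_mul, ← sum_const]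
    refine sum_le_sum fun z _ => ?_
    by_cases a : z ∈ B x <;> by_cases b : z ∈ B y
    · rw [if_pos ⟨z, mem_inter.2 ⟨a, b⟩⟩]; simp [hi, a, b]
    all_goals
      simp only [hi, a, b, if_true, if_false, mul_zero, zero_mul]
      split_ifs <;> norm_num
  have h3 : ∑ z ∈ Y, (∑ x ∈ S, i x z) ^ 2 ≤ Y.card * (S.card +
      ∑ x ∈ S, ∑ y ∈ S.erase x, if (B x ∩ B y).Nonempty then (1 : ℝ) else 0) := by
    simp only [sq, sum_mul_sum]
    rw [sum_comm, card_eq_sum_ones S, Nat.cast_sum, ← sum_add_distrib, mul_sum]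
    refine sum_le_sum fun x hx => ?_
    rw [sum_comm]
    refine (sum_le_sum fun y _ => h2 x y).trans ?_
    rw [← mul_sum, ← add_sum_erase S _ hx]
    gcongr
    split_ifs <;> norm_num
  have h4 : ∑ z ∈ Y, (2 * t * ∑ x ∈ S, i x z - t ^ 2) ≤ ∑ z ∈ Y, (∑ x ∈ S, i x z) ^ 2 :=
    sum_le_sum fun z _ => by nlinarith [sq_nonneg (∑ x ∈ S, i x z - t)]
  rw [sum_sub_distrib, ← mul_sum, sum_const, nsmul_eq_mul] at h4
  refine le_of_mul_le_mul_left (le_trans ?_ (h4.trans h3)) hy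
  have h5 : tau ^ 2 / 4 * (S.card : ℝ) ^ 2 = t ^ 2 := by rw [ht]; ring
  rw [h5]
  nlinarith [mul_le_mul_of_nonneg_left h1 t0]

end Pool.Agent.MP_6c3157_co.PD
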