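import Pool.Agent.MP_6c3157_co.PD.Basic

/-! Project PD, row UBP: the low second moment at one place. -/

set_option autoImplicit false

noncomputable section

namespace Pool.Agent.MP_6c3157_co.PD

open Finset

theorem ubp_pair {X : Type} [DecidableEq X] {c c' : Cells X} {γ γ' : Geo X} (hc : c.Good)
    (hc' : c'.Good) (hlam : c'.lam = c.lam) (hr : 0 < γ.r) {x y : X} (hxy : x ≠ y)
    (hd : c'.d x y ≤ c'.lam * γ'.rs x) :
    c.W (fun i => x ∈ i.2 ∧ y ∈ i.2 ∧ c.ρ i < γ.r / c.lam ^ 6) ≤ err c c' γ γ' x y + c.eta := by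
  refine (hc.pair_below hxy _).trans ?_
  have hl := hc.lam_pos
  have h1 := hc.d_pos hxy
  have h2 := hc'.d_pos hxy
  unfold err
  refine add_le_add (max_le_max le_rfl (Real.log_le_log (by positivity) ?_)) le_rfl
  rw [hlam] at hd
  have e : c.lam * (γ.r / c.lam ^ 6) / c.d x y =
      γ.r * (c'.d x y / c.lam) / (c.lam ^ 4 * (c.d x y * c'.d x y)) := by
    field_simp
  rw [e]
  refine div_le_div_of_nonneg_right (mul_le_mul_of_nonneg_left ?_ hr.le) (by positivity)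
  rwa [div_le_iff₀' hl]

theorem ubp (hT : TU) : UBP := by
  classical
  intro X _ c c' hv Y γ γ' σ h h' hlam
  have hc := h.good
  have hc' := h'.good
  have hl := hc.lam_pos
  have hr := h.geo.r_pos hc
  have hYne : Y.Nonempty := ⟨_, h.geo.cen_mem⟩
  set B : X → Finset X := fun x => c'.ball Y x (γ'.rs x) with hB
  set φ : ℕ × Finset X → Prop := fun i => ¬ c.small hv Y σ i ∧ c.ρ i < γ.r / c.lam ^ 6 with hφ
  have step : tau ^ 2 / 4 * c.ulow hv Y σ γ ≤
      c.WS φ (fun i => ((Y ∩ i.2).card : ℝ)) + ∑ x ∈ Y, ∑ y ∈ Y.erase x,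
        c.W fun i => φ i ∧ x ∈ i.2 ∧ y ∈ i.2 ∧ (B x ∩ B y).Nonempty := by
    have e : ∑ x ∈ Y, ∑ y ∈ Y.erase x,
        c.W (fun i => φ i ∧ x ∈ i.2 ∧ y ∈ i.2 ∧ (B x ∩ B y).Nonempty) =
        c.WS φ fun i => ∑ x ∈ Y, ∑ y ∈ Y.erase x,
          if x ∈ i.2 ∧ y ∈ i.2 ∧ (B x ∩ B y).Nonempty then (1 : ℝ) else 0 := by
      rw [Cells.WS_sum]
      refine sum_congr rfl fun x _ => ?_
      rw [Cells.WS_sum]
      refine sum_congr rfl fun y _ => ?_
      rw [← Cells.WS_ite fun i => x ∈ i.2 ∧ y ∈ i.2 ∧ (B x ∩ B y).Nonempty]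
      refine Cells.WS_congr (fun _ _ => Iff.rfl) fun i _ _ => ?_
      congr
    rw [e, ← Cells.WS_add]
    unfold Cells.ulow
    rw [← Cells.WS_mul]
    refine Cells.WS_le hc fun i _ _ => ?_
    refine (hT X Y (Y ∩ i.2) B hYne fun x hx =>
      ⟨Cells.ball_subset, h'.geo.s_in x (mem_inter.1 hx).1⟩).trans (add_le_add le_rfl ?_)
    refine le_trans (sum_le_sum fun x hx => ?_)
      (sum_le_sum_of_subset_of_nonneg inter_subset_left fun x _ _ =>
        sum_nonneg fun y _ => by split_ifs <;> norm_num)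
    refine le_trans (sum_le_sum fun y hy => ?_)
      (sum_le_sum_of_subset_of_nonneg (erase_subset_erase x inter_subset_left) fun y _ _ => by
        split_ifs <;> norm_num)
    have h1 := (mem_inter.1 hx).2
    have h2 := (mem_inter.1 (mem_erase.1 hy).2).2
    by_cases h3 : (B x ∩ B y).Nonempty <;> simp [h1, h2, h3]
  refine step.trans ?_
  rw [add_comm]
  refine add_le_add ?_ ?_
  · have e : ∑ x ∈ Y, ∑ y ∈ Y.erase x, (2 * err c c' γ γ' x y + c.eta) =
        ∑ x ∈ Y, ∑ y ∈ Y.erase x, (err c c' γ γ' x y + err c c' γ γ' y x + c.eta) := by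
      simp only [two_mul, sum_add_distrib]
      rw [sum_erase_comm Y fun x y => err c c' γ γ' y x]
    rw [e]
    refine sum_le_sum fun x hx => sum_le_sum fun y hy => ?_
    have hxy : x ≠ y := (mem_erase.1 hy).1.symm
    have n1 : 0 ≤ err c c' γ γ' x y := le_max_left _ _
    have n2 : 0 ≤ err c c' γ γ' y x := le_max_left _ _
    by_cases h3 : (B x ∩ B y).Nonempty
    · obtain ⟨z, hz⟩ := h3
      have z1 := (Cells.mem_ball.1 (mem_inter.1 hz).1).2
      have z2 := (Cells.mem_ball.1 (mem_inter.1 hz).2).2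
      have t := hc'.d_tri x z y
      rw [hc'.d_symm z y] at t
      rcases le_total (γ'.rs y) (γ'.rs x) with h4 | h4
      · have k := ubp_pair (γ := γ) (γ' := γ') hc hc' hlam hr hxy
          (t.trans (mul_le_mul_of_nonneg_left (max_le z1 (z2.trans h4)) hc'.lam_pos.le))
        have k' := Cells.W_mono hc
          (φ := fun i => φ i ∧ x ∈ i.2 ∧ y ∈ i.2 ∧ (B x ∩ B y).Nonempty)
          (ψ := fun i => x ∈ i.2 ∧ y ∈ i.2 ∧ c.ρ i < γ.r / c.lam ^ 6)
          fun i _ hi => ⟨hi.2.1, hi.2.2.1, hi.1.2⟩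
        linarith
      · rw [hc'.d_symm x y] at t
        have k := ubp_pair (γ := γ) (γ' := γ') hc hc' hlam hr hxy.symm
          (t.trans (mul_le_mul_of_nonneg_left (max_le (z1.trans h4) z2) hc'.lam_pos.le))
        have k' := Cells.W_mono hc
          (φ := fun i => φ i ∧ x ∈ i.2 ∧ y ∈ i.2 ∧ (B x ∩ B y).Nonempty)
          (ψ := fun i => y ∈ i.2 ∧ x ∈ i.2 ∧ c.ρ i < γ.r / c.lam ^ 6)
          fun i _ hi => ⟨hi.2.2.1, hi.2.1, hi.1.2⟩
        linarith
    · rw [Cells.W_zero fun i _ hi => h3 hi.2.2.2]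
      linarith [hc.eta_lo]
  · rw [← Cells.sum_W]
    refine sum_le_sum fun y _ => Cells.W_le_add hc fun i _ hi => ?_
    by_cases h1 : hv i
    · refine Or.inr ⟨h1, hi.1.2.trans_le (div_le_div_of_nonneg_left hr.le hl ?_)⟩
      exact le_self_pow₀ hc.lam_lo (by norm_num)
    · exact Or.inl ⟨hi.1.1, Or.inr ⟨h1, hi.2⟩, Or.inr ⟨h1, hi.2⟩⟩

end Pool.Agent.MP_6c3157_co.PD
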