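import Pool.Agent.MP_6c3157_co.PD.Basic

/-! Project PD, row ULT: cells at a finite place. -/

set_option autoImplicit false
set_option linter.unusedSectionVars false

noncomputable section

namespace Pool.Agent.MP_6c3157_co.PD

open Finset

namespace UltA

variable {X : Type} [Fintype X] [DecidableEq X]

open Classical in
/-- the closed ball -/
def bl (d : X → X → ℝ) (x : X) (r : ℝ) : Finset X := univ.filter fun z => d x z ≤ r

theorem mem_bl {d : X → X → ℝ} {x z : X} {r : ℝ} : z ∈ bl d x r ↔ d x z ≤ r := by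
  unfold bl; simp

open Classical in
/-- the cells -/
def cl (d : X → X → ℝ) (η : ℝ) (J : ℕ) (lo hi : ℝ) : Cells X where
  I := (range (J + 1) ×ˢ univ).filter fun i => ∃ x, i.2 = bl d x (lvl hi η i.1)
  w _ := η
  ρ i := lvl hi η i.1
  d := d
  lam := 1
  eta := η
  xi := η
  g := 0
  K := Real.log hi
  rlo := lo / 256
  rhi := hi

theorem mem_I {d : X → X → ℝ} {η : ℝ} {J : ℕ} {lo hi : ℝ} {i : ℕ × Finset X} :
    i ∈ (cl d η J lo hi).I ↔ i.1 ∈ range (J + 1) ∧ ∃ x, i.2 = bl d x (lvl hi η i.1) := by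
  unfold cl; simp

theorem bl_eq {d : X → X → ℝ} (hs : ∀ x y, d x y = d y x)
    (ht : ∀ x y z, d x z ≤ max (d x y) (d y z)) {x z : X} {r : ℝ} (h : x ∈ bl d z r) :
    bl d z r = bl d x r := by
  rw [mem_bl] at h
  ext y
  rw [mem_bl, mem_bl]
  exact ⟨fun hy => (ht x z y).trans (max_le (hs x z ▸ h) hy),
    fun hy => (ht z x y).trans (max_le h hy)⟩

theorem key {d : X → X → ℝ} (h0 : ∀ x, d x x = 0) (hs : ∀ x y, d x y = d y x)
    (ht : ∀ x y z, d x z ≤ max (d x y) (d y z)) {η : ℝ} {J : ℕ} {lo hi : ℝ} (hh : 0 < hi) (x : X)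
    (P : ℕ × Finset X → Prop) (Q : ℕ → Prop) [DecidablePred Q]
    (h : ∀ j, P (j, bl d x (lvl hi η j)) ↔ Q j) :
    (cl d η J lo hi).W (fun i => x ∈ i.2 ∧ P i) =
      η * (((range (J + 1)).filter Q).card : ℝ) := by
  classical
  have e : (cl d η J lo hi).W (fun i => x ∈ i.2 ∧ P i) =
      ∑ _i ∈ (cl d η J lo hi).I.filter (fun i => x ∈ i.2 ∧ P i), η := by
    rw [sum_filter]
    exact sum_congr rfl fun i _ => by congr
  rw [e, sum_const, nsmul_eq_mul, mul_comm]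
  congr 2
  refine card_nbij' (fun i => i.1) (fun j => (j, bl d x (lvl hi η j))) ?_ ?_ ?_ ?_
  · intro i hi'
    obtain ⟨h1, h2, h3⟩ := mem_filter.1 (mem_coe.1 hi')
    obtain ⟨h4, z, h5⟩ := mem_I.1 h1
    refine mem_coe.2 (mem_filter.2 ⟨h4, (h _).1 ?_⟩)
    rw [← bl_eq hs ht (h5 ▸ h2), ← h5]; exact h3
  · intro j hj
    obtain ⟨h1, h2⟩ := mem_filter.1 (mem_coe.1 hj)
    refine mem_coe.2 (mem_filter.2 ⟨mem_I.2 ⟨h1, x, rfl⟩, mem_bl.2 ?_, (h j).2 h2⟩)
    rw [h0]; unfold lvl; positivity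
  · intro i hi'
    obtain ⟨h1, h2, _⟩ := mem_filter.1 (mem_coe.1 hi')
    obtain ⟨_, z, h5⟩ := mem_I.1 h1
    refine Prod.ext rfl ?_
    change bl d x _ = _
    rw [← bl_eq hs ht (h5 ▸ h2), ← h5]
  · intro j _; rfl

end UltA

open UltA in
theorem ult (hL : LEV) : ULT := by
  intro X _ _ d η hη h0 hs hp ht
  classical
  obtain ⟨M, hM⟩ := Finite.exists_le fun p : X × X => (d p.1 p.2)⁻¹
  obtain ⟨N, hN⟩ := Finite.exists_le fun p : X × X => d p.1 p.2
  have hM1 : 0 < max M 1 := lt_of_lt_of_le one_pos (le_max_right _ _)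
  obtain ⟨lo, lo0, hlo⟩ : ∃ lo : ℝ, 0 < lo ∧ ∀ x y, x ≠ y → lo ≤ d x y :=
    ⟨(max M 1)⁻¹, inv_pos.2 hM1, fun x y h =>
      (inv_le_comm₀ hM1 (hp x y h)).2 ((hM (x, y)).trans (le_max_left _ _))⟩
  obtain ⟨hi, lh, hhi⟩ : ∃ hi : ℝ, lo ≤ hi ∧ ∀ x y, d x y ≤ hi :=
    ⟨max N lo, le_max_right _ _, fun x y => (hN (x, y)).trans (le_max_left _ _)⟩
  have hi0 : 0 < hi := lo0.trans_le lh
  obtain ⟨J, hJ⟩ := (hL hi η 0 hi0 hη).2.2.2.2 (lo / 256) (by positivity)
  obtain ⟨L1, L2, L3, -, -⟩ := hL hi η J hi0 hη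
  refine ⟨cl d η J lo hi, ?_, rfl, rfl, rfl, rfl, rfl⟩
  refine
    { d_self := h0
      d_symm := hs
      d_tri := fun x y z => (ht x y z).trans_eq (one_mul _).symm
      rlo_pos := (by positivity : 0 < lo / 256)
      d_lo := fun x y h => le_trans (le_of_eq (by change 256 * (lo / 256) = lo; ring)) (hlo x y h)
      d_hi := hhi
      lam_lo := le_rfl
      lam_hi := one_le_two
      eta_lo := hη.le
      eta_hi := le_rfl
      log_lam := Real.log_one.trans_le hη.le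
      g_lo := le_rfl
      g_xi := fun h => absurd h (lt_irrefl _)
      w_lo := fun _ _ => hη.le
      rho_pos := fun i _ => (by unfold lvl; positivity : 0 < lvl hi η i.1)
      c1 := fun i hi' x hx y hy => ?_
      c2 := fun x a b ha hab => ?_
      c3 := fun x a b ha hab hb => ?_
      c4 := fun x y h => ?_
      c5 := fun x r _ => ?_
      c6 := fun x r Y _ _ _ => ?_ }
  · obtain ⟨_, z, h5⟩ := mem_I.1 hi'
    rw [h5, bl_eq hs ht (h5 ▸ hx)] at hy
    exact (mem_bl.1 hy).trans_eq (one_mul _).symm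
  · exact (key h0 hs ht hi0 x (fun i => a ≤ lvl hi η i.1 ∧ lvl hi η i.1 < b)
      (fun j => a ≤ lvl hi η j ∧ lvl hi η j < b) fun _ => Iff.rfl).trans_le
      (L1 a b ha hab)
  · have h1 := key (J := J) (lo := lo) h0 hs ht hi0 x
      (fun i => a ≤ lvl hi η i.1 ∧ lvl hi η i.1 < b ∧ ∀ z, d x z ≤ lvl hi η i.1 / 1 → z ∈ i.2)
      (fun j => a ≤ lvl hi η j ∧ lvl hi η j < b) fun j =>
        ⟨fun h => ⟨h.1, h.2.1⟩, fun h => ⟨h.1, h.2, fun z hz => mem_bl.2 (hz.trans_eq (div_one _))⟩⟩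
    refine le_trans ?_ h1.ge
    have h2 : Real.log (b / a) - η ≤ η * (((range (J + 1)).filter
        fun j => a ≤ lvl hi η j ∧ lvl hi η j < b).card : ℝ) := by
      convert L2 a b (hJ.trans ha) hab hb
    have h3 : 0 ≤ η * (((range (J + 1)).filter
        fun j => a ≤ lvl hi η j ∧ lvl hi η j < b).card : ℝ) := by positivity
    change (Real.log (b / a) - η) / 4 ≤ _
    linarith
  · rw [key h0 hs ht hi0 x (fun i => y ∈ i.2) (fun j => d x y ≤ lvl hi η j) fun _ => mem_bl]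
    have h1 := L3 (d x y) (hJ.trans (by linarith [hlo x y h])) (hhi x y)
    rw [Real.log_div hi0.ne' (hp x y h).ne'] at h1
    exact h1
  · rw [Cells.W_zero]
    · exact hη.le
    · rintro i hi' ⟨h1, ⟨a, ha, h2⟩, b, hb, h3⟩
      obtain ⟨_, z, h5⟩ := mem_I.1 hi'
      rw [h5, bl_eq hs ht (h5 ▸ ha)] at hb
      exact hb (mem_bl.2 ((ht a x b).trans ((max_le ((hs a x).trans_le h2) h3).trans h1)))
  · change 0 * _ ≤ _
    rw [zero_mul]
    unfold Cells.WS
    refine sum_nonneg fun i _ => ?_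
    split_ifs
    · exact mul_nonneg hη.le (sq_nonneg _)
    · exact le_rfl

end Pool.Agent.MP_6c3157_co.PD
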