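import Pool.Agent.MP_6c3157_co.PD.Basic

/-! Project PD, row WU: the total overlap at one place. -/

set_option autoImplicit false
set_option linter.unusedSectionVars false

noncomputable section

namespace Pool.Agent.MP_6c3157_co.PD

open Finset

variable {X : Type} [DecidableEq X] {c : Cells X} {hv : ℕ × Finset X → Prop} {Y : Finset X}
  {γ : Geo X}

open Classical in
/-- the number of points on the light side -/
def wuK (hv : ℕ × Finset X → Prop) (Y : Finset X) (i : ℕ × Finset X) : ℝ :=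
  ((Y.filter (inC hv i)).card : ℝ)

theorem wu_hv {i : ℕ × Finset X} (h : hv i) : wuK hv Y i = Y.card - (Y ∩ i.2).card := by
  have e := card_sdiff_add_card_inter Y i.2
  rw [← e, wuK]
  push_cast
  rw [add_sub_cancel_right]
  congr 2
  ext y
  simp [inC, h]

theorem wu_lt {i : ℕ × Finset X} (h : ¬ hv i) : wuK hv Y i = (Y ∩ i.2).card := by
  rw [wuK]
  congr 2
  ext y
  simp [inC, h]

theorem wu_nn (i : ℕ × Finset X) : 0 ≤ wuK hv Y i := Nat.cast_nonneg _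

open Classical in
theorem wu_le (i : ℕ × Finset X) : wuK hv Y i ≤ Y.card := Nat.cast_le.2 (card_filter_le _ _)

theorem wu_three (h : PC c hv Y γ) {i : ℕ × Finset X} (hi : i ∈ c.I) :
    wuK hv Y i ≤ 3 * ((Y ∩ i.2).card : ℝ) := by
  by_cases u : hv i
  · have : (Y.card : ℝ) ≤ 4 * (Y ∩ i.2).card := by exact_mod_cast h.hvl i hi u
    rw [wu_hv u]; linarith
  · have : (0 : ℝ) ≤ (Y ∩ i.2).card := Nat.cast_nonneg _
    rw [wu_lt u]; linarith

theorem wu_tau (h : PC c hv Y γ) {i : ℕ × Finset X} (hi : i ∈ c.I)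
    (hc : ¬ ((∃ a ∈ i.2, c.d γ.cen a ≤ γ.r) ∧ ∃ b, b ∉ i.2 ∧ c.d γ.cen b ≤ γ.r)) :
    wuK hv Y i ≤ tau * Y.card := by
  have h1 := h.geo.r_in
  have h2 := h.geo.card_pos
  have t : tau = 1 / 1000 := rfl
  by_cases v : ∃ a ∈ i.2, c.d γ.cen a ≤ γ.r
  · have s : c.ball Y γ.cen γ.r ⊆ Y ∩ i.2 := fun z hz => mem_inter.2 ⟨Cells.ball_subset hz,
      by_contra fun k => hc ⟨v, z, k, (Cells.mem_ball.1 hz).2⟩⟩
    have s' : ((c.ball Y γ.cen γ.r).card : ℝ) ≤ (Y ∩ i.2).card := Nat.cast_le.2 (card_le_card s)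
    by_cases u : hv i
    · rw [wu_hv u]; linarith
    · have : 4 * ((Y ∩ i.2).card : ℝ) ≤ 3 * Y.card := by exact_mod_cast h.lgt i hi u
      rw [t] at h1
      linarith
  · have s : c.ball Y γ.cen γ.r ⊆ Y \ i.2 := fun z hz => mem_sdiff.2 ⟨Cells.ball_subset hz,
      fun k => v ⟨z, k, (Cells.mem_ball.1 hz).2⟩⟩
    have s' : ((c.ball Y γ.cen γ.r).card : ℝ) ≤ (Y \ i.2).card := Nat.cast_le.2 (card_le_card s)
    have e : ((Y \ i.2).card : ℝ) + (Y ∩ i.2).card = Y.card := by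
      exact_mod_cast card_sdiff_add_card_inter Y i.2
    by_cases u : hv i
    · have : (Y.card : ℝ) ≤ 4 * (Y ∩ i.2).card := by exact_mod_cast h.hvl i hi u
      rw [t] at h1
      linarith
    · rw [wu_lt u]; linarith

theorem wu_win (h : PC c hv Y γ) :
    c.WS (fun i => γ.r / c.lam ^ 6 ≤ c.ρ i ∧ c.ρ i < γ.r) (fun i => ((Y ∩ i.2).card : ℝ)) ≤
      Y.card * (7 * c.xi) := by
  have g := h.good
  have hr := h.geo.r_pos g
  have hl := g.lam_pos
  rw [← Cells.sum_W, ← nsmul_eq_mul]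
  refine sum_le_card_nsmul _ _ _ fun y _ => ?_
  have h1 := g.c2 y (γ.r / c.lam ^ 6) γ.r (by positivity)
    (div_le_self hr.le (one_le_pow₀ g.lam_lo))
  rw [show γ.r / (γ.r / c.lam ^ 6) = c.lam ^ 6 by field_simp, Real.log_pow] at h1
  have h2 := g.log_lam
  have h3 := g.eta_hi
  refine (Cells.W_mono g fun i _ k => ⟨k.2, k.1⟩).trans (h1.trans ?_)
  push_cast
  linarith

theorem wu_top (hG : LG) (hT : LTA) (h : PC c hv Y γ) :
    c.WS (fun i => γ.r ≤ c.ρ i) (wuK hv Y) ≤ ∑ y ∈ Y, (5 * c.H hv y + 5 * c.xi) := by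
  have g := h.good
  have hr := h.geo.r_pos g
  refine (Cells.sum_W' Y (inC hv)).symm.trans_le (sum_le_sum fun y hy => ?_)
  have h1 := (hG X c hv Y γ h).1 y hy
  have h2 := (hT X c hv Y γ h).1 y hy γ.r hr
  rw [div_self hr.ne', Real.log_one, zero_add, max_eq_right (Cells.G_nonneg γ y)] at h2
  have h3 : c.W (fun i => γ.r ≤ c.ρ i ∧ inC hv i y) ≤
      c.H hv y + c.W (fun i => ¬ hv i ∧ y ∈ i.2 ∧ γ.r ≤ c.ρ i) :=
    Cells.W_le_add g fun i _ k => k.2.imp id fun u => ⟨u.1, u.2, k.1⟩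
  linarith

theorem wu (hG : LG) (hT : LTA) : WU := by
  intro X _ c hv Y γ σ h
  have g := h.good
  have hr := h.geo.r_pos g
  have n0 := h.geo.card_pos
  have e : ∑ x ∈ Y, ∑ y ∈ Y.erase x, c.o hv x y = ∑ x ∈ Y, ∑ y ∈ Y.erase x, c.osm hv Y σ x y +
      c.WS (fun i => ¬ c.small hv Y σ i) fun i => wuK hv Y i * (wuK hv Y i - 1) := by
    rw [← show _ = c.WS (fun i => ¬ c.small hv Y σ i) fun i => wuK hv Y i * (wuK hv Y i - 1) from
      Cells.sum2_W' Y (inC hv), ← sum_add_distrib]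
    refine sum_congr rfl fun x _ => ?_
    rw [← sum_add_distrib]
    exact sum_congr rfl fun y _ => Cells.o_eq Y σ x y
  have k0 := wu_nn (hv := hv) (Y := Y)
  have kn := wu_le (hv := hv) (Y := Y)
  have a1 : c.WS (fun i => ¬ c.small hv Y σ i) (fun i => wuK hv Y i * (wuK hv Y i - 1)) ≤
      c.WS (fun i => ¬ c.small hv Y σ i ∧ c.ρ i < γ.r / c.lam ^ 6)
        (fun i => 9 * ((Y ∩ i.2).card : ℝ) ^ 2) +
      c.WS (fun i => γ.r / c.lam ^ 6 ≤ c.ρ i) fun i => wuK hv Y i * wuK hv Y i := by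
    refine Cells.WS_le_add g (fun i hi u => ?_) (fun _ _ _ => by positivity)
      fun i _ _ => mul_nonneg (k0 i) (k0 i)
    have b : wuK hv Y i * (wuK hv Y i - 1) ≤ wuK hv Y i * wuK hv Y i :=
      mul_le_mul_of_nonneg_left (by linarith) (k0 i)
    rcases lt_or_ge (c.ρ i) (γ.r / c.lam ^ 6) with v | v
    · refine Or.inl ⟨⟨u, v⟩, b.trans ((mul_self_le_mul_self (k0 i) (wu_three h hi)).trans_eq ?_)⟩
      ring
    · exact Or.inr ⟨v, b⟩
  have a2 : c.WS (fun i => γ.r / c.lam ^ 6 ≤ c.ρ i) (fun i => wuK hv Y i * wuK hv Y i) ≤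
      c.WS (fun i => γ.r / c.lam ^ 6 ≤ c.ρ i ∧ c.ρ i < γ.r)
        (fun i => 3 * (Y.card : ℝ) * ((Y ∩ i.2).card : ℝ)) +
      c.WS (fun i => γ.r ≤ c.ρ i) fun i => wuK hv Y i * wuK hv Y i := by
    refine Cells.WS_le_add g (fun i hi u => ?_) (fun _ _ _ => by positivity)
      fun i _ _ => mul_nonneg (k0 i) (k0 i)
    rcases lt_or_ge (c.ρ i) γ.r with v | v
    · refine Or.inl ⟨⟨u, v⟩, (mul_le_mul (kn i) (wu_three h hi) (k0 i) n0.le).trans_eq ?_⟩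
      ring
    · exact Or.inr ⟨v, le_rfl⟩
  have a3 : c.WS (fun i => γ.r ≤ c.ρ i) (fun i => wuK hv Y i * wuK hv Y i) ≤
      c.WS (fun i => γ.r ≤ c.ρ i ∧ (∃ a ∈ i.2, c.d γ.cen a ≤ γ.r) ∧
        ∃ b, b ∉ i.2 ∧ c.d γ.cen b ≤ γ.r) (fun _ => (Y.card : ℝ) ^ 2) +
      c.WS (fun i => γ.r ≤ c.ρ i) fun i => tau * Y.card * wuK hv Y i := by
    refine Cells.WS_le_add g (fun i hi u => ?_) (fun _ _ _ => by positivity)
      fun i _ _ => mul_nonneg (mul_nonneg tau_pos.le n0.le) (k0 i)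
    by_cases v : (∃ a ∈ i.2, c.d γ.cen a ≤ γ.r) ∧ ∃ b, b ∉ i.2 ∧ c.d γ.cen b ≤ γ.r
    · exact Or.inl ⟨⟨u, v⟩, (mul_self_le_mul_self (k0 i) (kn i)).trans_eq (sq _).symm⟩
    · exact Or.inr ⟨u, mul_le_mul_of_nonneg_right (wu_tau h hi v) (k0 i)⟩
  rw [Cells.WS_mul] at a1 a2
  rw [Cells.WS_const, Cells.WS_mul] at a3
  have b2 := mul_le_mul_of_nonneg_left (wu_win h) (show 0 ≤ 3 * (Y.card : ℝ) by positivity)
  have b3 := mul_le_mul_of_nonneg_left (g.c5 γ.cen γ.r hr) (sq_nonneg (Y.card : ℝ))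
  have b4 := mul_le_mul_of_nonneg_left (wu_top hG hT h) (mul_nonneg tau_pos.le n0.le)
  rw [e]
  unfold Cells.ulow
  linarith

end Pool.Agent.MP_6c3157_co.PD
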