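import Pool.Agent.MP_6c3157_co.PD.Lev
import Pool.Agent.MP_6c3157_co.PD.Ult
import Pool.Agent.MP_6c3157_co.PD.Push
import Pool.Agent.MP_6c3157_co.PD.Gg1
import Pool.Agent.MP_6c3157_co.PD.Gg2
import Pool.Agent.MP_6c3157_co.PD.Psi
import Pool.Agent.MP_6c3157_co.PD.Aw
import Pool.Agent.MP_6c3157_co.PD.Ac23
import Pool.Agent.MP_6c3157_co.PD.Ac4
import Pool.Agent.MP_6c3157_co.PD.Ac5
import Pool.Agent.MP_6c3157_co.PD.Ac6
import Pool.Agent.MP_6c3157_co.PD.Arch
import Pool.Agent.MP_6c3157_co.PD.Nf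
import Pool.Agent.MP_6c3157_co.PD.Plc
import Pool.Agent.MP_6c3157_co.PD.Sys
import Pool.Agent.MP_6c3157_co.PD.Lx
import Pool.Agent.MP_6c3157_co.PD.Lxp
import Pool.Agent.MP_6c3157_co.PD.Hid
import Pool.Agent.MP_6c3157_co.PD.Fourp
import Pool.Agent.MP_6c3157_co.PD.Cut
import Pool.Agent.MP_6c3157_co.PD.Pig
import Pool.Agent.MP_6c3157_co.PD.Band
import Pool.Agent.MP_6c3157_co.PD.Geo
import Pool.Agent.MP_6c3157_co.PD.Lg
import Pool.Agent.MP_6c3157_co.PD.Lta
import Pool.Agent.MP_6c3157_co.PD.Dg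
import Pool.Agent.MP_6c3157_co.PD.San
import Pool.Agent.MP_6c3157_co.PD.Sap
import Pool.Agent.MP_6c3157_co.PD.Er
import Pool.Agent.MP_6c3157_co.PD.Tu
import Pool.Agent.MP_6c3157_co.PD.Ubp
import Pool.Agent.MP_6c3157_co.PD.Wu
import Pool.Agent.MP_6c3157_co.PD.Ar
import Pool.Agent.MP_6c3157_co.PD.Dq
import Pool.Agent.MP_6c3157_co.PD.Fib
import Pool.Agent.MP_6c3157_co.PD.Sa
import Pool.Agent.MP_6c3157_co.PD.Sel
import Pool.Agent.MP_6c3157_co.PD.Bone
import Pool.Agent.MP_6c3157_co.PD.Bones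
import Pool.Agent.MP_6c3157_co.PD.Ers
import Pool.Agent.MP_6c3157_co.PD.Sbone
import Pool.Agent.MP_6c3157_co.PD.Sbtwo
import Pool.Agent.MP_6c3157_co.PD.Core
import Pool.Agent.MP_6c3157_co.PD.Num
import Pool.Agent.MP_6c3157_co.PD.Ind
import Pool.Agent.MP_6c3157_co.PD.Main

/-! Project PD: assembly. -/

set_option autoImplicit false

namespace Pool.Agent.MP_6c3157_co.PD

theorem all_arch : ARCH :=
  archc lev (ac23 lev (aw push)) (ac4 (aw push) gg2 (psi gg1)) (ac5 lev (aw push))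
    (ac6 lev push (aw push))

theorem all_sys : SYS := sys (ult lev) all_arch plc

theorem all_band : BAND := band hid (fourp lx (lxp lx)) cut pig

theorem all_core : CORE :=
  core geo (sa (sap lta san) lg) sel
    (sbone lg (ubp tu) (bones (dg qr) (bone dq) fibs) (ers er fibs)) (sbtwo (wu lg lta) ar)

theorem all_ind : IND := ind all_band all_core nums

theorem all_main : MAIN := mainp nf all_sys all_ind

end Pool.Agent.MP_6c3157_co.PD
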