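import Pool.Agent.MP_6c3157_co.PD.Spec

/-! Project PD: the calculus of weights. -/

set_option autoImplicit false
set_option linter.unusedSectionVars false

noncomputable section

namespace Pool.Agent.MP_6c3157_co.PD

open Finset

theorem tau_pos : 0 < tau := by unfold tau; norm_num

theorem ep_pos : 0 < ep := by unfold ep; norm_num

theorem ep_le_one : ep ≤ 1 := by unfold ep; norm_num

variable {X PL : Type} [DecidableEq X]

namespace Cells

variable {c : Cells X} {φ ψ χ : ℕ × Finset X → Prop} {f f' f'' : ℕ × Finset X → ℝ}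

theorem W_eq_WS : c.W φ = c.WS φ fun _ => 1 := by
  unfold W WS; simp only [mul_one]

theorem WS_mono (hc : c.Good) (h : ∀ i ∈ c.I, φ i → ψ i ∧ f i ≤ f' i)
    (h0 : ∀ i ∈ c.I, ψ i → 0 ≤ f' i) : c.WS φ f ≤ c.WS ψ f' := by
  unfold WS
  refine sum_le_sum fun i hi => ?_
  by_cases h1 : φ i
  · rw [if_pos h1, if_pos (h i hi h1).1]
    exact mul_le_mul_of_nonneg_left (h i hi h1).2 (hc.w_lo i hi)
  · rw [if_neg h1]
    split_ifs with h2
    · exact mul_nonneg (hc.w_lo i hi) (h0 i hi h2)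
    · exact le_rfl

theorem WS_le (hc : c.Good) (h : ∀ i ∈ c.I, φ i → f i ≤ f' i) : c.WS φ f ≤ c.WS φ f' := by
  unfold WS
  refine sum_le_sum fun i hi => ?_
  split_ifs with h1
  · exact mul_le_mul_of_nonneg_left (h i hi h1) (hc.w_lo i hi)
  · exact le_rfl

theorem WS_nonneg (hc : c.Good) (h : ∀ i ∈ c.I, φ i → 0 ≤ f i) : 0 ≤ c.WS φ f := by
  unfold WS
  refine sum_nonneg fun i hi => ?_
  split_ifs with h1
  · exact mul_nonneg (hc.w_lo i hi) (h i hi h1)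
  · exact le_rfl

theorem WS_congr (h : ∀ i ∈ c.I, φ i ↔ ψ i) (h' : ∀ i ∈ c.I, φ i → f i = f' i) :
    c.WS φ f = c.WS ψ f' := by
  unfold WS
  refine sum_congr rfl fun i hi => ?_
  by_cases h1 : φ i
  · rw [if_pos h1, if_pos ((h i hi).1 h1), h' i hi h1]
  · rw [if_neg h1, if_neg fun h2 => h1 ((h i hi).2 h2)]

theorem WS_split (ψ : ℕ × Finset X → Prop) :
    c.WS φ f = c.WS (fun i => φ i ∧ ψ i) f + c.WS (fun i => φ i ∧ ¬ ψ i) f := by
  unfold WS
  rw [← sum_add_distrib]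
  refine sum_congr rfl fun i _ => ?_
  by_cases h1 : φ i <;> by_cases h2 : ψ i <;> simp [h1, h2]

theorem WS_add : c.WS φ (fun i => f i + f' i) = c.WS φ f + c.WS φ f' := by
  unfold WS
  rw [← sum_add_distrib]
  refine sum_congr rfl fun i _ => ?_
  split_ifs <;> ring

theorem WS_mul (a : ℝ) : c.WS φ (fun i => a * f i) = a * c.WS φ f := by
  unfold WS
  rw [mul_sum]
  refine sum_congr rfl fun i _ => ?_
  split_ifs <;> ring

theorem WS_const (a : ℝ) : c.WS φ (fun _ => a) = a * c.W φ := by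
  rw [W_eq_WS, ← WS_mul]; simp only [mul_one]

theorem WS_sum {α : Type} (t : Finset α) (F : α → ℕ × Finset X → ℝ) :
    c.WS φ (fun i => ∑ a ∈ t, F a i) = ∑ a ∈ t, c.WS φ (F a) := by
  unfold WS
  rw [sum_comm]
  refine sum_congr rfl fun i _ => ?_
  split_ifs
  · rw [mul_sum]
  · simp

open Classical in
theorem WS_ite (ψ : ℕ × Finset X → Prop) :
    c.WS φ (fun i => if ψ i then 1 else 0) = c.W fun i => φ i ∧ ψ i := by
  unfold W WS
  refine sum_congr rfl fun i _ => ?_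
  by_cases h1 : φ i <;> by_cases h2 : ψ i <;> simp [h1, h2]

theorem WS_le_add (hc : c.Good) (h : ∀ i ∈ c.I, φ i → (ψ i ∧ f i ≤ f' i) ∨ (χ i ∧ f i ≤ f'' i))
    (h1 : ∀ i ∈ c.I, ψ i → 0 ≤ f' i) (h2 : ∀ i ∈ c.I, χ i → 0 ≤ f'' i) :
    c.WS φ f ≤ c.WS ψ f' + c.WS χ f'' := by
  classical
  rw [WS_split fun i => ψ i ∧ f i ≤ f' i]
  refine add_le_add (WS_mono hc (fun i _ hi => hi.2) h1) (WS_mono hc (fun i hi hj => ?_) h2)
  exact (h i hi hj.1).resolve_left hj.2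

theorem W_nonneg (hc : c.Good) : 0 ≤ c.W φ := by
  rw [W_eq_WS]; exact WS_nonneg hc fun _ _ _ => zero_le_one

theorem W_mono (hc : c.Good) (h : ∀ i ∈ c.I, φ i → ψ i) : c.W φ ≤ c.W ψ := by
  rw [W_eq_WS, W_eq_WS]
  exact WS_mono hc (fun i hi h1 => ⟨h i hi h1, le_rfl⟩) fun _ _ _ => zero_le_one

theorem W_congr (h : ∀ i ∈ c.I, φ i ↔ ψ i) : c.W φ = c.W ψ := by
  rw [W_eq_WS, W_eq_WS]; exact WS_congr h fun _ _ _ => rfl

theorem W_split (ψ : ℕ × Finset X → Prop) :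
    c.W φ = c.W (fun i => φ i ∧ ψ i) + c.W fun i => φ i ∧ ¬ ψ i := by
  rw [W_eq_WS, W_eq_WS, W_eq_WS]; exact WS_split ψ

theorem W_le_add (hc : c.Good) (h : ∀ i ∈ c.I, φ i → ψ i ∨ χ i) : c.W φ ≤ c.W ψ + c.W χ := by
  rw [W_split ψ]
  exact add_le_add (W_mono hc fun _ _ hi => hi.2)
    (W_mono hc fun i hi hj => (h i hi hj.1).resolve_left hj.2)

theorem W_zero (h : ∀ i ∈ c.I, ¬ φ i) : c.W φ = 0 := by
  unfold W; exact sum_eq_zero fun i hi => if_neg (h i hi)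

open Classical in
theorem sum_W' (Y : Finset X) (ψ : ℕ × Finset X → X → Prop) :
    ∑ y ∈ Y, c.W (fun i => φ i ∧ ψ i y) = c.WS φ fun i => ((Y.filter (ψ i)).card : ℝ) := by
  have : (fun i => ((Y.filter (ψ i)).card : ℝ)) =
      fun i => ∑ y ∈ Y, if ψ i y then (1 : ℝ) else 0 := by
    funext i; rw [card_filter]; push_cast; rfl
  rw [this, WS_sum]
  exact sum_congr rfl fun y _ => (WS_ite _).symm

theorem sum_W (Y : Finset X) :
    ∑ y ∈ Y, c.W (fun i => φ i ∧ y ∈ i.2) = c.WS φ fun i => ((Y ∩ i.2).card : ℝ) := by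
  rw [sum_W' Y fun i y => y ∈ i.2]
  refine WS_congr (fun _ _ => Iff.rfl) fun i _ _ => ?_
  congr 2
  ext y; simp

theorem sum_W_not (Y : Finset X) :
    ∑ y ∈ Y, c.W (fun i => φ i ∧ y ∉ i.2) = c.WS φ fun i => ((Y \ i.2).card : ℝ) := by
  rw [sum_W' Y fun i y => y ∉ i.2]
  refine WS_congr (fun _ _ => Iff.rfl) fun i _ _ => ?_
  congr 2
  ext y; simp

open Classical in
theorem sum2_W' (Y : Finset X) (ψ : ℕ × Finset X → X → Prop) :
    ∑ x ∈ Y, ∑ y ∈ Y.erase x, c.W (fun i => φ i ∧ ψ i x ∧ ψ i y) =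
      c.WS φ fun i => ((Y.filter (ψ i)).card : ℝ) * (((Y.filter (ψ i)).card : ℝ) - 1) := by
  have : (fun i => ((Y.filter (ψ i)).card : ℝ) * (((Y.filter (ψ i)).card : ℝ) - 1)) =
      fun i => ∑ x ∈ Y, ∑ y ∈ Y.erase x, if ψ i x ∧ ψ i y then (1 : ℝ) else 0 := by
    funext i
    have hk : ((Y.filter (ψ i)).card : ℝ) = ∑ y ∈ Y, if ψ i y then (1 : ℝ) else 0 := by
      rw [card_filter]; push_cast; rfl
    nth_rw 1 [hk]
    rw [sum_mul]
    refine sum_congr rfl fun x hx => ?_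
    by_cases h : ψ i x
    · rw [hk, ← add_sum_erase Y _ hx]; simp [h]
    · simp [h]
  rw [this, WS_sum]
  refine sum_congr rfl fun x _ => ?_
  rw [WS_sum]
  refine sum_congr rfl fun y _ => ?_
  rw [← WS_ite fun i => ψ i x ∧ ψ i y]
  refine WS_congr (fun _ _ => Iff.rfl) fun i _ _ => ?_
  congr

theorem sum2_W (Y : Finset X) :
    ∑ x ∈ Y, ∑ y ∈ Y.erase x, c.W (fun i => φ i ∧ x ∈ i.2 ∧ y ∈ i.2) =
      c.WS φ fun i => ((Y ∩ i.2).card : ℝ) * (((Y ∩ i.2).card : ℝ) - 1) := by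
  rw [sum2_W' Y fun i y => y ∈ i.2]
  refine WS_congr (fun _ _ => Iff.rfl) fun i _ _ => ?_
  have : ∀ inst : DecidablePred fun y => y ∈ i.2, @filter _ _ inst Y = Y ∩ i.2 := by
    intro inst; ext y; simp
  rw [this]

theorem Good.d_pos (hc : c.Good) {x y : X} (h : x ≠ y) : 0 < c.d x y :=
  lt_of_lt_of_le (by have := hc.rlo_pos; positivity) (hc.d_lo x y h)

theorem Good.d_nonneg (hc : c.Good) (x y : X) : 0 ≤ c.d x y := by
  by_cases h : x = y
  · rw [h, hc.d_self]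
  · exact (hc.d_pos h).le

theorem Good.lam_pos (hc : c.Good) : 0 < c.lam := lt_of_lt_of_le one_pos hc.lam_lo

theorem Good.xi_nonneg (hc : c.Good) : 0 ≤ c.xi := hc.eta_lo.trans hc.eta_hi

/-- cells through two points below a radius -/
theorem Good.pair_below (hc : c.Good) {x y : X} (h : x ≠ y) (b : ℝ) :
    c.W (fun i => x ∈ i.2 ∧ y ∈ i.2 ∧ c.ρ i < b) ≤
      max 0 (Real.log (c.lam * b / c.d x y)) + c.eta := by
  have hd := hc.d_pos h
  have hl := hc.lam_pos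
  have h1 : ∀ i ∈ c.I, x ∈ i.2 → y ∈ i.2 → c.d x y / c.lam ≤ c.ρ i := fun i hi hx hy => by
    rw [div_le_iff₀ hl, mul_comm]; exact hc.c1 i hi x hx y hy
  by_cases hb : c.d x y / c.lam ≤ b
  · have h2 := hc.c2 x (c.d x y / c.lam) b (div_pos hd hl) hb
    have h3 : b / (c.d x y / c.lam) = c.lam * b / c.d x y := by field_simp
    rw [h3] at h2
    refine le_trans (W_mono hc fun i hi hj => ⟨hj.1, h1 i hi hj.1 hj.2.1, hj.2.2⟩) (h2.trans ?_)
    gcongr; exact le_max_right _ _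
  · rw [W_zero fun i hi hj => hb ((h1 i hi hj.1 hj.2.1).trans hj.2.2.le)]
    exact add_nonneg (le_max_left _ _) hc.eta_lo

variable {hv : ℕ × Finset X → Prop} {Y : Finset X} {σ : ℝ}

theorem mem_ball {x z : X} {r : ℝ} : z ∈ c.ball Y x r ↔ z ∈ Y ∧ c.d x z ≤ r := by
  unfold ball; exact mem_filter

theorem ball_subset {x : X} {r : ℝ} : c.ball Y x r ⊆ Y := fun _ h => (mem_ball.1 h).1

theorem inter_subset_ball (hc : c.Good) {i : ℕ × Finset X} (hi : i ∈ c.I) {y : X} (hy : y ∈ i.2) :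
    Y ∩ i.2 ⊆ c.ball Y y (c.lam * c.ρ i) := fun z hz =>
  mem_ball.2 ⟨(mem_inter.1 hz).1, hc.c1 i hi y hy z (mem_inter.1 hz).2⟩

theorem o_symm (x y : X) : c.o hv x y = c.o hv y x := W_congr fun _ _ => and_comm

theorem osm_symm (x y : X) : c.osm hv Y σ x y = c.osm hv Y σ y x :=
  W_congr fun _ _ => by tauto

theorem olg_symm (x y : X) : c.olg hv Y σ x y = c.olg hv Y σ y x :=
  W_congr fun _ _ => by tauto

theorem o_eq (Y : Finset X) (σ : ℝ) (x y : X) :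
    c.o hv x y = c.osm hv Y σ x y + c.olg hv Y σ x y := by
  unfold o osm olg
  rw [W_split (c.small hv Y σ)]
  congr 1
  · refine W_congr fun i _ => ?_
    unfold inC small; tauto
  · exact W_congr fun _ _ => by tauto

/-- the pair weight in terms of overlaps -/
theorem pair_eq (hv : ℕ × Finset X → Prop) (x y : X) :
    c.W (fun i => x ∈ i.2 ∧ y ∈ i.2) = c.o hv x y - c.H hv x - c.H hv y + c.W hv := by
  unfold o H W
  rw [← sum_sub_distrib, ← sum_sub_distrib, ← sum_add_distrib]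
  refine sum_congr rfl fun i _ => ?_
  unfold inC
  by_cases h1 : hv i <;> by_cases h2 : x ∈ i.2 <;> by_cases h3 : y ∈ i.2 <;> simp [h1, h2, h3]

theorem o_nonneg (hc : c.Good) (x y : X) : 0 ≤ c.o hv x y := W_nonneg hc

theorem H_nonneg (hc : c.Good) (x : X) : 0 ≤ c.H hv x := W_nonneg hc

theorem osm_nonneg (hc : c.Good) (x y : X) : 0 ≤ c.osm hv Y σ x y := W_nonneg hc

theorem olg_nonneg (hc : c.Good) (x y : X) : 0 ≤ c.olg hv Y σ x y := W_nonneg hc

theorem Hlow_nonneg (hc : c.Good) (γ : Geo X) : 0 ≤ c.Hlow hv γ := W_nonneg hc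

theorem disc_nonneg (hc : c.Good) (C : Finset X) : 0 ≤ c.disc hv Y σ C :=
  WS_nonneg hc fun _ _ _ => sq_nonneg _

theorem ulow_nonneg (hc : c.Good) (γ : Geo X) : 0 ≤ c.ulow hv Y σ γ :=
  WS_nonneg hc fun _ _ _ => sq_nonneg _

theorem G_nonneg (γ : Geo X) (x : X) : 0 ≤ c.G γ x := le_max_left _ _

end Cells

theorem Geo.Good.r_pos {γ : Geo X} {c : Cells X} {Y : Finset X} (h : γ.Good c Y) (hc : c.Good) :
    0 < γ.r := lt_of_lt_of_le (by have := hc.rlo_pos; positivity) h.r_lo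

theorem Geo.Good.s_pos {γ : Geo X} {c : Cells X} {Y : Finset X} (h : γ.Good c Y) (hc : c.Good)
    {x : X} (hx : x ∈ Y) : 0 < γ.rs x :=
  lt_of_lt_of_le (by have := hc.rlo_pos; positivity) (h.s_lo x hx)

theorem Geo.Good.card_pos {γ : Geo X} {c : Cells X} {Y : Finset X} (h : γ.Good c Y) :
    (0 : ℝ) < Y.card := by exact_mod_cast Finset.card_pos.2 ⟨_, h.cen_mem⟩

/-- distance to the centre in terms of the outlier length -/
theorem Geo.Good.d_le {γ : Geo X} {c : Cells X} {Y : Finset X} (h : γ.Good c Y) (hc : c.Good)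
    (x : X) : c.d x γ.cen ≤ γ.r * Real.exp (c.G γ x) := by
  have hr := h.r_pos hc
  rcases (hc.d_nonneg x γ.cen).eq_or_lt with h0 | h0
  · rw [← h0]; positivity
  · rw [← div_le_iff₀' hr, ← Real.log_le_iff_le_exp (div_pos h0 hr)]
    exact le_max_right _ _

theorem Zs_mono (lab : X → X → ℝ) {Y Q : Finset X} (h : Y ⊆ Q) : Zs lab Y ≤ Zs lab Q := by
  unfold Zs
  refine le_trans (sum_le_sum fun x _ => card_le_card
    (image_subset_image (erase_subset_erase x h))) (sum_le_sum_of_subset h)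

theorem mem_fib {lab : X → X → ℝ} {Y : Finset X} {x y z : X} :
    z ∈ fib lab Y x y ↔ z ∈ Y.erase x ∧ lab x z = lab x y := by
  unfold fib; exact mem_filter

/-- sums over ordered pairs can be swapped -/
theorem sum_erase_comm (Y : Finset X) (F : X → X → ℝ) :
    ∑ x ∈ Y, ∑ y ∈ Y.erase x, F x y = ∑ y ∈ Y, ∑ x ∈ Y.erase y, F x y := by
  refine sum_comm' fun x y => ?_
  simp only [mem_erase]
  constructor
  · rintro ⟨a, b, d⟩; exact ⟨⟨b.symm, a⟩, d⟩
  · rintro ⟨⟨a, b⟩, d⟩; exact ⟨b, a.symm, d⟩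

variable [Fintype PL] {s : Sys X PL} {hv : ℕ × Finset X → Prop} {Y : Finset X}

theorem Sys.Good.sum_bar (hs : s.Good) (f : PL → ℝ) :
    ∑ p, s.m p * f (s.bar p) = ∑ p, s.m p * f p := by
  rw [← Equiv.sum_comp s.bar fun p => s.m p * f p]
  exact sum_congr rfl fun p _ => by rw [hs.m_bar]

theorem Sys.Good.sum_le (hs : s.Good) {f g : PL → ℝ} (h : ∀ p, f p ≤ g p) :
    ∑ p, s.m p * f p ≤ ∑ p, s.m p * g p :=
  sum_le_sum fun p _ => mul_le_mul_of_nonneg_left (h p) (hs.m_lo p)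

theorem Sys.Good.sum_nonneg (hs : s.Good) {f : PL → ℝ} (h : ∀ p, 0 ≤ f p) :
    0 ≤ ∑ p, s.m p * f p :=
  Finset.sum_nonneg fun p _ => mul_nonneg (hs.m_lo p) (h p)

theorem Sys.O_symm (x y : X) : s.O hv x y = s.O hv y x :=
  sum_congr rfl fun p _ => by rw [Cells.o_symm]

theorem Sys.Osm_symm (σ : ℝ) (x y : X) : s.Osm hv Y σ x y = s.Osm hv Y σ y x :=
  sum_congr rfl fun p _ => by rw [Cells.osm_symm]

theorem Sys.O_eq (Y : Finset X) (σ : ℝ) (x y : X) :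
    s.O hv x y = s.Osm hv Y σ x y + s.Olg hv Y σ x y := by
  unfold Sys.O Sys.Osm Sys.Olg
  rw [← sum_add_distrib]
  exact sum_congr rfl fun p _ => by rw [Cells.o_eq Y σ, mul_add]

theorem Sys.Good.O_nonneg (hs : s.Good) (x y : X) : 0 ≤ s.O hv x y :=
  hs.sum_nonneg fun p => Cells.o_nonneg (hs.good p) x y

theorem Sys.Good.H_nonneg (hs : s.Good) (x : X) : 0 ≤ s.H hv x :=
  hs.sum_nonneg fun p => Cells.H_nonneg (hs.good p) x

theorem Sys.Good.Osm_nonneg (hs : s.Good) (σ : ℝ) (x y : X) : 0 ≤ s.Osm hv Y σ x y :=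
  hs.sum_nonneg fun p => Cells.osm_nonneg (hs.good p) x y

theorem Sys.Good.Olg_nonneg (hs : s.Good) (σ : ℝ) (x y : X) : 0 ≤ s.Olg hv Y σ x y :=
  hs.sum_nonneg fun p => Cells.olg_nonneg (hs.good p) x y

theorem Ctx.pc {h : X → ℝ} {T : ℝ} (hx : Ctx s hv Y h T) {γ : PL → Geo X}
    (hγ : ∀ p, (γ p).Good (s.c p) Y) (p : PL) : PC (s.c p) hv Y (γ p) :=
  ⟨hx.good.good p, fun i _ => hx.hvl i, fun i _ => hx.lgt i, hγ p⟩

end Pool.Agent.MP_6c3157_co.PD
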