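import Pool.Agent.MP_6c3157_co.PD.Basic

/-! Project PD: equidistribution of the fibres. -/

set_option autoImplicit false
set_option linter.unusedSectionVars false

noncomputable section

namespace Pool.Agent.MP_6c3157_co.PD

open Finset

theorem bones (hD : DG) (hB : B1) (hF : FIB) : B1S := by
  classical
  intro X PL _ _ s hv Y h T σ hx h2 hσ1
  have hs := hx.good
  have hT := hx.Tlo
  have hn0 : (0 : ℝ) ≤ Y.card := Nat.cast_nonneg _
  have hσ : 0 < σ := by
    by_contra hneg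
    have := mul_nonpos_of_nonpos_of_nonneg (not_lt.1 hneg) hn0
    linarith
  have hn : (0 : ℝ) < Y.card := by
    rcases hn0.eq_or_lt with h0 | h0
    · rw [← h0] at h2; linarith
    · exact h0
  have hTσ : T ≤ T / σ := by
    rw [le_div_iff₀ hσ]; nlinarith
  have hdiag : ∀ y ∈ Y, s.Olg hv Y σ y y ≤ 7 * T / σ := by
    intro y hy
    have e1 : s.Olg hv Y σ y y ≤ ∑ p, s.m p * ((s.c p).H hv y +
        2 / (σ * Y.card) * (∑ z ∈ Y.erase y, (s.c p).o hv y z) + 4 * (s.c p).xi) :=
      hs.sum_le fun p => hD X (s.c p) hv Y σ (hs.good p) h2 hσ1 y hy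
    have e2 : ∑ p, s.m p * ((s.c p).H hv y +
        2 / (σ * Y.card) * (∑ z ∈ Y.erase y, (s.c p).o hv y z) + 4 * (s.c p).xi) =
        s.H hv y + 2 / (σ * Y.card) * (∑ z ∈ Y.erase y, s.O hv y z) +
          4 * ∑ p, s.m p * (s.c p).xi := by
      unfold Sys.H Sys.O
      rw [sum_comm, mul_sum, mul_sum, ← sum_add_distrib, ← sum_add_distrib]
      refine sum_congr rfl fun p _ => ?_
      rw [← mul_sum]; ring
    have e3 : ∑ z ∈ Y.erase y, s.O hv y z ≤ Y.card * T := by
      refine le_trans (sum_le_sum fun z hz =>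
        hx.Ole y hy z (mem_erase.1 hz).2 (mem_erase.1 hz).1.symm) ?_
      rw [sum_const, nsmul_eq_mul]
      have : ((Y.erase y).card : ℝ) ≤ Y.card := by exact_mod_cast card_erase_le
      exact mul_le_mul_of_nonneg_right this (by linarith)
    have e4 : 2 / (σ * Y.card) * (∑ z ∈ Y.erase y, s.O hv y z) ≤ 2 * (T / σ) := by
      refine le_trans (mul_le_mul_of_nonneg_left e3 (by positivity)) (le_of_eq ?_)
      field_simp
    have e5 := hx.Hle y hy
    have e6 := hs.xi_sum
    have e7 : 7 * T / σ = 7 * (T / σ) := by ring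
    rw [e7]; linarith
  refine ⟨hdiag, ?_⟩
  set g : X → ℝ := fun z => ∑ w ∈ Y.erase z, s.Osm hv Y σ z w with hg
  have g0 : ∀ z, 0 ≤ g z := fun z => sum_nonneg fun w _ => hs.Osm_nonneg σ z w
  have hrow : ∀ x ∈ Y, ∑ y ∈ Y.erase x, s.Disc hv Y σ (fib s.lab Y x y) ≤
      9 * T / σ * (((Y.erase x).image (s.lab x)).card : ℝ) + 4 * ep * Y.card +
        2 / Y.card * s.Th hv Y σ := by
    intro x _
    obtain ⟨f1, f2⟩ := hF X s.lab Y x
    have e1 : ∀ y ∈ Y.erase x, s.Disc hv Y σ (fib s.lab Y x y) ≤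
        9 * T / σ * (1 / ((fib s.lab Y x y).card : ℝ)) + 4 * ep +
          2 / Y.card * ((∑ z ∈ fib s.lab Y x y, g z) / (fib s.lab Y x y).card) := by
      intro y hy
      have hsub : fib s.lab Y x y ⊆ Y := fun z hz => (mem_erase.1 (mem_fib.1 hz).1).2
      have hne : (fib s.lab Y x y).Nonempty := ⟨y, mem_fib.2 ⟨hy, rfl⟩⟩
      have hb := hB X PL s hv Y (fib s.lab Y x y) h T σ (7 * T / σ) hx hsub hne hdiag
      have hc : (0 : ℝ) < (fib s.lab Y x y).card := by exact_mod_cast hne.card_pos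
      have e2 : (7 * T / σ + 2) / ((fib s.lab Y x y).card : ℝ) ≤
          9 * T / σ * (1 / ((fib s.lab Y x y).card : ℝ)) := by
        rw [mul_one_div]
        refine div_le_div_of_nonneg_right ?_ hc.le
        have a1 : 7 * T / σ = 7 * (T / σ) := by ring
        have a2 : 9 * T / σ = 9 * (T / σ) := by ring
        rw [a1, a2]; linarith
      exact hb.trans (add_le_add (add_le_add e2 le_rfl) le_rfl)
    refine le_trans (sum_le_sum e1) ?_
    rw [sum_add_distrib, sum_add_distrib, sum_const, nsmul_eq_mul, ← mul_sum, ← mul_sum, f1, f2 g]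
    have a1 : ((Y.erase x).card : ℝ) ≤ Y.card := by exact_mod_cast card_erase_le
    have a2 : ∑ z ∈ Y.erase x, g z ≤ s.Th hv Y σ :=
      sum_le_sum_of_subset_of_nonneg (erase_subset x Y) fun z _ _ => g0 z
    have a3 : 2 / (Y.card : ℝ) * ∑ z ∈ Y.erase x, g z ≤ 2 / Y.card * s.Th hv Y σ :=
      mul_le_mul_of_nonneg_left a2 (by positivity)
    have a4 : ((Y.erase x).card : ℝ) * (4 * ep) ≤ 4 * ep * Y.card := by
      rw [mul_comm]
      exact mul_le_mul_of_nonneg_left a1 (by have := ep_pos; positivity)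
    exact add_le_add (add_le_add le_rfl a4) a3
  have z1 : (Zs s.lab Y : ℝ) = ∑ x ∈ Y, (((Y.erase x).image (s.lab x)).card : ℝ) := by
    unfold Zs; exact Nat.cast_sum _ _
  have z2 : ∀ t : ℝ, (Y.card : ℝ) * (2 / Y.card * t) = 2 * t := fun t => by field_simp
  refine le_trans (sum_le_sum hrow) (le_of_eq ?_)
  rw [sum_add_distrib, sum_add_distrib, sum_const, sum_const, nsmul_eq_mul, nsmul_eq_mul,
    ← mul_sum, z1, z2]
  ring

end Pool.Agent.MP_6c3157_co.PD
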