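import Pool.Agent.MP_6c3157_co.PD.Basic

/-! Project PD, row DG: the diagonal term. -/

set_option autoImplicit false
set_option linter.unusedSectionVars false

noncomputable section

namespace Pool.Agent.MP_6c3157_co.PD

open Finset

theorem dg (h : QR) : DG := by
  intro X _ c hv Y σ g h2 h1 y hy
  have n0 : (0 : ℝ) ≤ Y.card := Nat.cast_nonneg _
  obtain ⟨a, -, ha, q1, q2⟩ := h X c Y g y hy (σ * Y.card) (by linarith)
    (mul_le_of_le_one_left n0 h1)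
  have hr := g.d_pos ha.symm
  have hl := g.lam_pos
  generalize c.d y a = r at *
  have a1 : c.olg hv Y σ y y ≤ c.H hv y +
      c.W (fun i => ¬ hv i ∧ y ∈ i.2 ∧ r / c.lam ^ 2 ≤ c.ρ i) := by
    refine Cells.W_le_add g fun i hi k => k.2.1.imp id fun u => ⟨u.1, u.2, ?_⟩
    by_contra v
    refine k.1 ⟨u.1, fun z _ hz => lt_of_le_of_lt ?_ (q2 (c.lam * (c.lam * c.ρ i)) ?_)⟩
    · refine Nat.cast_le.2 (card_le_card fun w hw => Cells.mem_ball.2 ⟨Cells.ball_subset hw, ?_⟩)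
      exact (g.d_tri y z w).trans (mul_le_mul_of_nonneg_left
        (max_le (g.c1 i hi y u.2 z hz) (Cells.mem_ball.1 hw).2) hl.le)
    · have := (lt_div_iff₀ (by positivity)).1 (not_le.1 v)
      linarith
  have a2 : c.W (fun i => ¬ hv i ∧ y ∈ i.2 ∧ r / c.lam ^ 2 ≤ c.ρ i) ≤
      c.W (fun i => y ∈ i.2 ∧ r / c.lam ^ 2 ≤ c.ρ i ∧ c.ρ i < r) +
        c.W (fun i => ¬ hv i ∧ y ∈ i.2 ∧ r ≤ c.ρ i) :=
    Cells.W_le_add g fun i _ k => (lt_or_ge (c.ρ i) r).imp (fun u => ⟨k.2.1, k.2.2, u⟩)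
      fun u => ⟨k.1, k.2.1, u⟩
  have a3 := g.c2 y (r / c.lam ^ 2) r (by positivity) (div_le_self hr.le (one_le_pow₀ g.lam_lo))
  rw [show r / (r / c.lam ^ 2) = c.lam ^ 2 by field_simp, Real.log_pow] at a3
  have a4 := g.log_lam
  have a5 := g.eta_hi
  have b1 : ∀ z ∈ (c.ball Y y r).erase y,
      c.W (fun i => ¬ hv i ∧ y ∈ i.2 ∧ r ≤ c.ρ i) - c.xi ≤ c.o hv y z := fun z hz => by
    have e : c.W (fun i => ¬ hv i ∧ y ∈ i.2 ∧ r ≤ c.ρ i) ≤ c.o hv y z + c.W (fun i =>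
        r ≤ c.ρ i ∧ (∃ a ∈ i.2, c.d y a ≤ r) ∧ ∃ b, b ∉ i.2 ∧ c.d y b ≤ r) := by
      refine Cells.W_le_add g fun i _ k => ?_
      by_cases u : z ∈ i.2
      · exact Or.inl ⟨Or.inr ⟨k.1, k.2.1⟩, Or.inr ⟨k.1, u⟩⟩
      · exact Or.inr ⟨k.2.2, ⟨y, k.2.1, (g.d_self y).trans_le hr.le⟩, z, u,
          (Cells.mem_ball.1 (mem_of_mem_erase hz)).2⟩
    have := g.c5 y r hr
    linarith
  have b2 := card_nsmul_le_sum _ _ _ b1
  have b3 : ∑ z ∈ (c.ball Y y r).erase y, c.o hv y z ≤ ∑ z ∈ Y.erase y, c.o hv y z :=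
    sum_le_sum_of_subset_of_nonneg (erase_subset_erase y Cells.ball_subset)
      fun z _ _ => Cells.o_nonneg g y z
  have b4 : 0 ≤ ∑ z ∈ Y.erase y, c.o hv y z := sum_nonneg fun z _ => Cells.o_nonneg g y z
  have b5 : ((c.ball Y y r).card : ℝ) = ((c.ball Y y r).erase y).card + 1 := by
    exact_mod_cast (card_erase_add_one
      (Cells.mem_ball.2 ⟨hy, (g.d_self y).trans_le hr.le⟩)).symm
  rw [nsmul_eq_mul] at b2
  have k0 : 0 < σ * Y.card := by linarith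
  have b6 : c.W (fun i => ¬ hv i ∧ y ∈ i.2 ∧ r ≤ c.ρ i) - c.xi ≤
      2 / (σ * Y.card) * ∑ z ∈ Y.erase y, c.o hv y z := by
    rcases le_total (c.W (fun i => ¬ hv i ∧ y ∈ i.2 ∧ r ≤ c.ρ i) - c.xi) 0 with u | u
    · exact u.trans (by positivity)
    · have := mul_le_mul_of_nonneg_right
        (show σ * Y.card / 2 ≤ ((c.ball Y y r).erase y).card by linarith) u
      rw [div_mul_eq_mul_div, le_div_iff₀ k0]
      linarith
  push_cast at a3
  linarith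

end Pool.Agent.MP_6c3157_co.PD
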