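import Pool.Agent.MP_6c3157_co.PD.Basic

/-! Project PD: counting levels. -/

set_option autoImplicit false

noncomputable section

namespace Pool.Agent.MP_6c3157_co.PD

open Finset

section
variable {R s a : ℝ} {j : ℕ}

theorem lev_pos (hR : 0 < R) (s : ℝ) (j : ℕ) : 0 < lvl R s j := mul_pos hR (Real.exp_pos _)

theorem lev_log (hR : 0 < R) (s : ℝ) (j : ℕ) : Real.log (lvl R s j) = Real.log R - j * s := by
  rw [lvl, Real.log_mul hR.ne' (Real.exp_pos _).ne', Real.log_exp, sub_eq_add_neg]

theorem lev_ge (hR : 0 < R) (hs : 0 < s) (ha : 0 < a) :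
    a ≤ lvl R s j ↔ (j : ℝ) ≤ (Real.log R - Real.log a) / s := by
  rw [← Real.log_le_log_iff ha (lev_pos hR s j), lev_log hR, le_div_iff₀ hs]
  constructor <;> intro h <;> linarith

theorem lev_le (hR : 0 < R) (hs : 0 < s) (ha : 0 < a) :
    lvl R s j ≤ a ↔ (Real.log R - Real.log a) / s ≤ j := by
  rw [← Real.log_le_log_iff (lev_pos hR s j) ha, lev_log hR, div_le_iff₀ hs]
  constructor <;> intro h <;> linarith

theorem lev_geo (hR : 0 < R) (hs : 0 < s) (ha : 0 < a) (h2 : s ≤ 1 / 2) (n : ℕ) :
    ∑ j ∈ range n, (if a ≤ lvl R s j then s * (a / lvl R s j) else 0) ≤ 2 ∧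
    ∑ j ∈ range n, (if a ≤ lvl R s j then s * (a / lvl R s j) else 0) ≤
      2 * Real.exp (-s) * (a / lvl R s n) := by
  induction n with
  | zero =>
    have := lev_pos hR s 0
    rw [sum_range_zero]
    exact ⟨by norm_num, by positivity⟩
  | succ n ih =>
    have p := lev_pos hR s n
    have u : 0 < a / lvl R s n := div_pos ha p
    have e : Real.exp (-s) * (a / lvl R s (n + 1)) = a / lvl R s n := by
      have : lvl R s (n + 1) = lvl R s n * Real.exp (-s) := by
        rw [lvl, lvl, mul_assoc, ← Real.exp_add]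
        push_cast
        ring_nf
      rw [this]
      field_simp
    have k : 2 * Real.exp (-s) + s ≤ 2 := by
      have h3 := Real.add_one_le_exp s
      have h4 : Real.exp (-s) * Real.exp s = 1 := by rw [← Real.exp_add]; simp
      have h5 := Real.exp_pos (-s)
      have h6 := mul_le_mul_of_nonneg_left h3 h5.le
      by_contra h7
      nlinarith
    have k2 := mul_le_mul_of_nonneg_right k u.le
    rw [sum_range_succ, mul_assoc 2, e]
    split_ifs with h
    · have := (div_le_one p).2 h
      constructor <;> nlinarith [ih.2]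
    · have := mul_pos hs u
      constructor <;> nlinarith [ih.1, ih.2]

end

theorem lev : LEV := by
  intro R s J hR hs
  have q : ∀ x y : ℝ, s * (x / s - y / s) = x - y := fun x y => by field_simp
  refine ⟨fun a b ha hab => ?_, fun a b h1 hab h2 => ?_, fun t h1 h2 => ?_,
    fun r hr h => (lev_geo hR hs hr h _).1, fun t ht => ?_⟩
  · have hb := ha.trans_le hab
    have q1 := q (Real.log R - Real.log a) (Real.log R - Real.log b)
    have hl := Real.log_le_log ha hab
    have hBA : (Real.log R - Real.log b) / s ≤ (Real.log R - Real.log a) / s := by gcongr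
    rw [Real.log_div hb.ne' ha.ne']
    simp only [← not_le, lev_ge hR hs ha, lev_ge hR hs hb]
    generalize (Real.log R - Real.log a) / s = A at *
    generalize (Real.log R - Real.log b) / s = B at *
    have c := card_le_card_of_injOn (s := (range (J + 1)).filter fun j : ℕ => (j : ℝ) ≤ A ∧ ¬(j : ℝ) ≤ B)
      (t := Ioc ⌊B⌋ ⌊A⌋) (fun j => (j : ℤ)) (fun j hj => by
        obtain ⟨-, u, v⟩ := mem_filter.1 hj
        exact mem_coe.2 (mem_Ioc.2 ⟨Int.floor_lt.2 (by exact_mod_cast not_le.1 v),
          Int.le_floor.2 (by exact_mod_cast u)⟩)) fun _ _ _ _ e => Int.ofNat_inj.1 e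
    have c2 : ((Ioc ⌊B⌋ ⌊A⌋).card : ℝ) = ⌊A⌋ - ⌊B⌋ := by
      exact_mod_cast Int.card_Ioc_of_le _ _ (Int.floor_le_floor hBA)
    have c3 := (Nat.cast_le (α := ℝ)).2 c
    have := Int.floor_le A
    have := Int.lt_floor_add_one B
    nlinarith
  · have ha := (lev_pos hR s J).trans_le h1
    have hb := ha.trans_le hab
    have q1 := q (Real.log R - Real.log a) (Real.log R - Real.log b)
    have hl := Real.log_le_log ha hab
    have hBA : (Real.log R - Real.log b) / s ≤ (Real.log R - Real.log a) / s := by gcongr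
    have hB : 0 ≤ (Real.log R - Real.log b) / s :=
      div_nonneg (sub_nonneg.2 (Real.log_le_log hb h2)) hs.le
    rw [lev_le hR hs ha] at h1
    rw [Real.log_div hb.ne' ha.ne']
    simp only [← not_le, lev_ge hR hs ha, lev_ge hR hs hb]
    generalize (Real.log R - Real.log a) / s = A at *
    generalize (Real.log R - Real.log b) / s = B at *
    have c : ((range (J + 1)).filter fun j : ℕ => (j : ℝ) ≤ A ∧ ¬(j : ℝ) ≤ B) = Ioc ⌊B⌋₊ ⌊A⌋₊ := by
      ext j
      rw [mem_filter, mem_range, mem_Ioc, Nat.floor_lt hB, Nat.le_floor_iff (hB.trans hBA), not_le]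
      exact ⟨fun h => ⟨h.2.2, h.2.1⟩, fun h => ⟨Nat.lt_succ_iff.2 (by
        exact_mod_cast h.2.trans h1), h.2, h.1⟩⟩
    rw [c, Nat.card_Ioc, Nat.cast_sub (Nat.floor_le_floor hBA)]
    have := Nat.floor_le hB
    have := Nat.lt_floor_add_one A
    nlinarith
  · have ha := (lev_pos hR s J).trans_le h1
    have q1 := q (Real.log R - Real.log t) 0
    have hB : 0 ≤ (Real.log R - Real.log t) / s :=
      div_nonneg (sub_nonneg.2 (Real.log_le_log ha h2)) hs.le
    rw [lev_le hR hs ha] at h1
    rw [Real.log_div hR.ne' ha.ne']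
    simp only [lev_ge hR hs ha]
    generalize (Real.log R - Real.log t) / s = A at *
    have c : ((range (J + 1)).filter fun j : ℕ => (j : ℝ) ≤ A) = range (⌊A⌋₊ + 1) := by
      ext j
      rw [mem_filter, mem_range, mem_range, Nat.lt_succ_iff, Nat.lt_succ_iff, Nat.le_floor_iff hB]
      exact ⟨fun h => h.2, fun h => ⟨by exact_mod_cast h.trans h1, h⟩⟩
    rw [c, card_range, abs_le]
    have := Nat.floor_le hB
    have := Nat.lt_floor_add_one A
    rw [zero_div] at q1
    push_cast
    constructor <;> nlinarith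
  · exact (exists_nat_ge _).imp fun _ h => (lev_le hR hs ht).2 h

end Pool.Agent.MP_6c3157_co.PD
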