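import Pool.Agent.MP_6c3157_co.PD.Basic

/-! Project PD, row NF: specialisation of a planar configuration to a number field. -/

set_option autoImplicit false
set_option linter.unusedSectionVars false

noncomputable section

namespace Pool.Agent.MP_6c3157_co.PD

open Finset

/-- a finitely generated subalgebra of the complex numbers maps to a number field -/
theorem nf_hom (F : Finset ℂ) :
    ∃ (K : Type) (_ : Field K) (_ : NumberField K),
      Nonempty (Algebra.adjoin ℚ (F : Set ℂ) →+* K) := by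
  have hfg : (Algebra.adjoin ℚ (F : Set ℂ)).FG := Subalgebra.fg_adjoin_finset F
  have hft : Algebra.FiniteType ℚ (Algebra.adjoin ℚ (F : Set ℂ)) :=
    (Subalgebra.fg_iff_finiteType _).1 hfg
  obtain ⟨m, hm⟩ := Ideal.exists_maximal (Algebra.adjoin ℚ (F : Set ℂ))
  let : Field (Algebra.adjoin ℚ (F : Set ℂ) ⧸ m) := Ideal.Quotient.field m
  have : Module.Finite ℚ (Algebra.adjoin ℚ (F : Set ℂ) ⧸ m) :=
    finite_of_finite_type_of_isJacobsonRing ℚ _
  refine ⟨Algebra.adjoin ℚ (F : Set ℂ) ⧸ m, inferInstance, ?_, ⟨Ideal.Quotient.mk m⟩⟩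
  exact NumberField.of_module_finite ℚ _

/-- two complex families specialise, keeping injectivity and the quadratic relations -/
theorem nf_spec (X : Type) [Fintype X] (u v : X → ℂ) (hu : Function.Injective u)
    (hv : Function.Injective v) :
    ∃ (K : Type) (_ : Field K) (_ : NumberField K) (U V : X → K),
      Function.Injective U ∧ Function.Injective V ∧
      ∀ x y z, (u x - u y) * (v x - v y) = (u x - u z) * (v x - v z) →
        (U x - U y) * (V x - V y) = (U x - U z) * (V x - V z) := by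
  classical
  let F : Finset ℂ := (univ.image u ∪ univ.image v) ∪
    ((univ.image fun p : X × X => (u p.1 - u p.2)⁻¹) ∪
      univ.image fun p : X × X => (v p.1 - v p.2)⁻¹)
  obtain ⟨K, iK, nK, ⟨φ⟩⟩ := nf_hom F
  have h1 : ∀ x, u x ∈ Algebra.adjoin ℚ (F : Set ℂ) := fun x =>
    Algebra.subset_adjoin (mem_coe.2 (mem_union_left _ (mem_union_left _
      (mem_image_of_mem _ (mem_univ x)))))
  have h2 : ∀ x, v x ∈ Algebra.adjoin ℚ (F : Set ℂ) := fun x =>
    Algebra.subset_adjoin (mem_coe.2 (mem_union_left _ (mem_union_right _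
      (mem_image_of_mem _ (mem_univ x)))))
  have h3 : ∀ x y, (u x - u y)⁻¹ ∈ Algebra.adjoin ℚ (F : Set ℂ) := fun x y =>
    Algebra.subset_adjoin (mem_coe.2 (mem_union_right _ (mem_union_left _
      (mem_image_of_mem (fun p : X × X => (u p.1 - u p.2)⁻¹) (mem_univ (x, y))))))
  have h4 : ∀ x y, (v x - v y)⁻¹ ∈ Algebra.adjoin ℚ (F : Set ℂ) := fun x y =>
    Algebra.subset_adjoin (mem_coe.2 (mem_union_right _ (mem_union_right _
      (mem_image_of_mem (fun p : X × X => (v p.1 - v p.2)⁻¹) (mem_univ (x, y))))))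
  have key : ∀ (w : X → ℂ) (hw : ∀ x, w x ∈ Algebra.adjoin ℚ (F : Set ℂ)),
      (∀ x y, (w x - w y)⁻¹ ∈ Algebra.adjoin ℚ (F : Set ℂ)) → Function.Injective w →
      Function.Injective fun x => φ ⟨w x, hw x⟩ := by
    intro w hw hi hinj x y hxy
    by_contra hne
    have h0 : w x - w y ≠ 0 := sub_ne_zero.2 fun h => hne (hinj h)
    have h5 : ((⟨w x, hw x⟩ : Algebra.adjoin ℚ (F : Set ℂ)) - ⟨w y, hw y⟩) *
        ⟨(w x - w y)⁻¹, hi x y⟩ = 1 := Subtype.ext (mul_inv_cancel₀ h0)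
    have h6 := congrArg φ h5
    have h7 : φ ⟨w x, hw x⟩ = φ ⟨w y, hw y⟩ := hxy
    rw [map_mul, map_sub, h7, sub_self, zero_mul, map_one] at h6
    exact zero_ne_one h6
  refine ⟨K, iK, nK, fun x => φ ⟨u x, h1 x⟩, fun x => φ ⟨v x, h2 x⟩, key u h1 h3 hu,
    key v h2 h4 hv, fun x y z h => ?_⟩
  have h5 : ((⟨u x, h1 x⟩ : Algebra.adjoin ℚ (F : Set ℂ)) - ⟨u y, h1 y⟩) *
      (⟨v x, h2 x⟩ - ⟨v y, h2 y⟩) =
      (⟨u x, h1 x⟩ - ⟨u z, h1 z⟩) * (⟨v x, h2 x⟩ - ⟨v z, h2 z⟩) := Subtype.ext h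
  have h6 := congrArg φ h5
  simpa only [map_mul, map_sub] using h6

theorem nf : NF := by
  intro X _ P hP
  let u : X → ℂ := fun x => (P x 0 : ℂ) + Complex.I * (P x 1 : ℂ)
  let v : X → ℂ := fun x => (P x 0 : ℂ) - Complex.I * (P x 1 : ℂ)
  have hd : ∀ x y, (u x - u y) * (v x - v y) = ((dist (P x) (P y) ^ 2 : ℝ) : ℂ) := by
    intro x y
    rw [EuclideanSpace.dist_sq_eq, Fin.sum_univ_two, Real.dist_eq, Real.dist_eq, sq_abs, sq_abs]
    push_cast
    simp only [u, v]
    linear_combination (-((P x 1 : ℂ) - (P y 1 : ℂ)) ^ 2) * Complex.I_sq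
  have hinj : ∀ x y, (u x - u y) * (v x - v y) = 0 → x = y := by
    intro x y h
    rw [hd] at h
    have h1 : dist (P x) (P y) ^ 2 = 0 := by exact_mod_cast h
    exact hP (dist_eq_zero.1 (pow_eq_zero_iff two_ne_zero |>.1 h1))
  have hu : Function.Injective u := fun x y h => hinj x y (by rw [h, sub_self, zero_mul])
  have hv : Function.Injective v := fun x y h => hinj x y (by rw [h, sub_self, mul_zero])
  obtain ⟨K, iK, nK, U, V, hU, hV, h⟩ := nf_spec X u v hu hv
  exact ⟨K, iK, nK, U, V, hU, hV, fun x y z hxyz => h x y z (by rw [hd, hd, hxyz])⟩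

end Pool.Agent.MP_6c3157_co.PD
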