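import Mathlib

/-! Project PD: pinned distances by the product formula. Definitions and row statements. -/

set_option autoImplicit false
set_option linter.unusedSectionVars false

noncomputable section

namespace Pool.Agent.MP_6c3157_co.PD

open Finset

/-- the mass left outside the central ball -/
def tau : ℝ := 1 / 1000

/-- the small constant -/
def ep : ℝ := 1 / 10 ^ 28

/-- a weighted family of cells with radii on a set with a distance -/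
structure Cells (X : Type) where
  I : Finset (ℕ × Finset X)
  w : ℕ × Finset X → ℝ
  ρ : ℕ × Finset X → ℝ
  d : X → X → ℝ
  lam : ℝ
  eta : ℝ
  xi : ℝ
  g : ℝ
  K : ℝ
  rlo : ℝ
  rhi : ℝ

/-- central radius, centre and quantile radii -/
structure Geo (X : Type) where
  r : ℝ
  cen : X
  rs : X → ℝ

/-- places, weights, the swap of the two coordinates and the labels -/
structure Sys (X PL : Type) where
  c : PL → Cells X
  m : PL → ℝ
  bar : PL ≃ PL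
  lab : X → X → ℝ

section defs

variable {X PL : Type} [DecidableEq X]

open Classical in
/-- weight of the cells with a property -/
def Cells.W (c : Cells X) (φ : ℕ × Finset X → Prop) : ℝ := ∑ i ∈ c.I, if φ i then c.w i else 0

open Classical in
/-- weighted sum of `f` over the cells with a property -/
def Cells.WS (c : Cells X) (φ : ℕ × Finset X → Prop) (f : ℕ × Finset X → ℝ) : ℝ :=
  ∑ i ∈ c.I, if φ i then c.w i * f i else 0

/-- the properties of a cell system -/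
structure Cells.Good (c : Cells X) : Prop where
  d_self : ∀ x, c.d x x = 0
  d_symm : ∀ x y, c.d x y = c.d y x
  d_tri : ∀ x y z, c.d x z ≤ c.lam * max (c.d x y) (c.d y z)
  rlo_pos : 0 < c.rlo
  d_lo : ∀ x y, x ≠ y → 256 * c.rlo ≤ c.d x y
  d_hi : ∀ x y, c.d x y ≤ c.rhi
  lam_lo : 1 ≤ c.lam
  lam_hi : c.lam ≤ 2
  eta_lo : 0 ≤ c.eta
  eta_hi : c.eta ≤ c.xi
  log_lam : Real.log c.lam ≤ c.xi
  g_lo : 0 ≤ c.g
  g_xi : 0 < c.g → 1 ≤ c.xi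
  w_lo : ∀ i ∈ c.I, 0 ≤ c.w i
  rho_pos : ∀ i ∈ c.I, 0 < c.ρ i
  c1 : ∀ i ∈ c.I, ∀ x ∈ i.2, ∀ y ∈ i.2, c.d x y ≤ c.lam * c.ρ i
  c2 : ∀ x (a b : ℝ), 0 < a → a ≤ b →
    c.W (fun i => x ∈ i.2 ∧ a ≤ c.ρ i ∧ c.ρ i < b) ≤ Real.log (b / a) + c.eta
  c3 : ∀ x (a b : ℝ), c.rlo ≤ a → a ≤ b → b ≤ c.rhi →
    (Real.log (b / a) - c.eta) / 4 ≤
      c.W (fun i => x ∈ i.2 ∧ a ≤ c.ρ i ∧ c.ρ i < b ∧ ∀ z, c.d x z ≤ c.ρ i / c.lam → z ∈ i.2)
  c4 : ∀ x y, x ≠ y →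
    |c.W (fun i => x ∈ i.2 ∧ y ∈ i.2) - (c.K - Real.log (c.d x y))| ≤ c.eta
  c5 : ∀ x (r : ℝ), 0 < r →
    c.W (fun i => r ≤ c.ρ i ∧ (∃ a ∈ i.2, c.d x a ≤ r) ∧ ∃ b, b ∉ i.2 ∧ c.d x b ≤ r) ≤ c.xi
  c6 : ∀ x (r : ℝ) (Y : Finset X), 256 * c.rlo ≤ r → r ≤ c.rhi → (∀ y ∈ Y, c.d x y ≤ r) →
    c.g * (Y.card : ℝ) ^ 2 ≤
      c.WS (fun i => r / 128 ≤ c.ρ i ∧ c.ρ i < r / 64) (fun i => ((Y ∩ i.2).card : ℝ) ^ 2)

/-- `x` lies on the light side of the cell `i` -/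
def inC (hv : ℕ × Finset X → Prop) (i : ℕ × Finset X) (x : X) : Prop :=
  (hv i ∧ x ∉ i.2) ∨ (¬ hv i ∧ x ∈ i.2)

/-- overlap of two points -/
def Cells.o (c : Cells X) (hv : ℕ × Finset X → Prop) (x y : X) : ℝ :=
  c.W fun i => inC hv i x ∧ inC hv i y

/-- weight of the heavy cells that miss `x` -/
def Cells.H (c : Cells X) (hv : ℕ × Finset X → Prop) (x : X) : ℝ := c.W fun i => hv i ∧ x ∉ i.2

open Classical in
/-- points of `Y` within distance `r` of `x` -/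
def Cells.ball (c : Cells X) (Y : Finset X) (x : X) (r : ℝ) : Finset X :=
  Y.filter fun z => c.d x z ≤ r

/-- small cells -/
def Cells.small (c : Cells X) (hv : ℕ × Finset X → Prop) (Y : Finset X) (σ : ℝ)
    (i : ℕ × Finset X) : Prop :=
  ¬ hv i ∧ ∀ y ∈ Y, y ∈ i.2 → ((c.ball Y y (c.lam * c.ρ i)).card : ℝ) < σ * Y.card

/-- overlap through small cells -/
def Cells.osm (c : Cells X) (hv : ℕ × Finset X → Prop) (Y : Finset X) (σ : ℝ) (x y : X) : ℝ :=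
  c.W fun i => c.small hv Y σ i ∧ x ∈ i.2 ∧ y ∈ i.2

/-- overlap through the other cells -/
def Cells.olg (c : Cells X) (hv : ℕ × Finset X → Prop) (Y : Finset X) (σ : ℝ) (x y : X) : ℝ :=
  c.W fun i => ¬ c.small hv Y σ i ∧ inC hv i x ∧ inC hv i y

/-- discrepancy of `C` against `Y` on the cells that are not small -/
def Cells.disc (c : Cells X) (hv : ℕ × Finset X → Prop) (Y : Finset X) (σ : ℝ) (C : Finset X) : ℝ :=
  c.WS (fun i => ¬ c.small hv Y σ i)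
    fun i => (((C ∩ i.2).card : ℝ) / C.card - ((Y ∩ i.2).card : ℝ) / Y.card) ^ 2

/-- outlier length -/
def Cells.G (c : Cells X) (γ : Geo X) (x : X) : ℝ := max 0 (Real.log (c.d x γ.cen / γ.r))

/-- heavy cells below the central radius -/
def Cells.Hlow (c : Cells X) (hv : ℕ × Finset X → Prop) (γ : Geo X) : ℝ :=
  c.W fun i => hv i ∧ c.ρ i < γ.r / c.lam

/-- second moment of the low cells that are not small -/
def Cells.ulow (c : Cells X) (hv : ℕ × Finset X → Prop) (Y : Finset X) (σ : ℝ) (γ : Geo X) : ℝ :=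
  c.WS (fun i => ¬ c.small hv Y σ i ∧ c.ρ i < γ.r / c.lam ^ 6) fun i => ((Y ∩ i.2).card : ℝ) ^ 2

/-- the error of a pair at a place `c` with partner `c'` -/
def err (c c' : Cells X) (γ γ' : Geo X) (x y : X) : ℝ :=
  max 0 (Real.log (γ.r * γ'.rs x / (c.lam ^ 4 * (c.d x y * c'.d x y))))

/-- the geometric data fit `Y` -/
structure Geo.Good (γ : Geo X) (c : Cells X) (Y : Finset X) : Prop where
  cen_mem : γ.cen ∈ Y
  r_in : (1 - tau) * Y.card ≤ (c.ball Y γ.cen γ.r).card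
  r_min : ∀ x ∈ Y, ∀ t < γ.r, ((c.ball Y x t).card : ℝ) < (1 - tau) * Y.card
  r_lo : 256 * c.rlo ≤ γ.r
  r_hi : γ.r ≤ c.rhi
  s_in : ∀ x ∈ Y, tau / 2 * Y.card ≤ (c.ball Y x (γ.rs x)).card
  s_min : ∀ x ∈ Y, ∀ t < γ.rs x, ((c.ball Y x t).card : ℝ) < tau / 2 * Y.card
  s_lo : ∀ x ∈ Y, 256 * c.rlo ≤ γ.rs x
  s_hi : ∀ x ∈ Y, γ.rs x ≤ c.rhi

/-- everything known at one place -/
structure PC (c : Cells X) (hv : ℕ × Finset X → Prop) (Y : Finset X) (γ : Geo X) : Prop where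
  good : c.Good
  hvl : ∀ i ∈ c.I, hv i → Y.card ≤ 4 * (Y ∩ i.2).card
  lgt : ∀ i ∈ c.I, ¬ hv i → 4 * (Y ∩ i.2).card ≤ 3 * Y.card
  geo : γ.Good c Y

/-- heavy cells meet each other and are not inside light cells -/
structure HV (c : Cells X) (hv : ℕ × Finset X → Prop) : Prop where
  meet : ∀ i ∈ c.I, ∀ j ∈ c.I, hv i → hv j → ∃ z, z ∈ i.2 ∧ z ∈ j.2
  out : ∀ i ∈ c.I, ∀ j ∈ c.I, hv i → ¬ hv j → ∃ z, z ∈ i.2 ∧ z ∉ j.2

/-- cells that hold more than half of `Q` -/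
def heavy (Q : Finset X) (i : ℕ × Finset X) : Prop := Q.card < 2 * (Q ∩ i.2).card

open Classical in
/-- total number of pinned labels -/
def Zs (lab : X → X → ℝ) (Q : Finset X) : ℕ := ∑ x ∈ Q, ((Q.erase x).image (lab x)).card

open Classical in
/-- the fibre of the pin `x` through `y` -/
def fib (lab : X → X → ℝ) (Y : Finset X) (x y : X) : Finset X :=
  (Y.erase x).filter fun z => lab x z = lab x y

variable [Fintype PL]

/-- the properties of a system -/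
structure Sys.Good (s : Sys X PL) : Prop where
  good : ∀ p, (s.c p).Good
  m_lo : ∀ p, 0 ≤ s.m p
  m_bar : ∀ p, s.m (s.bar p) = s.m p
  lam_bar : ∀ p, (s.c (s.bar p)).lam = (s.c p).lam
  pf : ∀ x y, x ≠ y → ∑ p, s.m p * Real.log ((s.c p).d x y) = 0
  f1 : ∀ p x y z, y ≠ x → z ≠ x → s.lab x y = s.lab x z →
    (s.c p).d x y * (s.c (s.bar p)).d x y = (s.c p).d x z * (s.c (s.bar p)).d x z
  f2 : ∀ p x y z, y ≠ x → z ≠ x → s.lab x y = s.lab x z →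
    (s.c (s.bar p)).d y z * (s.c p).d x z = (s.c (s.bar p)).d x y * (s.c p).d y z
  eta_sum : ∑ p, s.m p * (s.c p).eta ≤ ep
  xi_sum : ∑ p, s.m p * (s.c p).xi ≤ 20
  g_sum : 1 / 40000 ≤ ∑ p, s.m p * (s.c p).g

/-- total overlap -/
def Sys.O (s : Sys X PL) (hv : ℕ × Finset X → Prop) (x y : X) : ℝ :=
  ∑ p, s.m p * (s.c p).o hv x y

/-- total weight of heavy cells that miss `x` -/
def Sys.H (s : Sys X PL) (hv : ℕ × Finset X → Prop) (x : X) : ℝ := ∑ p, s.m p * (s.c p).H hv x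

/-- total overlap through small cells -/
def Sys.Osm (s : Sys X PL) (hv : ℕ × Finset X → Prop) (Y : Finset X) (σ : ℝ) (x y : X) : ℝ :=
  ∑ p, s.m p * (s.c p).osm hv Y σ x y

/-- total overlap through the other cells -/
def Sys.Olg (s : Sys X PL) (hv : ℕ × Finset X → Prop) (Y : Finset X) (σ : ℝ) (x y : X) : ℝ :=
  ∑ p, s.m p * (s.c p).olg hv Y σ x y

/-- total discrepancy -/
def Sys.Disc (s : Sys X PL) (hv : ℕ × Finset X → Prop) (Y : Finset X) (σ : ℝ) (C : Finset X) : ℝ :=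
  ∑ p, s.m p * (s.c p).disc hv Y σ C

/-- small overlap summed over the pairs of `Y` -/
def Sys.Th (s : Sys X PL) (hv : ℕ × Finset X → Prop) (Y : Finset X) (σ : ℝ) : ℝ :=
  ∑ x ∈ Y, ∑ y ∈ Y.erase x, s.Osm hv Y σ x y

/-- total low second moment -/
def Sys.U (s : Sys X PL) (hv : ℕ × Finset X → Prop) (Y : Finset X) (σ : ℝ) (γ : PL → Geo X) : ℝ :=
  ∑ p, s.m p * (s.c p).ulow hv Y σ (γ p)

/-- the data that the band step hands to the core -/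
structure Ctx (s : Sys X PL) (hv : ℕ × Finset X → Prop) (Y : Finset X) (h : X → ℝ) (T : ℝ) :
    Prop where
  good : s.Good
  hvl : ∀ i, hv i → Y.card ≤ 4 * (Y ∩ i.2).card
  lgt : ∀ i, ¬ hv i → 4 * (Y ∩ i.2).card ≤ 3 * Y.card
  idn : ∀ x ∈ Y, ∀ y ∈ Y, x ≠ y → |s.O hv x y - h x - h y| ≤ ep
  hlo : ∀ x ∈ Y, -1 ≤ h x
  Hle : ∀ x ∈ Y, s.H hv x ≤ T
  Ole : ∀ x ∈ Y, ∀ y ∈ Y, x ≠ y → s.O hv x y ≤ T
  Tlo : 20 ≤ T
  Thi : ∀ x ∈ Y, ∀ y ∈ Y, x ≠ y → T ≤ 17 * s.O hv x y + 1680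

end defs

/-! ### levels and discs -/

/-- the radii -/
def lvl (R s : ℝ) (j : ℕ) : ℝ := R * Real.exp (-(j * s))

/-- normalised area of the lens of two unit discs at distance `t` -/
def gg (t : ℝ) : ℝ :=
  (MeasureTheory.volume
    (Metric.closedBall (-(t : ℂ) / 2) 1 ∩ Metric.closedBall ((t : ℂ) / 2) 1)).toReal / Real.pi

open Classical in
/-- the trace of the disc with centre `q` -/
def tr {X : Type} [Fintype X] (e : X → ℂ) (r : ℝ) (q : ℂ) : Finset X :=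
  univ.filter fun x => ‖q - e x‖ ≤ r

/-- area of the centres with a given trace -/
def va {X : Type} [Fintype X] (e : X → ℂ) (r : ℝ) (S : Finset X) : ℝ :=
  (MeasureTheory.volume {q : ℂ | tr e r q = S}).toReal

open Classical in
/-- the cells at a complex place -/
def arch {X : Type} [Fintype X] (e : X → ℂ) (R s : ℝ) (J : ℕ) (lo hi : ℝ) : Cells X where
  I := (range (J + 1) ×ˢ univ).filter fun i => ∃ q : ℂ, tr e (lvl R s i.1) q = i.2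
  w i := s * va e (lvl R s i.1) i.2 / (Real.pi * lvl R s i.1 ^ 2)
  ρ i := lvl R s i.1
  d x y := ‖e x - e y‖
  lam := 2
  eta := 2 * s
  xi := 8
  g := 1 / 40000
  K := s * (∑ j ∈ range (J + 1), gg (hi / lvl R s j)) + Real.log hi
  rlo := lo / 256
  rhi := hi

/-- admissible parameters for `arch` -/
structure AP0 {X : Type} (e : X → ℂ) (R s : ℝ) (J : ℕ) (lo hi : ℝ) : Prop where
  s_pos : 0 < s
  s_le : s ≤ 1 / 10
  lo_pos : 0 < lo
  lo_hi : lo ≤ hi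
  d_lo : ∀ x y, x ≠ y → lo ≤ ‖e x - e y‖
  d_hi : ∀ x y, ‖e x - e y‖ ≤ hi
  R_big : hi * (Real.log (hi / lo) + 1) ≤ s * R
  J_big : lvl R s J ≤ lo / 256

/-! ### rows: construction -/

open Classical in
/-- counting levels -/
def LEV : Prop :=
  ∀ (R s : ℝ) (J : ℕ), 0 < R → 0 < s →
    (∀ a b : ℝ, 0 < a → a ≤ b →
      s * (((range (J + 1)).filter fun j => a ≤ lvl R s j ∧ lvl R s j < b).card : ℝ) ≤
        Real.log (b / a) + s) ∧
    (∀ a b : ℝ, lvl R s J ≤ a → a ≤ b → b ≤ R →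
      Real.log (b / a) - s ≤
        s * (((range (J + 1)).filter fun j => a ≤ lvl R s j ∧ lvl R s j < b).card : ℝ)) ∧
    (∀ t : ℝ, lvl R s J ≤ t → t ≤ R →
      |s * (((range (J + 1)).filter fun j => t ≤ lvl R s j).card : ℝ) - Real.log (R / t)| ≤ s) ∧
    (∀ r : ℝ, 0 < r → s ≤ 1 / 2 →
      ∑ j ∈ range (J + 1), (if r ≤ lvl R s j then s * (r / lvl R s j) else 0) ≤ 2) ∧
    (∀ t : ℝ, 0 < t → ∃ J' : ℕ, lvl R s J' ≤ t)

/-- cells at a finite place -/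
def ULT : Prop :=
  ∀ (X : Type) [Fintype X] [DecidableEq X] (d : X → X → ℝ) (η : ℝ), 0 < η →
    (∀ x, d x x = 0) → (∀ x y, d x y = d y x) → (∀ x y, x ≠ y → 0 < d x y) →
    (∀ x y z, d x z ≤ max (d x y) (d y z)) →
    ∃ c : Cells X, c.Good ∧ c.d = d ∧ c.lam = 1 ∧ c.eta = η ∧ c.xi = η ∧ c.g = 0

open Classical in
/-- the areas add up -/
def PUSH : Prop :=
  ∀ (X : Type) [Fintype X] (e : X → ℂ) (r : ℝ) (Φ : Finset X → Prop), ¬ Φ ∅ →
    MeasureTheory.volume {q : ℂ | Φ (tr e r q)} ≠ ⊤ ∧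
    ∑ S : Finset X, (if Φ S then va e r S else 0) =
      (MeasureTheory.volume {q : ℂ | Φ (tr e r q)}).toReal

/-- shape of the lens function -/
def GG1 : Prop :=
  (∀ t u : ℝ, 0 ≤ t → t ≤ u → gg u ≤ gg t) ∧ (∀ t : ℝ, 0 ≤ t → 1 - t ≤ gg t ∧ gg t ≤ 1) ∧
    ∀ t : ℝ, 2 < t → gg t = 0

/-- the lens of two discs of radius `r` -/
def GG2 : Prop :=
  ∀ (a b : ℂ) (r : ℝ), a ≠ b → 0 < r →
    (MeasureTheory.volume (Metric.closedBall a r ∩ Metric.closedBall b r)).toReal =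
      Real.pi * r ^ 2 * gg (‖a - b‖ / r)

/-- the level sum is a logarithm -/
def PSI : Prop :=
  ∀ (R s : ℝ) (J : ℕ) (lo hi t : ℝ), 0 < s → s ≤ 1 / 10 → 0 < lo → lo ≤ t → t ≤ hi →
    hi * (Real.log (hi / lo) + 1) ≤ s * R → lvl R s J ≤ lo / 256 →
    |s * (∑ j ∈ range (J + 1), gg (t / lvl R s j)) -
      (s * (∑ j ∈ range (J + 1), gg (hi / lvl R s j)) + Real.log hi - Real.log t)| ≤ 2 * s

open Classical in
/-- weights of `arch` as areas -/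
def AW : Prop :=
  ∀ (X : Type) [Fintype X] [DecidableEq X] (e : X → ℂ) (R s : ℝ) (J : ℕ) (lo hi : ℝ)
    (Φ : ℕ × Finset X → Prop), (∀ j, ¬ Φ (j, ∅)) →
    (∀ j, MeasureTheory.volume {q : ℂ | Φ (j, tr e (lvl R s j) q)} ≠ ⊤) ∧
    (arch e R s J lo hi).W Φ = ∑ j ∈ range (J + 1),
      s * (MeasureTheory.volume {q : ℂ | Φ (j, tr e (lvl R s j) q)}).toReal /
        (Real.pi * lvl R s j ^ 2)

/-- properties two and three at a complex place -/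
def AC23 : Prop :=
  ∀ (X : Type) [Fintype X] [DecidableEq X] (e : X → ℂ) (R s : ℝ) (J : ℕ) (lo hi : ℝ),
    AP0 e R s J lo hi →
    (∀ x (a b : ℝ), 0 < a → a ≤ b →
      (arch e R s J lo hi).W (fun i => x ∈ i.2 ∧ a ≤ lvl R s i.1 ∧ lvl R s i.1 < b) ≤
        Real.log (b / a) + 2 * s) ∧
    ∀ x (a b : ℝ), lo / 256 ≤ a → a ≤ b → b ≤ hi →
      (Real.log (b / a) - 2 * s) / 4 ≤
        (arch e R s J lo hi).W (fun i => x ∈ i.2 ∧ a ≤ lvl R s i.1 ∧ lvl R s i.1 < b ∧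
          ∀ z, ‖e x - e z‖ ≤ lvl R s i.1 / 2 → z ∈ i.2)

/-- property four at a complex place -/
def AC4 : Prop :=
  ∀ (X : Type) [Fintype X] [DecidableEq X] (e : X → ℂ) (R s : ℝ) (J : ℕ) (lo hi : ℝ),
    AP0 e R s J lo hi → ∀ x y, x ≠ y →
    |(arch e R s J lo hi).W (fun i => x ∈ i.2 ∧ y ∈ i.2) -
      ((arch e R s J lo hi).K - Real.log ‖e x - e y‖)| ≤ 2 * s

/-- property five at a complex place -/
def AC5 : Prop :=
  ∀ (X : Type) [Fintype X] [DecidableEq X] (e : X → ℂ) (R s : ℝ) (J : ℕ) (lo hi : ℝ),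
    AP0 e R s J lo hi → ∀ x (r : ℝ), 0 < r →
    (arch e R s J lo hi).W (fun i => r ≤ lvl R s i.1 ∧ (∃ a ∈ i.2, ‖e x - e a‖ ≤ r) ∧
      ∃ b, b ∉ i.2 ∧ ‖e x - e b‖ ≤ r) ≤ 8

/-- property six at a complex place -/
def AC6 : Prop :=
  ∀ (X : Type) [Fintype X] [DecidableEq X] (e : X → ℂ) (R s : ℝ) (J : ℕ) (lo hi : ℝ),
    AP0 e R s J lo hi → ∀ x (r : ℝ) (Y : Finset X), lo ≤ r → r ≤ hi →
    (∀ y ∈ Y, ‖e x - e y‖ ≤ r) →
    1 / 40000 * (Y.card : ℝ) ^ 2 ≤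
      (arch e R s J lo hi).WS (fun i => r / 128 ≤ lvl R s i.1 ∧ lvl R s i.1 < r / 64)
        (fun i => ((Y ∩ i.2).card : ℝ) ^ 2)

/-- cells at a complex place -/
def ARCH : Prop :=
  ∀ (X : Type) [Fintype X] [DecidableEq X] (e : X → ℂ) (η : ℝ), Function.Injective e →
    0 < η → η ≤ 1 / 5 →
    ∃ c : Cells X, c.Good ∧ (c.d = fun x y => ‖e x - e y‖) ∧ c.lam = 2 ∧ c.eta = η ∧ c.xi = 8 ∧
      c.g = 1 / 40000

/-- specialisation to a number field -/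
def NF : Prop :=
  ∀ (X : Type) [Fintype X] (P : X → EuclideanSpace ℝ (Fin 2)), Function.Injective P →
    ∃ (K : Type) (_ : Field K) (_ : NumberField K) (U V : X → K),
      Function.Injective U ∧ Function.Injective V ∧
      ∀ x y z, dist (P x) (P y) = dist (P x) (P z) →
        (U x - U y) * (V x - V y) = (U x - U z) * (V x - V z)

/-- the places that matter, with the product formula in logarithmic form -/
def PLC : Prop :=
  ∀ (K : Type) [Field K] [NumberField K] (F : Finset K), (∀ a ∈ F, a ≠ 0) →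
    ∃ B : Finset (NumberField.FinitePlace K), ∀ a ∈ F,
      (∑ v : NumberField.InfinitePlace K, (v.mult : ℝ) * Real.log (v a)) +
        ∑ v ∈ B, Real.log (v a) = 0

/-- the system of a configuration over a number field -/
def SYS : Prop :=
  ∀ (X : Type) [Fintype X] [DecidableEq X] (K : Type) [Field K] [NumberField K] (U V : X → K)
    (lab : X → X → ℝ), Function.Injective U → Function.Injective V →
    (∀ x y z, lab x y = lab x z → (U x - U y) * (V x - V y) = (U x - U z) * (V x - V z)) →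
    ∃ (PL : Type) (_ : Fintype PL) (s : Sys X PL), s.Good ∧ s.lab = lab

/-! ### rows: heights -/

/-- heavy cells are almost nested -/
def LX : Prop :=
  ∀ (X : Type) [DecidableEq X] (c : Cells X) (hv : ℕ × Finset X → Prop), c.Good → HV c hv →
    ∀ a b, min (c.W fun i => hv i ∧ b ∈ i.2 ∧ a ∉ i.2) (c.W fun i => hv i ∧ a ∈ i.2 ∧ b ∉ i.2) ≤
        3 * c.xi ∧
      min (c.H hv a) (c.H hv b) ≤ c.o hv a b + 3 * c.xi

/-- overlaps are almost ultrametric -/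
def LXP : Prop :=
  ∀ (X : Type) [DecidableEq X] (c : Cells X) (hv : ℕ × Finset X → Prop), c.Good → HV c hv →
    ∀ x a b, min (c.o hv x a) (c.o hv x b) ≤ c.o hv a b + 8 * c.xi

/-- the product formula for overlaps -/
def HID : Prop :=
  ∀ (X PL : Type) [DecidableEq X] [Fintype PL] (s : Sys X PL) (hv : ℕ × Finset X → Prop),
    s.Good → ∃ C0 : ℝ, ∀ x y, x ≠ y → |s.O hv x y - (s.H hv x - C0) - (s.H hv y - C0)| ≤ ep

/-- three points in one fibre -/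
def FOURP : Prop :=
  ∀ (X PL : Type) [DecidableEq X] [Fintype PL] (s : Sys X PL) (hv : ℕ × Finset X → Prop),
    s.Good → (∀ p, HV (s.c p) hv) → ∀ x y₁ y₂ y₃, y₁ ≠ x → y₂ ≠ x → y₃ ≠ x →
    y₁ ≠ y₂ → y₁ ≠ y₃ → y₂ ≠ y₃ → s.lab x y₁ = s.lab x y₂ → s.lab x y₁ = s.lab x y₃ →
    s.H hv y₃ ≤ s.O hv y₂ y₃ + s.O hv y₁ y₃ + s.O hv y₁ y₂ + s.O hv x y₃ + 180 ∧
    s.O hv x y₃ ≤ s.O hv y₂ y₃ + s.O hv y₁ y₃ + s.O hv y₁ y₂ + s.H hv y₃ + 280

/-- the lowest eighth, the highest eighth and the band between them -/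
def CUT : Prop :=
  ∀ (X : Type) [DecidableEq X] (Q : Finset X) (h : X → ℝ) (k : ℕ), 2 * k < Q.card → 0 < k →
    ∃ A B Y : Finset X, A ⊆ Q ∧ B ⊆ Q ∧ Y ⊆ Q ∧ A.card = k ∧ B.card = k ∧
      Y.card + 2 * k = Q.card ∧ (∀ a ∈ A, ∀ y ∈ Y, h a ≤ h y) ∧ ∀ y ∈ Y, ∀ b ∈ B, h y ≤ h b

/-- a pin in `B` with three points of `A` in one fibre -/
def PIG : Prop :=
  ∀ (X : Type) [DecidableEq X] (lab : X → X → ℝ) (Q A B : Finset X), A ⊆ Q → B ⊆ Q →
    100 ≤ Q.card → A.card = Q.card / 8 → B.card = Q.card / 8 → 200 * Zs lab Q ≤ Q.card ^ 2 →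
    ∃ x ∈ B, ∃ y₁ ∈ A, ∃ y₂ ∈ A, ∃ y₃ ∈ A, y₁ ≠ x ∧ y₂ ≠ x ∧ y₃ ≠ x ∧
      y₁ ≠ y₂ ∧ y₁ ≠ y₃ ∧ y₂ ≠ y₃ ∧ lab x y₁ = lab x y₂ ∧ lab x y₁ = lab x y₃

/-- the band of comparable heights -/
def BAND : Prop :=
  ∀ (X PL : Type) [DecidableEq X] [Fintype PL] (s : Sys X PL) (Q : Finset X), s.Good →
    100 ≤ Q.card → 200 * Zs s.lab Q ≤ Q.card ^ 2 →
    ∃ Y ⊆ Q, 3 * Q.card ≤ 4 * Y.card ∧ ∃ (h : X → ℝ) (T : ℝ), Ctx s (heavy Q) Y h T

/-! ### rows: one place -/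

/-- quantile radii -/
def QR : Prop :=
  ∀ (X : Type) [DecidableEq X] (c : Cells X) (Y : Finset X), c.Good → ∀ x ∈ Y, ∀ k : ℝ, 1 < k →
    k ≤ Y.card → ∃ a ∈ Y, a ≠ x ∧ k ≤ (c.ball Y x (c.d x a)).card ∧
      ∀ t < c.d x a, ((c.ball Y x t).card : ℝ) < k

/-- the geometric data exist -/
def GEO : Prop :=
  ∀ (X : Type) [DecidableEq X] (c : Cells X) (Y : Finset X), c.Good → 3000 ≤ Y.card →
    ∃ γ : Geo X, γ.Good c Y

/-- outlier length against heavy cells, and low heavy cells -/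
def LG : Prop :=
  ∀ (X : Type) [DecidableEq X] (c : Cells X) (hv : ℕ × Finset X → Prop) (Y : Finset X)
    (γ : Geo X), PC c hv Y γ →
    (∀ x ∈ Y, c.G γ x ≤ 4 * c.H hv x + 3 * c.xi) ∧
    tau * Y.card * c.Hlow hv γ ≤ ∑ y ∈ Y, c.H hv y

/-- light cells above a radius, and the depth of a pair -/
def LTA : Prop :=
  ∀ (X : Type) [DecidableEq X] (c : Cells X) (hv : ℕ × Finset X → Prop) (Y : Finset X)
    (γ : Geo X), PC c hv Y γ →
    (∀ x ∈ Y, ∀ a : ℝ, 0 < a → c.W (fun i => ¬ hv i ∧ x ∈ i.2 ∧ a ≤ c.ρ i) ≤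
      max 0 (Real.log (γ.r / a) + c.G γ x) + 2 * c.xi) ∧
    ∀ x ∈ Y, ∀ y ∈ Y, x ≠ y →
      Real.log (γ.r / c.d x y) ≤ 4 * (c.o hv x y + c.Hlow hv γ) + 3 * c.xi

/-- the diagonal -/
def DG : Prop :=
  ∀ (X : Type) [DecidableEq X] (c : Cells X) (hv : ℕ × Finset X → Prop) (Y : Finset X) (σ : ℝ),
    c.Good → 2 ≤ σ * Y.card → σ ≤ 1 → ∀ y ∈ Y,
    c.olg hv Y σ y y ≤ c.H hv y + 2 / (σ * Y.card) * (∑ z ∈ Y.erase y, c.o hv y z) + 4 * c.xi

/-- deep small cells through a pair, summed over the pins -/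
def SAN : Prop :=
  ∀ (X : Type) [DecidableEq X] (c c' : Cells X) (hv : ℕ × Finset X → Prop) (Y : Finset X)
    (γ γ' : Geo X) (σ : ℝ), PC c hv Y γ → PC c' hv Y γ' → 0 ≤ σ → ∀ y ∈ Y,
    ∑ x ∈ Y.erase y, c.W (fun i => c.small hv Y σ i ∧ x ∈ i.2 ∧ y ∈ i.2 ∧
      c.ρ i < γ.r * Real.exp (-(max 0 (Real.log (γ.r * γ'.r / (c.d x y * c'.d x y))) +
        c'.G γ' x))) ≤ σ * Y.card * (c'.G γ' y + 2 * c.xi + c'.xi)

open Classical in
/-- step A at one place -/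
def SAP : Prop :=
  ∀ (X : Type) [DecidableEq X] (c c' : Cells X) (hv : ℕ × Finset X → Prop) (Y : Finset X)
    (γ γ' : Geo X) (σ : ℝ) (lab : X → X → ℝ) (rep : X → ℝ → X),
    PC c hv Y γ → PC c' hv Y γ' → 0 ≤ σ →
    (∀ x y z, y ≠ x → z ≠ x → lab x y = lab x z → c.d x y * c'.d x y = c.d x z * c'.d x z) →
    (∀ x ∈ Y, ∀ y ∈ Y.erase x, rep x (lab x y) ∈ Y.erase x ∧ lab x (rep x (lab x y)) = lab x y) →
    c.WS (c.small hv Y σ) (fun i => (Zs lab (Y ∩ i.2) : ℝ)) ≤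
      (∑ x ∈ Y, ∑ l ∈ (Y.erase x).image (lab x),
        (c.G γ x + c'.G γ' x + 4 * (c.o hv x (rep x l) + c.Hlow hv γ) +
          4 * (c'.o hv x (rep x l) + c'.Hlow hv γ') + 5 * c.xi + 3 * c'.xi)) +
      σ * Y.card * ∑ y ∈ Y, (c'.G γ' y + 2 * c.xi + c'.xi)

/-- a fibre is covered by two balls -/
def ER : Prop :=
  ∀ (X : Type) [DecidableEq X] (c c' : Cells X) (hv : ℕ × Finset X → Prop) (Y C : Finset X)
    (γ γ' : Geo X) (σ : ℝ), PC c hv Y γ → PC c' hv Y γ' → c'.lam = c.lam → ∀ x ∈ Y, ∀ y ∈ C,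
    C ⊆ Y.erase x → (∀ z ∈ C, c.d x z * c'.d x z = c.d x y * c'.d x y) →
    err c c' γ γ' x y ≤ 2 * (c.eta + c'.eta) +
      128 / tau ^ 2 * (c.disc hv Y σ C + c'.disc hv Y σ C) +
      32 / tau * ((∑ z ∈ C, (c.osm hv Y σ x z + c'.osm hv Y σ x z)) / C.card)

open Classical in
/-- many pairs of large sets meet -/
def TU : Prop :=
  ∀ (X : Type) [DecidableEq X] (Y S : Finset X) (B : X → Finset X), Y.Nonempty →
    (∀ x ∈ S, B x ⊆ Y ∧ tau / 2 * Y.card ≤ (B x).card) →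
    tau ^ 2 / 4 * (S.card : ℝ) ^ 2 ≤
      S.card + ∑ x ∈ S, ∑ y ∈ S.erase x, if (B x ∩ B y).Nonempty then (1 : ℝ) else 0

/-- the low second moment at one place -/
def UBP : Prop :=
  ∀ (X : Type) [DecidableEq X] (c c' : Cells X) (hv : ℕ × Finset X → Prop) (Y : Finset X)
    (γ γ' : Geo X) (σ : ℝ), PC c hv Y γ → PC c' hv Y γ' → c'.lam = c.lam →
    tau ^ 2 / 4 * c.ulow hv Y σ γ ≤
      (∑ x ∈ Y, ∑ y ∈ Y.erase x, (2 * err c c' γ γ' x y + c.eta)) +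
      ∑ y ∈ Y, (c.olg hv Y σ y y + c.Hlow hv γ)

/-- the total overlap at one place -/
def WU : Prop :=
  ∀ (X : Type) [DecidableEq X] (c : Cells X) (hv : ℕ × Finset X → Prop) (Y : Finset X)
    (γ : Geo X) (σ : ℝ), PC c hv Y γ →
    ∑ x ∈ Y, ∑ y ∈ Y.erase x, c.o hv x y ≤
      (∑ x ∈ Y, ∑ y ∈ Y.erase x, c.osm hv Y σ x y) + 9 * c.ulow hv Y σ γ +
      22 * c.xi * (Y.card : ℝ) ^ 2 + tau * Y.card * ∑ y ∈ Y, (5 * c.H hv y + 5 * c.xi)

/-- the lower bound at a complex place -/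
def AR : Prop :=
  ∀ (X : Type) [DecidableEq X] (c : Cells X) (hv : ℕ × Finset X → Prop) (Y : Finset X)
    (γ : Geo X) (σ : ℝ), PC c hv Y γ →
    c.g * (Y.card : ℝ) ^ 2 / 2 ≤ c.ulow hv Y σ γ +
      (∑ x ∈ Y, ∑ y ∈ Y.erase x, c.osm hv Y σ x y) + 2 * c.xi * Y.card

/-- the discrepancy as a quadratic form -/
def DQ : Prop :=
  ∀ (X : Type) [DecidableEq X] (c : Cells X) (hv : ℕ × Finset X → Prop) (Y C : Finset X) (σ : ℝ),
    C ⊆ Y → C.Nonempty →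
    c.disc hv Y σ C = ∑ y ∈ Y, ∑ z ∈ Y,
      ((if y ∈ C then 1 / (C.card : ℝ) else 0) - 1 / Y.card) *
        ((if z ∈ C then 1 / (C.card : ℝ) else 0) - 1 / Y.card) * c.olg hv Y σ y z

open Classical in
/-- sums over fibres -/
def FIB : Prop :=
  ∀ (X : Type) [DecidableEq X] (lab : X → X → ℝ) (Y : Finset X) (x : X),
    (∑ y ∈ Y.erase x, 1 / ((fib lab Y x y).card : ℝ)) = ((Y.erase x).image (lab x)).card ∧
    ∀ f : X → ℝ, ∑ y ∈ Y.erase x, (∑ z ∈ fib lab Y x y, f z) / (fib lab Y x y).card =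
      ∑ z ∈ Y.erase x, f z

/-! ### rows: all places -/

/-- step A -/
def SA : Prop :=
  ∀ (X PL : Type) [DecidableEq X] [Fintype PL] (s : Sys X PL) (hv : ℕ × Finset X → Prop)
    (Y : Finset X) (h : X → ℝ) (T σ : ℝ) (γ : PL → Geo X), Ctx s hv Y h T →
    (∀ p, (γ p).Good (s.c p) Y) → 0 ≤ σ →
    ∑ p, s.m p * (s.c p).WS ((s.c p).small hv Y σ) (fun i => (Zs s.lab (Y ∩ i.2) : ℝ)) ≤
      38 * T / tau * Zs s.lab Y + 10 * σ * (Y.card : ℝ) ^ 2 * T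

/-- choice of the small cell -/
def SEL : Prop :=
  ∀ (X PL : Type) [DecidableEq X] [Fintype PL] (s : Sys X PL) (hv : ℕ × Finset X → Prop)
    (Y : Finset X) (σ a : ℝ), s.Good → 0 < s.Th hv Y σ →
    ∑ p, s.m p * (s.c p).WS ((s.c p).small hv Y σ) (fun i => (Zs s.lab (Y ∩ i.2) : ℝ)) ≤
      a * s.Th hv Y σ →
    ∃ S ⊆ Y, 2 ≤ S.card ∧ (S.card : ℝ) < σ * Y.card ∧
      (Zs s.lab S : ℝ) ≤ a * (S.card * (S.card - 1))

/-- equidistribution of a large set -/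
def B1 : Prop :=
  ∀ (X PL : Type) [DecidableEq X] [Fintype PL] (s : Sys X PL) (hv : ℕ × Finset X → Prop)
    (Y C : Finset X) (h : X → ℝ) (T σ F : ℝ), Ctx s hv Y h T → C ⊆ Y → C.Nonempty →
    (∀ y ∈ Y, s.Olg hv Y σ y y ≤ F) →
    s.Disc hv Y σ C ≤ (F + 2) / C.card + 4 * ep +
      2 / Y.card * ((∑ y ∈ C, ∑ z ∈ Y.erase y, s.Osm hv Y σ y z) / C.card)

/-- equidistribution of the fibres -/
def B1S : Prop :=
  ∀ (X PL : Type) [DecidableEq X] [Fintype PL] (s : Sys X PL) (hv : ℕ × Finset X → Prop)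
    (Y : Finset X) (h : X → ℝ) (T σ : ℝ), Ctx s hv Y h T → 2 ≤ σ * Y.card → σ ≤ 1 →
    (∀ y ∈ Y, s.Olg hv Y σ y y ≤ 7 * T / σ) ∧
    ∑ x ∈ Y, ∑ y ∈ Y.erase x, s.Disc hv Y σ (fib s.lab Y x y) ≤
      9 * T / σ * Zs s.lab Y + 4 * ep * (Y.card : ℝ) ^ 2 + 2 * s.Th hv Y σ

/-- the total error -/
def ERS : Prop :=
  ∀ (X PL : Type) [DecidableEq X] [Fintype PL] (s : Sys X PL) (hv : ℕ × Finset X → Prop)
    (Y : Finset X) (h : X → ℝ) (T σ : ℝ) (γ : PL → Geo X), Ctx s hv Y h T →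
    (∀ p, (γ p).Good (s.c p) Y) →
    ∑ p, s.m p * (∑ x ∈ Y, ∑ y ∈ Y.erase x,
        err (s.c p) (s.c (s.bar p)) (γ p) (γ (s.bar p)) x y) ≤
      4 * ep * (Y.card : ℝ) ^ 2 +
      256 / tau ^ 2 * (∑ x ∈ Y, ∑ y ∈ Y.erase x, s.Disc hv Y σ (fib s.lab Y x y)) +
      64 / tau * s.Th hv Y σ

/-- the low second moment is small -/
def SB1 : Prop :=
  ∀ (X PL : Type) [DecidableEq X] [Fintype PL] (s : Sys X PL) (hv : ℕ × Finset X → Prop)
    (Y : Finset X) (h : X → ℝ) (T σ : ℝ) (γ : PL → Geo X), Ctx s hv Y h T →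
    (∀ p, (γ p).Good (s.c p) Y) → σ ≤ 1 → 1 ≤ ep * (σ * Y.card) →
    (Zs s.lab Y : ℝ) ≤ ep * σ * (Y.card : ℝ) ^ 2 → s.Th hv Y σ ≤ ep * T * (Y.card : ℝ) ^ 2 →
    s.U hv Y σ γ ≤ 1 / 10 ^ 11 * T * (Y.card : ℝ) ^ 2

/-- the contradiction of step B -/
def SB2 : Prop :=
  ∀ (X PL : Type) [DecidableEq X] [Fintype PL] (s : Sys X PL) (hv : ℕ × Finset X → Prop)
    (Y : Finset X) (h : X → ℝ) (T σ : ℝ) (γ : PL → Geo X), Ctx s hv Y h T →
    (∀ p, (γ p).Good (s.c p) Y) → 10 ^ 8 ≤ Y.card →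
    s.Th hv Y σ ≤ ep * T * (Y.card : ℝ) ^ 2 →
    s.U hv Y σ γ ≤ 1 / 10 ^ 11 * T * (Y.card : ℝ) ^ 2 → False

/-- the core step -/
def CORE : Prop :=
  ∀ (X PL : Type) [DecidableEq X] [Fintype PL] (s : Sys X PL) (hv : ℕ × Finset X → Prop)
    (Y : Finset X) (h : X → ℝ) (T σ : ℝ), Ctx s hv Y h T → σ ≤ 1 → 1 ≤ ep * (σ * Y.card) →
    (Zs s.lab Y : ℝ) ≤ ep * σ * (Y.card : ℝ) ^ 2 →
    ∃ S ⊆ Y, 2 ≤ S.card ∧ (S.card : ℝ) < σ * Y.card ∧
      (Zs s.lab S : ℝ) ≤ 11 * σ / ep * (S.card * (S.card - 1))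

/-- the numerical facts of the induction -/
def NUM : Prop :=
  ∀ n : ℝ, 2 ≤ n →
    (Real.log n ≤ 900 → (n - 1) * Real.exp (-30 * Real.sqrt (Real.log n)) ≤ 1) ∧
    (900 < Real.log n → 100 ≤ n ∧ 200 * Real.exp (-30 * Real.sqrt (Real.log n)) ≤ 1 ∧
      2 * Real.exp (-30 * Real.sqrt (Real.log n)) / ep ≤ 1 ∧
      1 ≤ n * Real.exp (-30 * Real.sqrt (Real.log n)) ∧
      ∀ k : ℝ, 2 ≤ k → k < 2 * Real.exp (-30 * Real.sqrt (Real.log n)) / ep * n →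
        22 * Real.exp (-30 * Real.sqrt (Real.log n)) / ep ^ 2 <
          Real.exp (-30 * Real.sqrt (Real.log k)))

/-- the induction -/
def IND : Prop :=
  ∀ (X PL : Type) [DecidableEq X] [Fintype PL] (s : Sys X PL), s.Good → ∀ Q : Finset X,
    2 ≤ Q.card →
    (Q.card : ℝ) * (Q.card - 1) * Real.exp (-30 * Real.sqrt (Real.log Q.card)) ≤ Zs s.lab Q

/-- the theorem -/
def MAIN : Prop :=
  ∀ A : Finset (EuclideanSpace ℝ (Fin 2)), 2 ≤ A.card →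
    (A.card : ℝ) * (A.card - 1) * Real.exp (-30 * Real.sqrt (Real.log A.card)) ≤
      ∑ a ∈ A, (((A.image (fun b => dist a b)).erase 0).card : ℝ)

end Pool.Agent.MP_6c3157_co.PD
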